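import Mathlib
import Pool.Agent.Helper48.LCY.Top
import Pool.Agent.Helper51.LCY.P2

/-!
Statements of rows of the block FAMILIES (MP_f7e214_ag), with coordinate pairs.
-/

open Polynomial

namespace LCY

noncomputable section

variable {L : Type} [Field L] [Algebra ℂ L]

/-- `v` is the place of the curve `f = 0` in the coordinates `Q` (`f` irreducible). -/
def IsPlaceOf (Q : Coord L) (f : ℂ[X][X]) (v : DVal L) : Prop :=
  0 < v.v (ev Q.x Q.y f) ∧ ∀ g : ℂ[X][X], ¬ f ∣ g → v.v (ev Q.x Q.y g) = 0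

/-- The place `v` is a curve of the surface outside the boundary. -/
def CYp {N : ℕ} (ω : Bracket L) (x : Fin (N + 1) → L) (v : DVal L) : Prop :=
  ¬ Contracted x v ∧ ω.Wt v 0

/-- The rational function `r` is regular at `c` with value `ξ`. -/
def ValAt {K : Type} [Field K] (c : K) (r : RatFunc K) (ξ : K) : Prop :=
  ∃ a b : K[X], b.eval c ≠ 0 ∧ a.eval c = ξ * b.eval c ∧
    r = algebraMap K[X] (RatFunc K) a / algebraMap K[X] (RatFunc K) b

/-- The centre condition for a family at the point `c`. -/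
def CentreOk {N : ℕ} (ω : Bracket L) (x : Fin (N + 1) → L) {K : Type} [Field K] [Algebra ℂ K]
    (i : L →ₐ[ℂ] RatFunc K) (c : K) : Prop :=
  (∀ z, RegAtT (X - C c) (i z)) ∨
    ∃ v : DVal L, ¬ Contracted x v ∧ ω.Wt v 0 ∧ ∀ z, v.Int z ↔ RegAtT (X - C c) (i z)

/-- PT. A point over `K` in the coordinate plane of `Q` which is not constant: the centre is
generic or the place of an irreducible polynomial vanishing at this point. -/
def ST_PT : Prop := ∀ (L : Type) [Field L] [Algebra ℂ L] (Q : Coord L) (K : Type) [Field K]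
  [Algebra ℂ K] (i : L →ₐ[ℂ] RatFunc K) (c ξ η : K), ValAt c (i Q.x) ξ → ValAt c (i Q.y) η →
  ¬ ((∃ a : ℂ, ξ = algebraMap ℂ K a) ∧ ∃ b : ℂ, η = algebraMap ℂ K b) →
  (∀ z, RegAtT (X - C c) (i z)) ∨
    ∃ f : ℂ[X][X], Irreducible f ∧ ev ξ η f = 0 ∧
      ∀ v : DVal L, IsPlaceOf Q f v → ∀ z, v.Int z ↔ RegAtT (X - C c) (i z)

/-- PLACE. Every irreducible polynomial has a place. -/
def ST_PLACE : Prop := ∀ (L : Type) [Field L] [Algebra ℂ L] (Q : Coord L) (f : ℂ[X][X]),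
  Irreducible f → ∃ v : DVal L, IsPlaceOf Q f v ∧ v.v (ev Q.x Q.y f) = 1

/-- P2N. The projective plane with a smooth cubic in Weierstrass form (in the affine coordinates
`Q`, the line at infinity being the flex tangent): tangent lines. -/
def ST_P2N : Prop := ∀ (L : Type) [Field L] [Algebra ℂ L] (N : ℕ) (ω : Bracket L)
  (x : Fin (N + 1) → L) (Q Q' : Coord L) (A B : ℂ) (f : ℂ[X][X]),
  Q'.x = Q.x / Q.y → Q'.y = Q.y⁻¹ → 4 * A ^ 3 + 27 * B ^ 2 ≠ 0 →
  f = X ^ 2 - C (X ^ 3 + C A * X + C B) →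
  (∀ (g : ℂ[X][X]) (v : DVal L), Irreducible g → ¬ g ∣ f → IsPlaceOf Q g v → CYp ω x v) →
  (∀ v : DVal L, IsPlaceOf Q' X v → CYp ω x v) → Fam ω x

/-- CONE. The quadric cone, in the coordinates `Q` with boundary `y ^ 2 = h(x)`, `deg h ≤ 4`, and
in the coordinates `Q' = (1 / x, y / x ^ 2)` at the ruling `x = ∞`. -/
def ST_CONE : Prop := ∀ (L : Type) [Field L] [Algebra ℂ L] (N : ℕ) (ω : Bracket L)
  (x : Fin (N + 1) → L) (Q Q' : Coord L) (h : ℂ[X]),
  Q'.x = Q.x⁻¹ → Q'.y = Q.y / Q.x ^ 2 → h.natDegree ≤ 4 → h ≠ 0 →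
  (∀ a : ℂ, h ≠ C (h.coeff 4) * (X - C a) ^ 4) → (∀ a : ℂ, h ≠ C a) →
  (∀ (g : ℂ[X][X]) (v : DVal L), Irreducible g → ¬ g ∣ (X ^ 2 - C h) → IsPlaceOf Q g v →
    CYp ω x v) →
  (∀ v : DVal L, IsPlaceOf Q' (C X) v → CYp ω x v) → Fam ω x

end

end LCY
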