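import Mathlib
import Pool.Agent.Helper51.LCY.P2

/-!
Residue fields of divisorial valuations of fields of transcendence degree two.
-/

open Polynomial

namespace LCY

noncomputable section

namespace DVal

variable {L : Type} [Field L] [Algebra ℂ L] (v : DVal L)

theorem pos_zero26 : v.Pos 0 := Or.inl rfl

theorem pos_int26 {a : L} (h : v.Pos a) : v.Int a := h.imp id le_of_lt

theorem pos_sub26 {a b : L} (ha : v.Pos a) (hb : v.Pos b) : v.Pos (a - b) := by
  rw [sub_eq_add_neg]; exact v.pos_add ha (v.pos_neg hb)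

theorem pos_or_pos26 {a b : L} (ha : v.Int a) (hb : v.Int b) (h : v.Pos (a * b)) :
    v.Pos a ∨ v.Pos b := by
  by_cases ha0 : a = 0
  · left; rw [ha0]; exact v.pos_zero26
  by_cases hb0 : b = 0
  · right; rw [hb0]; exact v.pos_zero26
  have h1 := h.resolve_left (mul_ne_zero ha0 hb0)
  rw [v.map_mul a b ha0 hb0] at h1
  have h2 := ha.resolve_left ha0
  have h3 := hb.resolve_left hb0
  by_contra hc
  push Not at hc
  have h4 : ¬ 0 < v.v a := fun h => hc.1 (Or.inr h)
  have h5 : ¬ 0 < v.v b := fun h => hc.2 (Or.inr h)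
  omega

theorem resTr_int26 {t : L} (ht : ResTr v.v t) : v.Int t := by
  right
  have := (ht X X_ne_zero).2
  rw [aeval_X] at this
  rw [this]

theorem aevalAeval_eq26 {A : Type} [CommRing A] [Algebra ℂ A] (x y : A) (P : ℂ[X][X]) :
    aevalAeval x y P = (P.map (aeval x : ℂ[X] →ₐ[ℂ] A).toRingHom).eval y := by
  induction P using Polynomial.induction_on' with
  | add p q hp hq => rw [_root_.map_add, hp, hq, Polynomial.map_add, eval_add]
  | monomial n c =>
    rw [← C_mul_X_pow_eq_monomial, _root_.map_mul, aevalAeval_C, _root_.map_pow, aevalAeval_Y,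
      Polynomial.map_mul, Polynomial.map_pow, map_C, map_X, eval_mul, eval_C, eval_pow, eval_X]
    rfl

theorem int_aevalAeval26 {t a : L} (ht : v.Int t) (ha : v.Int a) (P : ℂ[X][X]) :
    v.Int (aevalAeval t a P) := by
  induction P using Polynomial.induction_on' with
  | add p q hp hq => rw [_root_.map_add]; exact v.int_add hp hq
  | monomial n c =>
    rw [← C_mul_X_pow_eq_monomial, _root_.map_mul, aevalAeval_C, _root_.map_pow, aevalAeval_Y]
    exact v.int_mul (v.int_aeval ht c) (v.int_pow ha n)

/-- Two elements of the valuation ring have algebraically dependent residues. -/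
theorem exists_rel26 (hL : Algebra.trdeg ℂ L = 2) {t a : L} (ht : v.Int t) (ha : v.Int a) :
    ∃ P : ℂ[X][X], P ≠ 0 ∧ v.Pos (aevalAeval t a P) := by
  classical
  by_contra hc
  push Not at hc
  have hcomp : ∀ P : ℂ[X][X], MvPolynomial.aeval ![t, a]
      (Bivariate.equivMvPolynomial ℂ P) = aevalAeval t a P := by
    intro P
    have : ((MvPolynomial.aeval ![t, a]).comp
        (Bivariate.equivMvPolynomial ℂ : ℂ[X][X] →ₐ[ℂ] MvPolynomial (Fin 2) ℂ)) =
        aevalAeval t a := by
      apply algHom_ext'
      · ext; simp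
      · simp
    exact congrArg (fun φ : ℂ[X][X] →ₐ[ℂ] L => φ P) this
  have hpos : ∀ Q : MvPolynomial (Fin 2) ℂ, v.Pos (MvPolynomial.aeval ![t, a] Q) → Q = 0 := by
    intro Q hQ
    by_contra hQ0
    apply hc ((Bivariate.equivMvPolynomial ℂ).symm Q)
    · intro h
      apply hQ0
      have := congrArg (Bivariate.equivMvPolynomial ℂ) h
      rwa [AlgEquiv.apply_symm_apply, map_zero] at this
    · rw [← hcomp, AlgEquiv.apply_symm_apply]
      exact hQ
  have hind : AlgebraicIndependent ℂ ![t, a] := by
    rw [algebraicIndependent_iff]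
    intro Q hQ
    exact hpos Q (by rw [hQ]; exact v.pos_zero26)
  have htb := hind.isTranscendenceBasis_of_lift_trdeg_le_of_finite (by rw [hL]; simp)
  have halg := htb.isAlgebraic
  obtain ⟨π, hπ0, hπ⟩ := v.exists_unif
  have hadj : ∀ c : Algebra.adjoin ℂ (Set.range ![t, a]), v.Pos (c : L) → c = 0 := by
    intro c hc
    obtain ⟨Q, hQ⟩ := (Algebra.adjoin_range_eq_range_aeval ℂ ![t, a]).le c.2
    have hQ' : MvPolynomial.aeval ![t, a] Q = (c : L) := hQ
    have h0 := hpos Q (by rw [hQ']; exact hc)
    rw [h0, map_zero] at hQ'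
    exact Subtype.ext hQ'.symm
  have hint : ∀ c : Algebra.adjoin ℂ (Set.range ![t, a]), v.Int (c : L) := by
    intro c
    obtain ⟨Q, hQ⟩ := (Algebra.adjoin_range_eq_range_aeval ℂ ![t, a]).le c.2
    have hQ' : MvPolynomial.aeval ![t, a] Q = (c : L) := hQ
    have h1 := hcomp ((Bivariate.equivMvPolynomial ℂ).symm Q)
    rw [AlgEquiv.apply_symm_apply, hQ'] at h1
    rw [h1]
    exact v.int_aevalAeval26 ht ha _
  have hex : ∃ n, ∃ R : Polynomial (Algebra.adjoin ℂ (Set.range ![t, a])), R ≠ 0 ∧
      R.natDegree = n ∧ aeval π R = 0 := by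
    obtain ⟨R, hR, hR0⟩ := halg.isAlgebraic π
    exact ⟨_, R, hR, rfl, hR0⟩
  obtain ⟨R, hR, hdeg, hR0⟩ := Nat.find_spec hex
  have hmin := fun m hm => Nat.find_min hex (m := m) hm
  have hsplit := R.divX_mul_X_add
  have hev : aeval π R = aeval π R.divX * π + ((R.coeff 0 : Algebra.adjoin ℂ
      (Set.range ![t, a])) : L) := by
    conv_lhs => rw [← hsplit]
    rw [_root_.map_add, _root_.map_mul, aeval_X, aeval_C]
    rfl
  by_cases hc0 : R.coeff 0 = 0
  · have h1 : R.divX ≠ 0 := by
      intro h
      rw [h, hc0] at hsplit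
      simp at hsplit
      exact hR hsplit.symm
    have h2 : aeval π R.divX = 0 := by
      rw [hR0, hc0] at hev
      have h3 : aeval π R.divX * π = 0 := by
        rw [hev]; simp
      exact (mul_eq_zero.1 h3).resolve_right hπ0
    refine hmin R.divX.natDegree ?_ ⟨R.divX, h1, rfl, h2⟩
    rw [← hdeg]
    have hnd : R.natDegree ≠ 0 := by
      intro h
      obtain ⟨c, rfl⟩ := natDegree_eq_zero.1 h
      rw [coeff_C_zero] at hc0
      rw [hc0] at hR
      exact hR (by simp)
    rw [natDegree_divX_eq_natDegree_tsub_one]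
    omega
  · apply hc0
    apply hadj
    have h1 : ((R.coeff 0 : Algebra.adjoin ℂ (Set.range ![t, a])) : L) =
        -(π * aeval π R.divX) := by
      rw [hR0] at hev
      linear_combination -hev
    rw [h1]
    apply v.pos_neg
    apply v.pos_mul_int (Or.inr (by rw [hπ]; exact one_pos))
    have hπi : v.Int π := Or.inr (by rw [hπ]; exact zero_le_one)
    generalize R.divX = W
    induction W using Polynomial.induction_on' with
    | add p q hp hq => rw [_root_.map_add]; exact v.int_add hp hq
    | monomial n c =>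
      rw [aeval_monomial]
      exact v.int_mul (hint c) (v.int_pow hπi n)

end DVal

end

end LCY
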