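import Mathlib
import Pool.Agent.Helper26.LC.FamStmts2
import Pool.Agent.Helper27.LCY.BR2

/-!
The places of a field `L = E(t)` that are trivial on `E`.
-/

open Polynomial

namespace LCY

noncomputable section

/-- `L` is the rational function field over `E` in the variable `t`. -/
structure Rul (E : Type) {L : Type} [Field E] [Field L] [Algebra E L] (t : L) : Prop where
  tr : ∀ a : E[X], aeval t a = 0 → a = 0
  gen : ∀ z : L, ∃ a b : E[X], b ≠ 0 ∧ z = aeval t a / aeval t b

variable {E L : Type} [Field E] [Field L] [Algebra E L] {t : L}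

theorem Rul.ne (h : Rul E t) {a : E[X]} (ha : a ≠ 0) : aeval t a ≠ 0 := fun h0 => ha (h.tr a h0)

theorem Rul.t_ne (h : Rul E t) : t ≠ 0 := by
  intro h0
  have := h.tr X (by rw [aeval_X, h0])
  exact X_ne_zero this

theorem mult_mul {p : E[X]} (hp : Irreducible p) {a b : E[X]} (ha : a ≠ 0) (hb : b ≠ 0) :
    multiplicity p (a * b) = multiplicity p a + multiplicity p b :=
  multiplicity_mul hp.prime (FiniteMultiplicity.of_prime_left hp.prime (mul_ne_zero ha hb))

theorem mult_add {p : E[X]} (hp : Irreducible p) {a b : E[X]} (hab : a + b ≠ 0) : min (multiplicity p a) (multiplicity p b) ≤ multiplicity p (a + b) := by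
  have h1 : p ^ min (multiplicity p a) (multiplicity p b) ∣ a + b := by
    apply dvd_add
    · exact (pow_dvd_pow p (min_le_left _ _)).trans (pow_multiplicity_dvd p a)
    · exact (pow_dvd_pow p (min_le_right _ _)).trans (pow_multiplicity_dvd p b)
  exact (FiniteMultiplicity.of_prime_left hp.prime hab).le_multiplicity_of_pow_dvd h1

theorem mult_eq_zero {p : E[X]} {a : E[X]} (h : ¬ p ∣ a) : multiplicity p a = 0 :=
  multiplicity_eq_zero.2 h

variable [Algebra ℂ E] [Algebra ℂ L] [IsScalarTower ℂ E L]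

/-- The place of an irreducible polynomial. -/
theorem Rul.exists_dval (h : Rul E t) {p : E[X]} (hp : Irreducible p) {s : E}
    (hs : Transcendental ℂ s) :
    ∃ v : DVal L, ∀ a : E[X], a ≠ 0 → v.v (aeval t a) = multiplicity p a := by
  classical
  choose A B hB hAB using h.gen
  have hA : ∀ z, z ≠ 0 → A z ≠ 0 := by
    intro z hz h0
    apply hz
    rw [hAB z, h0, map_zero, zero_div]
  -- well definedness
  have hwd : ∀ (z : L) (a b : E[X]), z ≠ 0 → a ≠ 0 → b ≠ 0 → z = aeval t a / aeval t b →
      (multiplicity p (A z) : ℤ) - multiplicity p (B z) = multiplicity p a - multiplicity p b := by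
    intro z a b hz ha hb hab
    have h1 : A z * b = a * B z := by
      apply sub_eq_zero.1
      apply h.tr
      rw [map_sub, map_mul, map_mul, sub_eq_zero]
      have h2 : aeval t (A z) / aeval t (B z) = aeval t a / aeval t b := by
        rw [← hAB z, ← hab]
      rwa [div_eq_div_iff (h.ne (hB z)) (h.ne hb)] at h2
    have h2 := congrArg (multiplicity p) h1
    rw [mult_mul hp (hA z hz) hb, mult_mul hp ha (hB z)] at h2
    omega
  have hunit : ∀ e : E, e ≠ 0 → multiplicity p (C e : E[X]) = 0 := by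
    intro e he
    apply mult_eq_zero
    intro hd
    exact hp.not_isUnit (isUnit_of_dvd_unit hd (isUnit_C.2 (IsUnit.mk0 e he)))
  have hval : ∀ a : E[X], a ≠ 0 → (multiplicity p (A (aeval t a)) : ℤ) -
      multiplicity p (B (aeval t a)) = multiplicity p a := by
    intro a ha
    have h1 := hwd (aeval t a) a 1 (h.ne ha) ha one_ne_zero (by rw [map_one, div_one])
    rw [h1]
    have h2 : multiplicity p (1 : E[X]) = 0 := mult_eq_zero fun hd =>
      hp.not_isUnit (isUnit_of_dvd_one hd)
    rw [h2]; simp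
  refine ⟨⟨fun z => (multiplicity p (A z) : ℤ) - multiplicity p (B z), ?_, ?_, ?_, ?_, ?_⟩, hval⟩
  · intro a b ha hb
    have h1 := hwd (a * b) (A a * A b) (B a * B b) (mul_ne_zero ha hb)
      (mul_ne_zero (hA a ha) (hA b hb)) (mul_ne_zero (hB a) (hB b)) (by
        conv_lhs => rw [hAB a, hAB b]
        rw [map_mul, map_mul, div_mul_div_comm])
    rw [h1, mult_mul hp (hA a ha) (hA b hb), mult_mul hp (hB a) (hB b)]
    push_cast
    ring
  · intro a b ha hb hab
    have hne : A a * B b + B a * A b ≠ 0 := by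
      intro h0
      apply hab
      have h2 := congrArg (aeval t) h0
      rw [map_add, map_mul, map_mul, map_zero] at h2
      conv_lhs => rw [hAB a, hAB b]
      rw [div_add_div _ _ (h.ne (hB a)) (h.ne (hB b)), h2, zero_div]
    have h1 := hwd (a + b) (A a * B b + B a * A b) (B a * B b) hab hne
      (mul_ne_zero (hB a) (hB b)) (by
        conv_lhs => rw [hAB a, hAB b]
        rw [div_add_div _ _ (h.ne (hB a)) (h.ne (hB b)), map_add, map_mul, map_mul, map_mul])
    rw [h1, mult_mul hp (hB a) (hB b)]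
    have h3 := mult_add hp hne
    rw [mult_mul hp (hA a ha) (hB b), mult_mul hp (hB a) (hA b hb)] at h3
    rcases min_le_iff.1 h3 with h4 | h4
    · refine (min_le_left _ _).trans ?_
      push_cast
      omega
    · refine (min_le_right _ _).trans ?_
      push_cast
      omega
  · intro c hc
    have h1 : algebraMap ℂ L c = aeval t (C (algebraMap ℂ E c)) := by
      rw [aeval_C, ← IsScalarTower.algebraMap_apply]
    have hc' : algebraMap ℂ E c ≠ 0 := by rwa [Ne, map_eq_zero]
    rw [h1, hval _ (by rwa [Ne, C_eq_zero]), hunit _ hc']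
    rfl
  · refine ⟨aeval t p, h.ne hp.ne_zero, ?_⟩
    rw [hval p hp.ne_zero]
    have : multiplicity p p = 1 := multiplicity_self
    rw [this]; rfl
  · refine ⟨algebraMap E L s, ?_⟩
    intro P hP
    have h1 : aeval (algebraMap E L s) P = aeval t (C (aeval s P)) := by
      rw [aeval_C, aeval_algebraMap_apply]
    have h2 : aeval s P ≠ 0 := fun h0 => hs ⟨P, hP, h0⟩
    have h3 : (C (aeval s P) : E[X]) ≠ 0 := by rwa [Ne, C_eq_zero]
    rw [h1]
    refine ⟨h.ne h3, ?_⟩
    dsimp only
    rw [hval _ h3, hunit _ h2]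
    rfl

theorem Rul.val_div (h : Rul E t) {p : E[X]} {v : DVal L}
    (hv : ∀ a : E[X], a ≠ 0 → v.v (aeval t a) = multiplicity p a) {a b : E[X]} (ha : a ≠ 0)
    (hb : b ≠ 0) : v.v (aeval t a / aeval t b) = (multiplicity p a : ℤ) - multiplicity p b := by
  rw [v.map_div (h.ne ha) (h.ne hb), hv a ha, hv b hb]

theorem mult_C {p : E[X]} (hp : Irreducible p) {e : E} (he : e ≠ 0) :
    multiplicity p (C e : E[X]) = 0 := by
  apply mult_eq_zero
  intro hd
  exact hp.not_isUnit (isUnit_of_dvd_unit hd (isUnit_C.2 (IsUnit.mk0 e he)))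

theorem Rul.resTr (h : Rul E t) {p : E[X]} (hp : Irreducible p) {v : DVal L}
    (hv : ∀ a : E[X], a ≠ 0 → v.v (aeval t a) = multiplicity p a) {s : E}
    (hs : Transcendental ℂ s) : ResTr v.v (algebraMap E L s) := by
  intro P hP
  have h1 : aeval (algebraMap E L s) P = aeval t (C (aeval s P)) := by
    rw [aeval_C, aeval_algebraMap_apply]
  have h2 : aeval s P ≠ 0 := fun h0 => hs ⟨P, hP, h0⟩
  have h3 : (C (aeval s P) : E[X]) ≠ 0 := by rwa [Ne, C_eq_zero]
  rw [h1]
  exact ⟨h.ne h3, by rw [hv _ h3, mult_C hp h2]; rfl⟩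

theorem Rul.horiz (h : Rul E t) {p : E[X]} (hp : Irreducible p) {v : DVal L}
    (hv : ∀ a : E[X], a ≠ 0 → v.v (aeval t a) = multiplicity p a) {e : E} (he : e ≠ 0) :
    v.v (algebraMap E L e) = 0 := by
  have h1 : algebraMap E L e = aeval t (C e) := by rw [aeval_C]
  rw [h1, hv _ (by rwa [Ne, C_eq_zero]), mult_C hp he]
  rfl

/-- Integral elements at the place of `p`. -/
theorem Rul.int_iff (h : Rul E t) {p : E[X]} (hp : Irreducible p) {v : DVal L}
    (hv : ∀ a : E[X], a ≠ 0 → v.v (aeval t a) = multiplicity p a) (z : L) (hz : v.Int z) :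
    ∃ a b : E[X], ¬ p ∣ b ∧ z = aeval t a / aeval t b ∧ (v.Pos z → p ∣ a) := by
  obtain ⟨a, b, hb, rfl⟩ := h.gen z
  by_cases ha : a = 0
  · refine ⟨0, 1, fun hd => hp.not_isUnit (isUnit_of_dvd_one hd), by rw [ha]; simp, fun _ =>
      dvd_zero _⟩
  have hza : aeval t a / aeval t b ≠ 0 := div_ne_zero (h.ne ha) (h.ne hb)
  have h1 := hz.resolve_left hza
  rw [h.val_div hv ha hb] at h1
  obtain ⟨a', ha'⟩ := pow_multiplicity_dvd p a
  obtain ⟨b', hb'⟩ := pow_multiplicity_dvd p b
  have hfb := FiniteMultiplicity.of_prime_left hp.prime hb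
  have hpb' : ¬ p ∣ b' := by
    intro hd
    obtain ⟨c, hc⟩ := hd
    have : p ^ (multiplicity p b + 1) ∣ b := by
      refine ⟨c, ?_⟩
      rw [pow_succ, mul_assoc, ← hc, ← hb']
    exact hfb.not_pow_dvd_of_multiplicity_lt (Nat.lt_succ_self _) this
  obtain ⟨m, hm⟩ : ∃ m, multiplicity p a = multiplicity p b + m :=
    ⟨multiplicity p a - multiplicity p b, by omega⟩
  refine ⟨p ^ m * a', b', hpb', ?_, ?_⟩
  · have hpt := h.ne hp.ne_zero
    have hbt : aeval t b' ≠ 0 := by
      apply h.ne
      rintro rfl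
      exact hpb' (dvd_zero _)
    conv_lhs => rw [ha', hb']
    rw [hm, map_mul, map_mul, map_mul, map_pow, map_pow, map_pow, pow_add]
    field_simp
  · intro hpos
    have h2 := hpos.resolve_left hza
    rw [h.val_div hv ha hb] at h2
    have : m ≠ 0 := by
      rintro rfl
      omega
    exact (dvd_pow_self p this).mul_right _

/-- The bracket with an element of the base. -/
theorem br_aeval26 (ω : Bracket L) (s : L) (hbr : ∀ e : E, ω.br s (algebraMap E L e) = 0) (a : E[X]) :
    ω.br s (aeval t a) = aeval t (derivative a) * ω.br s t := by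
  have hpow : ∀ n : ℕ, ω.br s (t ^ n) = n * t ^ (n - 1) * ω.br s t := by
    intro n
    rw [ω.skew, ω.pow_left, ω.skew s t]
    ring
  induction a using Polynomial.induction_on' with
  | add p q hp hq => rw [map_add, ω.add_right, hp, hq, derivative_add, map_add]; ring
  | monomial n c =>
    rw [aeval_monomial, ω.mul_right, hbr, mul_zero, add_zero, hpow, derivative_monomial,
      aeval_monomial, map_mul, map_natCast]
    ring

/-- The weight of the place of `p`. -/
theorem Rul.wt [CharZero E] (h : Rul E t) {p : E[X]} (hp : Irreducible p) {v : DVal L}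
    (hv : ∀ a : E[X], a ≠ 0 → v.v (aeval t a) = multiplicity p a) {s : E}
    (hs : Transcendental ℂ s) (ω : Bracket L)
    (hbr : ∀ e : E, ω.br (algebraMap E L s) (algebraMap E L e) = 0)
    (hne : ω.br (algebraMap E L s) t ≠ 0) :
    ω.Wt v (- v.v (ω.br (algebraMap E L s) t)) := by
  have hd0 : derivative p ≠ 0 := by
    intro h0
    have h1 := eq_C_of_natDegree_eq_zero (derivative_eq_zero.1 h0)
    have h2 : p.coeff 0 ≠ 0 := by
      intro h2
      apply hp.ne_zero
      rw [h1, h2, C_0]
    apply hp.not_isUnit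
    rw [h1]
    exact isUnit_C.2 (IsUnit.mk0 _ h2)
  have hnd : ¬ p ∣ derivative p := by
    intro hd
    have h1 := degree_le_of_dvd hd hd0
    exact absurd h1 (not_le_of_gt (degree_derivative_lt hp.ne_zero))
  have h2 := br_aeval26 (t := t) ω (algebraMap E L s) hbr p
  have h3 : v.v (aeval t (derivative p)) = 0 := by
    rw [hv _ hd0, mult_eq_zero hnd]; rfl
  refine ⟨algebraMap E L s, aeval t p, h.resTr hp hv hs, h.ne hp.ne_zero, ?_, ?_, ?_⟩
  · rw [hv _ hp.ne_zero, multiplicity_self]; rfl
  · rw [h2]; exact mul_ne_zero (h.ne hd0) hne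
  · rw [h2, v.map_mul _ _ (h.ne hd0) hne, h3]; ring

end

end LCY
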