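import Mathlib
import Pool.Agent.Helper26.LC.Rul
import Pool.Agent.Helper26.LC.RegG

/-!
Base elements of a ruling and the bracket; values of rational functions.
-/

open Polynomial

namespace LCY

noncomputable section

variable {L : Type} [Field L] [Algebra ℂ L]

theorem ev_eq_aevalAeval {F : Type} [Field F] [Algebra ℂ F] (x y : F) (P : ℂ[X][X]) :
    ev x y P = aevalAeval x y P := by
  rw [DVal.aevalAeval_eq26, ev_apply, eval₂_eq_eval_map]

theorem algebraicIndependent_of_ev {F : Type} [Field F] [Algebra ℂ F] {x y : F}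
    (h : ∀ P : ℂ[X][X], ev x y P = 0 → P = 0) : AlgebraicIndependent ℂ ![x, y] := by
  have hcomp : ∀ P : ℂ[X][X], MvPolynomial.aeval ![x, y]
      (Bivariate.equivMvPolynomial ℂ P) = aevalAeval x y P := by
    intro P
    have : ((MvPolynomial.aeval ![x, y]).comp
        (Bivariate.equivMvPolynomial ℂ : ℂ[X][X] →ₐ[ℂ] MvPolynomial (Fin 2) ℂ)) =
        aevalAeval x y := by
      apply algHom_ext'
      · ext; simp
      · simp
    exact congrArg (fun φ : ℂ[X][X] →ₐ[ℂ] F => φ P) this
  rw [algebraicIndependent_iff]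
  intro Q hQ
  have h1 := h ((Bivariate.equivMvPolynomial ℂ).symm Q) (by
    rw [ev_eq_aevalAeval, ← hcomp, AlgEquiv.apply_symm_apply, hQ])
  have h2 := congrArg (Bivariate.equivMvPolynomial ℂ) h1
  rwa [AlgEquiv.apply_symm_apply, map_zero] at h2

theorem exists_ev_zero {F : Type} [Field F] [Algebra ℂ F] (hF : Algebra.trdeg ℂ F = 1) (x y : F) :
    ∃ P : ℂ[X][X], P ≠ 0 ∧ ev x y P = 0 := by
  by_contra hc
  push Not at hc
  have h1 : AlgebraicIndependent ℂ ![x, y] := algebraicIndependent_of_ev fun P hP => by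
    by_contra h
    exact hc P h hP
  have h2 := h1.cardinalMk_le_trdeg
  rw [hF] at h2
  simp at h2

theorem br_ev (ω : Bracket L) (x y : L) (P : ℂ[X][X]) :
    ω.br x (ev x y P) = ev x y (derivative P) * ω.br x y := by
  have hpow : ∀ (u w : L) (n : ℕ), ω.br u (w ^ n) = n * w ^ (n - 1) * ω.br u w := by
    intro u w n
    rw [ω.skew, ω.pow_left, ω.skew u w]
    ring
  have hc : ∀ c : ℂ[X], ω.br x (aeval x c) = 0 := by
    intro c
    induction c using Polynomial.induction_on' with
    | add p q hp hq => rw [map_add, ω.add_right, hp, hq, add_zero]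
    | monomial n c =>
      rw [aeval_monomial, ω.mul_right, ω.const_right, hpow, ω.alt]
      ring
  induction P using Polynomial.induction_on' with
  | add p q hp hq => rw [map_add, ω.add_right, hp, hq, derivative_add, map_add]; ring
  | monomial n c =>
    rw [← C_mul_X_pow_eq_monomial, map_mul, ev_C, map_pow, ev_X, ω.mul_right, hc, hpow,
      derivative_C_mul_X_pow, map_mul, map_pow, ev_X, ev_C, map_mul, map_natCast]
    ring

/-- Elements of a field of transcendence degree one have bracket zero. -/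
theorem br_eq_zero {E : Type} [Field E] [Algebra ℂ E] [Algebra E L] [IsScalarTower ℂ E L]
    (hE : Algebra.trdeg ℂ E = 1) (ω : Bracket L) {s : E} (hs : Transcendental ℂ s) (e : E) :
    ω.br (algebraMap E L s) (algebraMap E L e) = 0 := by
  classical
  have hex : ∃ n, ∃ P : ℂ[X][X], P ≠ 0 ∧ P.natDegree = n ∧ ev s e P = 0 := by
    obtain ⟨P, hP, hPe⟩ := exists_ev_zero hE s e
    exact ⟨_, P, hP, rfl, hPe⟩
  obtain ⟨P, hP, hdeg, hPe⟩ := Nat.find_spec hex
  have hmin := fun m hm => Nat.find_min hex (m := m) hm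
  have hpos : 0 < P.natDegree := by
    rw [Nat.pos_iff_ne_zero]
    intro h0
    obtain ⟨c, rfl⟩ := natDegree_eq_zero.1 h0
    rw [ev_C] at hPe
    exact hs ⟨c, fun h => hP (by rw [h, C_0]), hPe⟩
  have hd0 : derivative P ≠ 0 := by
    intro h0
    have := derivative_eq_zero.1 h0
    omega
  have hd : ev s e (derivative P) ≠ 0 := by
    intro h0
    refine hmin (derivative P).natDegree ?_ ⟨_, hd0, rfl, h0⟩
    rw [← hdeg]
    exact natDegree_derivative_lt hpos.ne'
  have hmap : ∀ Q : ℂ[X][X], ev (algebraMap E L s) (algebraMap E L e) Q =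
      algebraMap E L (ev s e Q) := by
    intro Q
    induction Q using Polynomial.induction_on' with
    | add p q hp hq => rw [map_add, map_add, hp, hq, map_add]
    | monomial n c =>
      rw [← C_mul_X_pow_eq_monomial, map_mul, map_pow, ev_C, ev_X, map_mul, map_pow, ev_C, ev_X,
        map_mul, map_pow, aeval_algebraMap_apply]
  have h1 := br_ev ω (algebraMap E L s) (algebraMap E L e) P
  rw [hmap, hPe, map_zero, ω.zero_right, hmap] at h1
  rcases mul_eq_zero.1 h1.symm with h2 | h2
  · rw [map_eq_zero] at h2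
    exact absurd h2 hd
  · exact h2

theorem Rul.indep {E : Type} [Field E] [Algebra ℂ E] [Algebra E L] [IsScalarTower ℂ E L] {t : L}
    (h : Rul E t) {s : E} (hs : Transcendental ℂ s) :
    AlgebraicIndependent ℂ ![algebraMap E L s, t] := by
  apply algebraicIndependent_of_ev
  intro P hP
  have h1 : aeval t (P.map (aeval s : ℂ[X] →ₐ[ℂ] E).toRingHom) = 0 := by
    rw [← hP, ev_apply, aeval_def, eval₂_map]
    congr 1
    refine RingHom.ext fun c => ?_
    show algebraMap E L (aeval s c) = aeval (algebraMap E L s) c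
    rw [aeval_algebraMap_apply]
  have h2 := h.tr _ h1
  rw [Polynomial.map_eq_zero_iff] at h2
  · exact h2
  · intro a b hab
    have h3 : aeval s (a - b) = 0 := by
      rw [map_sub, sub_eq_zero]
      exact hab
    by_contra hne
    exact hs ⟨a - b, sub_ne_zero.2 hne, h3⟩

/-! ### Values of rational functions -/

section ValAt

variable {K : Type} [Field K] {c : K}

theorem RatFunc_div_eq {a b a' b' : K[X]} (hb : b ≠ 0) (hb' : b' ≠ 0)
    (h : algebraMap K[X] (RatFunc K) a / algebraMap K[X] (RatFunc K) b =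
      algebraMap K[X] (RatFunc K) a' / algebraMap K[X] (RatFunc K) b') : a * b' = a' * b := by
  have h1 : algebraMap K[X] (RatFunc K) b ≠ 0 := by
    rwa [Ne, FaithfulSMul.algebraMap_eq_zero_iff]
  have h2 : algebraMap K[X] (RatFunc K) b' ≠ 0 := by
    rwa [Ne, FaithfulSMul.algebraMap_eq_zero_iff]
  rw [div_eq_div_iff h1 h2, ← map_mul, ← map_mul] at h
  exact FaithfulSMul.algebraMap_injective _ _ h

theorem ne_zero_of_eval {b : K[X]} (h : b.eval c ≠ 0) : b ≠ 0 := by
  rintro rfl
  simp at h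

theorem ValAt.unique {r : RatFunc K} {ξ η : K} (h : ValAt c r ξ) (h' : ValAt c r η) : ξ = η := by
  obtain ⟨a, b, hb, hab, rfl⟩ := h
  obtain ⟨a', b', hb', hab', he⟩ := h'
  have h1 := RatFunc_div_eq (ne_zero_of_eval hb) (ne_zero_of_eval hb') he
  have h2 := congrArg (eval c) h1
  rw [eval_mul, eval_mul, hab, hab'] at h2
  have h3 : (ξ - η) * (b.eval c * b'.eval c) = 0 := by linear_combination h2
  rcases mul_eq_zero.1 h3 with h4 | h4
  · exact sub_eq_zero.1 h4
  · exact absurd h4 (mul_ne_zero hb hb')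

theorem ValAt.add {r r' : RatFunc K} {ξ η : K} (h : ValAt c r ξ) (h' : ValAt c r' η) :
    ValAt c (r + r') (ξ + η) := by
  obtain ⟨a, b, hb, hab, rfl⟩ := h
  obtain ⟨a', b', hb', hab', rfl⟩ := h'
  refine ⟨a * b' + b * a', b * b', ?_, ?_, ?_⟩
  · rw [eval_mul]; exact mul_ne_zero hb hb'
  · rw [eval_add, eval_mul, eval_mul, eval_mul, hab, hab']; ring
  · have h1 : algebraMap K[X] (RatFunc K) b ≠ 0 := by
      rw [Ne, FaithfulSMul.algebraMap_eq_zero_iff]; exact ne_zero_of_eval hb
    have h2 : algebraMap K[X] (RatFunc K) b' ≠ 0 := by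
      rw [Ne, FaithfulSMul.algebraMap_eq_zero_iff]; exact ne_zero_of_eval hb'
    rw [div_add_div _ _ h1 h2, map_add, map_mul, map_mul, map_mul]

theorem ValAt.mul {r r' : RatFunc K} {ξ η : K} (h : ValAt c r ξ) (h' : ValAt c r' η) :
    ValAt c (r * r') (ξ * η) := by
  obtain ⟨a, b, hb, hab, rfl⟩ := h
  obtain ⟨a', b', hb', hab', rfl⟩ := h'
  refine ⟨a * a', b * b', ?_, ?_, ?_⟩
  · rw [eval_mul]; exact mul_ne_zero hb hb'
  · rw [eval_mul, eval_mul, hab, hab']; ring
  · rw [div_mul_div_comm, map_mul, map_mul]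

theorem ValAt.const (e : K) : ValAt c (algebraMap K[X] (RatFunc K) (C e)) e :=
  ⟨C e, 1, by simp, by simp, by simp⟩

theorem ValAt.inv {r : RatFunc K} {ξ : K} (h : ValAt c r ξ) (hξ : ξ ≠ 0) : ValAt c r⁻¹ ξ⁻¹ := by
  obtain ⟨a, b, hb, hab, rfl⟩ := h
  refine ⟨b, a, ?_, ?_, ?_⟩
  · rw [hab]; exact mul_ne_zero hξ hb
  · rw [hab]; field_simp
  · rw [inv_div]

theorem ValAt.div {r r' : RatFunc K} {ξ η : K} (h : ValAt c r ξ) (h' : ValAt c r' η)
    (hη : η ≠ 0) : ValAt c (r / r') (ξ / η) := by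
  rw [div_eq_mul_inv, div_eq_mul_inv]
  exact h.mul (h'.inv hη)

theorem ValAt.pow {r : RatFunc K} {ξ : K} (h : ValAt c r ξ) (n : ℕ) : ValAt c (r ^ n) (ξ ^ n) := by
  induction n with
  | zero => rw [pow_zero, pow_zero]; simpa using ValAt.const (c := c) (1 : K)
  | succ n ih => rw [pow_succ, pow_succ]; exact ih.mul h

theorem ValAt.regAt {r : RatFunc K} {ξ : K} (h : ValAt c r ξ) : RegAtT (X - C c) r := by
  obtain ⟨a, b, hb, hab, rfl⟩ := h
  refine ⟨a, b, ?_, rfl⟩
  rw [dvd_iff_isRoot]
  exact hb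

theorem RegAtT.exists_val {r : RatFunc K} (h : RegAtT (X - C c) r) : ∃ ξ, ValAt c r ξ := by
  obtain ⟨a, b, hb, rfl⟩ := h
  rw [dvd_iff_isRoot] at hb
  refine ⟨a.eval c / b.eval c, a, b, hb, ?_, rfl⟩
  have : b.eval c ≠ 0 := hb
  field_simp

/-- The value of a polynomial with coefficients in a subfield. -/
theorem ValAt.aeval {E : Type} [Field E] [Algebra E K] {r : RatFunc K} {ξ : K} (h : ValAt c r ξ)
    (A : E[X]) : ValAt c (A.eval₂ ((algebraMap K[X] (RatFunc K)).comp (C.comp (algebraMap E K))) r)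
      (Polynomial.aeval ξ A) := by
  induction A using Polynomial.induction_on' with
  | add p q hp hq => rw [eval₂_add, map_add]; exact hp.add hq
  | monomial n e =>
    rw [eval₂_monomial, aeval_monomial]
    exact (ValAt.const _).mul (h.pow n)

/-- The criterion for the centre. -/
theorem int_iff_regAt {v : DVal L} {K : Type} [Field K] [Algebra ℂ K] {c : K}
    (i : L →ₐ[ℂ] RatFunc K) (h1 : ∀ z, v.Int z → RegAtT (X - C c) (i z))
    (h2 : ∀ z, v.Pos z → ValAt c (i z) 0) (z : L) : v.Int z ↔ RegAtT (X - C c) (i z) := by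
  refine ⟨h1 z, fun h => ?_⟩
  by_contra hn
  have hz : z ≠ 0 := fun h0 => hn (Or.inl h0)
  have hneg : v.v z < 0 := by
    by_contra h'
    exact hn (Or.inr (not_lt.1 h'))
  have hpos : v.Pos z⁻¹ := Or.inr (by rw [v.map_inv hz]; omega)
  obtain ⟨ξ, hξ⟩ := h.exists_val
  have h3 := hξ.mul (h2 _ hpos)
  rw [← map_mul, mul_inv_cancel₀ hz, map_one, mul_zero] at h3
  have h4 : ValAt c (1 : RatFunc K) 1 := by simpa using ValAt.const (c := c) (1 : K)
  exact zero_ne_one (h3.unique h4)

/-- Regularity at associated irreducible polynomials. -/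
theorem regAtT_assoc {P P' : K[X]} (h : Associated P P') (r : RatFunc K) :
    RegAtT P r ↔ RegAtT P' r := by
  unfold RegAtT
  simp only [h.dvd_iff_dvd_left]

end ValAt

end

end LCY
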