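import Mathlib
import Pool.Agent.Helper26.LC.Rul2

/-!
Conic bundles.
-/

open Polynomial

namespace LCY

noncomputable section

variable {E L : Type} [Field E] [Field L] [Algebra ℂ E] [Algebra ℂ L] [Algebra E L]
  [IsScalarTower ℂ E L] {t : L}

/-- Homomorphisms out of a rational function field. -/
theorem Rul.lift (h : Rul E t) {F : Type} [Field F] [Algebra ℂ F] [Algebra E F]
    [IsScalarTower ℂ E F] {M : F} (hM : ∀ a : E[X], aeval M a = 0 → a = 0) :
    ∃ i : L →ₐ[ℂ] F, ∀ a : E[X], i (aeval t a) = aeval M a := by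
  letI : Algebra E[X] L := (aeval t : E[X] →ₐ[E] L).toRingHom.toAlgebra
  have hmap : ∀ a : E[X], algebraMap E[X] L a = aeval t a := fun a => rfl
  haveI : IsFractionRing E[X] L := by
    constructor
    constructor
    · intro a
      rw [hmap]
      exact IsUnit.mk0 _ (h.ne (nonZeroDivisors.ne_zero a.2))
    · intro z
      obtain ⟨a, b, hb, hz⟩ := h.gen z
      refine ⟨⟨a, ⟨b, mem_nonZeroDivisors_of_ne_zero hb⟩⟩, ?_⟩
      rw [hmap, hmap, hz]
      exact div_mul_cancel₀ _ (h.ne hb)
    · intro a b hab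
      refine ⟨1, ?_⟩
      rw [hmap, hmap, ← sub_eq_zero, ← map_sub] at hab
      rw [sub_eq_zero.1 (h.tr _ hab)]
  have hinj : Function.Injective (aeval M : E[X] →ₐ[E] F).toRingHom := by
    rw [injective_iff_map_eq_zero]
    exact hM
  let j : L →+* F := IsFractionRing.lift hinj
  have hj : ∀ a : E[X], j (aeval t a) = aeval M a := by
    intro a
    exact IsFractionRing.lift_algebraMap hinj a
  refine ⟨{ j with commutes' := ?_ }, hj⟩
  intro c
  have h1 := hj (C (algebraMap ℂ E c))
  rw [aeval_C, aeval_C, ← IsScalarTower.algebraMap_apply, ← IsScalarTower.algebraMap_apply] at h1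
  exact h1

end

end LCY
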