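import Mathlib
import Pool.Agent.Helper26.LC.CB

/-!
Conic bundles: places over points of the algebraic closure of the base, and the place at infinity.
-/

open Polynomial

namespace LCY

noncomputable section

variable {E L : Type} [Field E] [Field L] [Algebra ℂ E] [Algebra ℂ L] [Algebra E L]
  [IsScalarTower ℂ E L] {t : L}

theorem aeval_inv_reverse (ht : t ≠ 0) (a : E[X]) :
    aeval t a = t ^ a.natDegree * aeval t⁻¹ a.reverse := by
  letI : Invertible t := invertibleOfNonzero ht
  have h1 := eval₂_reverse_mul_pow (algebraMap E L) t a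
  rw [invOf_eq_inv] at h1
  rw [aeval_def, aeval_def, ← h1]
  ring

theorem Rul.inv (h : Rul E t) : Rul E t⁻¹ := by
  have ht := h.t_ne
  constructor
  · intro a ha
    have h1 := aeval_inv_reverse (E := E) (inv_ne_zero ht) a
    rw [ha, inv_inv] at h1
    have h2 : aeval t a.reverse = 0 := by
      rcases mul_eq_zero.1 h1.symm with h3 | h3
      · exact absurd h3 (pow_ne_zero _ (inv_ne_zero ht))
      · exact h3
    exact reverse_eq_zero.1 (h.tr _ h2)
  · intro z
    obtain ⟨a, b, hb, hz⟩ := h.gen z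
    have hb' : b.reverse ≠ 0 := fun h0 => hb (reverse_eq_zero.1 h0)
    refine ⟨a.reverse * X ^ b.natDegree, b.reverse * X ^ a.natDegree,
      mul_ne_zero hb' (pow_ne_zero _ X_ne_zero), ?_⟩
    rw [hz, aeval_inv_reverse ht a, aeval_inv_reverse ht b, map_mul, map_mul, map_pow, map_pow,
      aeval_X, inv_pow, inv_pow]
    have h1 : aeval t⁻¹ b.reverse ≠ 0 := by
      intro h0
      have h2 := aeval_inv_reverse (E := E) ht b
      rw [h0, mul_zero] at h2
      exact hb (h.tr _ h2)
    field_simp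

theorem Rul.val_inf (h : Rul E t) {v : DVal L}
    (hv : ∀ a : E[X], a ≠ 0 → v.v (aeval t⁻¹ a) = multiplicity X a) {a : E[X]} (ha : a ≠ 0) :
    v.v (aeval t a) = - a.natDegree := by
  have ht := h.t_ne
  have h1 : v.v t⁻¹ = 1 := by
    have := hv X X_ne_zero
    rw [aeval_X, multiplicity_self] at this
    rw [this]; rfl
  have h2 : v.v t = -1 := by
    rw [v.map_inv ht] at h1
    omega
  have ha' : a.reverse ≠ 0 := fun h0 => ha (reverse_eq_zero.1 h0)
  have h3 : v.v (aeval t⁻¹ a.reverse) = 0 := by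
    rw [hv _ ha', mult_eq_zero]
    · rfl
    · rw [X_dvd_iff, coeff_zero_reverse]
      exact leadingCoeff_ne_zero.2 ha
  rw [aeval_inv_reverse ht a, v.map_mul _ _ (pow_ne_zero _ ht) (h.inv.ne ha'), v.map_pow ht, h2, h3]
  ring

/-- The centre of a family at a point of the fibre over the algebraic closure. -/
theorem Rul.centre (h : Rul E t) {K : Type} [Field K] [Algebra ℂ K] [Algebra E K]
    [Algebra.IsAlgebraic E K] (i : L →ₐ[ℂ] RatFunc K) (M : RatFunc K)
    (hi : ∀ a : E[X], i (aeval t a) =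
      a.eval₂ ((algebraMap K[X] (RatFunc K)).comp (C.comp (algebraMap E K))) M)
    {c θ : K} (hM : ValAt c M θ) {v : DVal L}
    (hv : ∀ a : E[X], a ≠ 0 → v.v (aeval t a) = multiplicity (minpoly E θ) a) (z : L) :
    v.Int z ↔ RegAtT (X - C c) (i z) := by
  have hint : IsIntegral E θ := (Algebra.IsAlgebraic.isAlgebraic θ).isIntegral
  have hp : Irreducible (minpoly E θ) := minpoly.irreducible hint
  have key : ∀ a b : E[X], ¬ minpoly E θ ∣ b →
      ValAt c (i (aeval t a / aeval t b)) (aeval θ a / aeval θ b) := by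
    intro a b hb
    rw [map_div₀, hi, hi]
    refine (hM.aeval a).div (hM.aeval b) ?_
    intro h0
    exact hb (minpoly.dvd E θ h0)
  apply int_iff_regAt i
  · intro z hz
    obtain ⟨a, b, hb, rfl, -⟩ := h.int_iff hp hv z hz
    exact (key a b hb).regAt
  · intro z hz
    obtain ⟨a, b, hb, rfl, hpa⟩ := h.int_iff hp hv z hz.int
    have h1 := key a b hb
    obtain ⟨q, hq⟩ := hpa hz
    have h2 : aeval θ a = 0 := by
      rw [hq, map_mul, minpoly.aeval, zero_mul]
    rwa [h2, zero_div] at h1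

/-- The form of a bracket with prescribed weights at all horizontal places. -/
theorem exists_poly (h : Rul E t) {g : L} (hg : g ≠ 0)
    (hint : ∀ p : E[X], Irreducible p → ∀ v : DVal L,
      (∀ a : E[X], a ≠ 0 → v.v (aeval t a) = multiplicity p a) → 0 ≤ v.v g) {s : E}
    (hs : Transcendental ℂ s) : ∃ G : E[X], G ≠ 0 ∧ g = aeval t G := by
  classical
  have hex : ∃ n, ∃ a b : E[X], b ≠ 0 ∧ b.natDegree = n ∧ g = aeval t a / aeval t b := by
    obtain ⟨a, b, hb, hab⟩ := h.gen g
    exact ⟨_, a, b, hb, rfl, hab⟩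
  obtain ⟨a, b, hb, hdeg, hab⟩ := Nat.find_spec hex
  have hmin := fun m hm => Nat.find_min hex (m := m) hm
  have ha : a ≠ 0 := by
    rintro rfl
    rw [map_zero, zero_div] at hab
    exact hg hab
  by_cases hbu : IsUnit b
  · obtain ⟨e, he, rfl⟩ := isUnit_iff.1 hbu
    refine ⟨C (e⁻¹) * a, mul_ne_zero (by
      rw [Ne, C_eq_zero]; exact inv_ne_zero he.ne_zero) ha, ?_⟩
    rw [hab, map_mul, aeval_C, aeval_C, map_inv₀, div_eq_mul_inv]
    ring
  · exfalso
    obtain ⟨p, hp, b', rfl⟩ := WfDvdMonoid.exists_irreducible_factor hbu hb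
    obtain ⟨v, hv⟩ := h.exists_dval hp hs
    have h1 := hint p hp v hv
    have hb'0 : b' ≠ 0 := right_ne_zero_of_mul hb
    rw [hab, h.val_div hv ha hb, mult_mul hp hp.ne_zero hb'0, multiplicity_self] at h1
    have h2 : p ∣ a := by
      by_contra hpa
      rw [mult_eq_zero hpa] at h1
      push_cast at h1
      omega
    obtain ⟨a', rfl⟩ := h2
    refine hmin b'.natDegree ?_ ⟨a', b', hb'0, rfl, ?_⟩
    · rw [← hdeg, natDegree_mul hp.ne_zero hb'0]
      have := hp.natDegree_pos
      omega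
    · rw [hab, map_mul, map_mul, mul_div_mul_left _ _ (h.ne hp.ne_zero)]

end

end LCY
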