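import Mathlib
import Pool.Agent.Helper26.LC.CB2
import Pool.Agent.Helper27.LCY.BR6

/-!
Conic bundles: the theorem.
-/

open Polynomial

namespace LCY

noncomputable section

/-- Rational functions with infinitely many values. -/
theorem transc_of_values {K : Type} [Field K] {M : RatFunc K}
    (hinf : {θ : K | ∃ c, ValAt c M θ}.Infinite) :
    (∀ e : K, M ≠ RatFunc.C e) ∧ ∀ (E : Type) [Field E] [Algebra E K] (a : E[X]),
      a.eval₂ ((algebraMap K[X] (RatFunc K)).comp (C.comp (algebraMap E K))) M = 0 → a = 0 := by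
  constructor
  · rintro e rfl
    apply hinf
    refine (Set.finite_singleton e).subset ?_
    rintro θ ⟨c, hc⟩
    have h1 : ValAt c (RatFunc.C e) e := by
      have := ValAt.const (c := c) e
      rwa [RatFunc.algebraMap_C] at this
    exact hc.unique h1
  · intro E _ _ a ha
    have h1 : a.map (algebraMap E K) = 0 := by
      apply eq_zero_of_infinite_isRoot
      refine hinf.mono ?_
      rintro θ ⟨c, hc⟩
      have h2 := hc.aeval a
      rw [ha] at h2
      have h3 : ValAt c (0 : RatFunc K) 0 := by simpa using ValAt.const (c := c) (0 : K)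
      have h4 := h2.unique h3
      show eval θ (a.map (algebraMap E K)) = 0
      rw [eval_map_algebraMap]
      exact h4
    exact (Polynomial.map_eq_zero _).1 h1

variable {E L : Type} [Field E] [Field L] [Algebra ℂ E] [Algebra ℂ L] [Algebra E L]
  [IsScalarTower ℂ E L] {t : L}

/-- Families of fibres. `G` is the equation of the poles of the 2-form on the generic fibre. -/
theorem Rul.fam' {N : ℕ} (K : Type) [Field K] [Algebra ℂ K] [Algebra E K] [IsScalarTower ℂ E K]
    [IsAlgClosed K] [Algebra.IsAlgebraic E K] (h : Rul E t) {s : E} (hs : Transcendental ℂ s) (hE : Algebra.trdeg ℂ E = 1)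
    (hL : Algebra.trdeg ℂ L = 2) (ω : Bracket L) (x : Fin (N + 1) → L)
    (hyp : ∀ (v : DVal L) (k : ℤ), (∀ e : E, e ≠ 0 → v.v (algebraMap E L e) = 0) → ω.Wt v k →
      k = -1 ∨ (k = 0 ∧ ¬ Contracted x v)) : Fam ω x := by
  classical
  haveI : CharZero E := charZero_of_injective_algebraMap (algebraMap ℂ E).injective
  have hbr := br_eq_zero (L := L) hE ω hs
  have hg : ω.br (algebraMap E L s) t ≠ 0 := Bracket.ne_zero_of_indep hL ω (h.indep hs)
  -- weights
  have hw : ∀ p : E[X], Irreducible p → ∀ v : DVal L,
      (∀ a : E[X], a ≠ 0 → v.v (aeval t a) = multiplicity p a) →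
      v.v (ω.br (algebraMap E L s) t) = 1 ∨ (v.v (ω.br (algebraMap E L s) t) = 0 ∧
        ¬ Contracted x v ∧ ω.Wt v 0) := by
    intro p hp v hv
    have h1 := h.wt hp hv hs ω hbr hg
    rcases hyp v _ (fun e he => h.horiz hp hv he) h1 with h2 | ⟨h2, h3⟩
    · left; omega
    · right
      refine ⟨by omega, h3, ?_⟩
      rw [h2] at h1
      exact h1
  obtain ⟨G, hG0, hG⟩ := exists_poly h hg (fun p hp v hv => by
    rcases hw p hp v hv with h1 | h1 <;> omega) hs
  have hmul : ∀ p : E[X], Irreducible p → multiplicity p G ≤ 1 := by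
    intro p hp
    obtain ⟨v, hv⟩ := h.exists_dval hp hs
    have h1 := hw p hp v hv
    rw [hG, hv G hG0] at h1
    omega
  -- infinity
  have hginv : ω.br (algebraMap E L s) t⁻¹ ≠ 0 := Bracket.ne_zero_of_indep hL ω (h.inv.indep hs)
  obtain ⟨w, hwv⟩ := h.inv.exists_dval irreducible_X hs
  have hinf : (G.natDegree = 1 ∨ (G.natDegree = 2 ∧ ¬ Contracted x w ∧ ω.Wt w 0)) := by
    have h1 := h.inv.wt irreducible_X hwv hs ω hbr hginv
    have h2 : w.v (ω.br (algebraMap E L s) t⁻¹) = 2 - G.natDegree := by
      have ht := h.t_ne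
      have h3 : w.v t⁻¹ = 1 := by
        have := hwv X X_ne_zero
        rw [aeval_X, multiplicity_self] at this
        rw [this]; rfl
      rw [ω.inv_right ht, hG, w.map_neg (mul_ne_zero (mul_ne_zero (inv_ne_zero ht)
        (inv_ne_zero ht)) (h.ne hG0)), w.map_mul _ _ (mul_ne_zero (inv_ne_zero ht)
        (inv_ne_zero ht)) (h.ne hG0), w.map_mul _ _ (inv_ne_zero ht) (inv_ne_zero ht), h3,
        h.val_inf hwv hG0]
      ring
    rw [h2] at h1
    rcases hyp w _ (fun e he => h.inv.horiz irreducible_X hwv he) h1 with h4 | ⟨h4, h5⟩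
    · left; omega
    · right
      refine ⟨by omega, h5, ?_⟩
      rw [h4] at h1
      exact h1
  -- the algebraic closure
  have hkey : ∀ M : RatFunc K, (∀ a : E[X], a.eval₂ ((algebraMap K[X] (RatFunc K)).comp
      (C.comp (algebraMap E K))) M = 0 → a = 0) → (∀ e : K, M ≠ RatFunc.C e) →
      (∀ c : K, c ≠ 0 → (∃ θ, ValAt c M θ ∧ aeval θ G ≠ 0) ∨
        (ValAt c M⁻¹ 0 ∧ G.natDegree = 2)) → Fam ω x := by
    intro M hM hMc hcen
    have halg : algebraMap E (RatFunc K) =
        (algebraMap K[X] (RatFunc K)).comp (C.comp (algebraMap E K)) := by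
      refine RingHom.ext fun e => ?_
      rw [IsScalarTower.algebraMap_apply E K[X] (RatFunc K), Polynomial.algebraMap_apply]
      rfl
    have htower : IsScalarTower ℂ E (RatFunc K) := by
      refine IsScalarTower.of_algebraMap_eq fun z => ?_
      rw [halg, IsScalarTower.algebraMap_apply ℂ K[X] (RatFunc K), Polynomial.algebraMap_apply,
        IsScalarTower.algebraMap_apply ℂ E K]
      rfl
    obtain ⟨i, hi'⟩ := h.lift (F := RatFunc K) (M := M) (fun a ha => hM a (by
      rw [aeval_def, halg] at ha
      exact ha))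
    have hi : ∀ a : E[X], i (aeval t a) = a.eval₂ ((algebraMap K[X] (RatFunc K)).comp
        (C.comp (algebraMap E K))) M := by
      intro a
      rw [hi', aeval_def, halg]
    refine ⟨K, inferInstance, inferInstance, i, ⟨t, ?_⟩, ?_⟩
    · intro e
      have h1 := hi X
      rw [aeval_X, eval₂_X] at h1
      rw [h1]
      exact hMc e
    · intro P hP hPX
      obtain ⟨c, hc⟩ := IsAlgClosed.exists_root P (degree_pos_of_irreducible hP).ne'
      have hassoc : Associated (X - C c) P :=
        (irreducible_X_sub_C c).associated_of_dvd hP (dvd_iff_isRoot.2 hc)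
      have hc0 : c ≠ 0 := by
        rintro rfl
        apply hPX
        rw [C_0, sub_zero] at hassoc
        exact hassoc.symm.dvd
      rcases hcen c hc0 with ⟨θ, hθ, hGθ⟩ | ⟨hθ, hdeg⟩
      · right
        have hint : IsIntegral E θ := (Algebra.IsAlgebraic.isAlgebraic θ).isIntegral
        have hp : Irreducible (minpoly E θ) := minpoly.irreducible hint
        obtain ⟨v, hv⟩ := h.exists_dval hp hs
        have hv0 : v.v (ω.br (algebraMap E L s) t) = 0 := by
          rw [hG, hv G hG0, mult_eq_zero]
          · rfl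
          · rintro ⟨q, hq⟩
            apply hGθ
            rw [hq, map_mul, minpoly.aeval, zero_mul]
        rcases hw _ hp v hv with h1 | ⟨-, h2, h3⟩
        · omega
        · refine ⟨v, h2, h3, fun z => ?_⟩
          rw [h.centre i M hi hθ hv z]
          exact regAtT_assoc hassoc _
      · right
        rcases hinf with h1 | ⟨-, h2, h3⟩
        · omega
        · refine ⟨w, h2, h3, fun z => ?_⟩
          have hi2 : ∀ a : E[X], i (aeval t⁻¹ a) = a.eval₂ ((algebraMap K[X] (RatFunc K)).comp
              (C.comp (algebraMap E K))) M⁻¹ := by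
            intro a
            have ht' : i t⁻¹ = M⁻¹ := by
              have h1 := hi X
              rw [aeval_X, eval₂_X] at h1
              rw [map_inv₀, h1]
            have h4 : ∀ e : E, i (algebraMap E L e) = ((algebraMap K[X] (RatFunc K)).comp
                (C.comp (algebraMap E K))) e := by
              intro e
              have h1 := hi (C e)
              rwa [aeval_C, eval₂_C] at h1
            have h5 := hom_eval₂ a (algebraMap E L) (i : L →+* RatFunc K) t⁻¹
            have h6 : (i : L →+* RatFunc K).comp (algebraMap E L) =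
              (algebraMap K[X] (RatFunc K)).comp (C.comp (algebraMap E K)) := RingHom.ext h4
            rw [h6] at h5
            rw [← ht']
            exact h5
          have hv' : ∀ a : E[X], a ≠ 0 → w.v (aeval t⁻¹ a) = multiplicity (minpoly E (0 : K)) a := by
            intro a ha
            rw [hwv a ha, minpoly.zero]
          rw [h.inv.centre i M⁻¹ hi2 hθ hv' z]
          exact regAtT_assoc hassoc _
  have hGK : (G.map (algebraMap E K)) ≠ 0 := by rwa [Ne, Polynomial.map_eq_zero]
  have hev : ∀ θ : K, aeval θ G = eval θ (G.map (algebraMap E K)) := fun θ => by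
    rw [eval_map_algebraMap]
  have hdegK : (G.map (algebraMap E K)).natDegree = G.natDegree :=
    natDegree_map_eq_of_injective (algebraMap E K).injective G
  obtain ⟨α, hα⟩ := IsAlgClosed.exists_root (G.map (algebraMap E K)) (by
    intro h0
    have := natDegree_eq_zero_iff_degree_le_zero.2 h0.le
    rw [hdegK] at this
    rcases hinf with h1 | ⟨h1, -⟩ <;> omega)
  obtain ⟨H, hH⟩ := dvd_iff_isRoot.2 hα
  have hH0 : H ≠ 0 := by
    rintro rfl
    rw [mul_zero] at hH
    exact hGK hH
  have hdegH : G.natDegree = 1 + H.natDegree := by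
    rw [← hdegK, hH, natDegree_mul (X_sub_C_ne_zero α) hH0, natDegree_X_sub_C]
  rcases hinf with h1 | ⟨h1, -, -⟩
  · -- one pole at infinity
    obtain ⟨l, rfl⟩ := natDegree_eq_zero.1 (show H.natDegree = 0 by omega)
    have hl : l ≠ 0 := fun h0 => hH0 (by rw [h0, C_0])
    have hval : ∀ c : K, ValAt c (algebraMap K[X] (RatFunc K) (X + C α)) (c + α) := by
      intro c
      exact ⟨X + C α, 1, by simp, by simp, by simp⟩
    obtain ⟨h2, h3⟩ := transc_of_values (M := algebraMap K[X] (RatFunc K) (X + C α)) (by
      refine (Set.infinite_univ (α := K)).mono ?_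
      intro θ _
      refine ⟨θ - α, ?_⟩
      have := hval (θ - α)
      rwa [sub_add_cancel] at this)
    refine hkey _ (h3 E) h2 fun c hc => Or.inl ⟨_, hval c, ?_⟩
    rw [hev, hH, eval_mul, eval_sub, eval_X, eval_C, eval_C]
    simp only [add_sub_cancel_right]
    exact mul_ne_zero hc hl
  · -- two poles
    obtain ⟨β, hβ⟩ := IsAlgClosed.exists_root H (by
      intro h0
      have := natDegree_eq_zero_iff_degree_le_zero.2 h0.le
      omega)
    obtain ⟨H', hH'⟩ := dvd_iff_isRoot.2 hβ
    have hH'0 : H' ≠ 0 := by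
      rintro rfl
      rw [mul_zero] at hH'
      exact hH0 hH'
    have hdegH' : H.natDegree = 1 + H'.natDegree := by
      rw [hH', natDegree_mul (X_sub_C_ne_zero β) hH'0, natDegree_X_sub_C]
    obtain ⟨l, rfl⟩ := natDegree_eq_zero.1 (show H'.natDegree = 0 by omega)
    have hl : l ≠ 0 := fun h0 => hH'0 (by rw [h0, C_0])
    have hne : β ≠ α := by
      rintro rfl
      have hint : IsIntegral E β := (Algebra.IsAlgebraic.isAlgebraic β).isIntegral
      have hp : Irreducible (minpoly E β) := minpoly.irreducible hint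
      have h2 : minpoly E β ∣ G := minpoly.dvd E β (by rw [hev]; exact hα)
      obtain ⟨q, hq⟩ := h2
      have h3 : aeval β (derivative G) = 0 := by
        rw [← eval_map_algebraMap, ← derivative_map, hH, hH', derivative_mul, derivative_mul]
        simp
      have h4 := minpoly.dvd E β h3
      rw [hq, derivative_mul] at h4
      have h5 : minpoly E β ∣ derivative (minpoly E β) * q :=
        (dvd_add_left (dvd_mul_right _ _)).1 h4
      rcases hp.prime.dvd_or_dvd h5 with h6 | h6
      · have hd0 : derivative (minpoly E β) ≠ 0 := by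
          intro h0
          have h7 := derivative_eq_zero.1 h0
          have := hp.natDegree_pos
          omega
        exact absurd (degree_le_of_dvd h6 hd0) (not_le_of_gt (degree_derivative_lt hp.ne_zero))
      · have h7 : minpoly E β ^ 2 ∣ G := by
          rw [hq, pow_two]
          exact mul_dvd_mul_left _ h6
        have h8 := (FiniteMultiplicity.of_prime_left hp.prime hG0).le_multiplicity_of_pow_dvd h7
        have := hmul _ hp
        omega
    have hβα : β - α ≠ 0 := sub_ne_zero.2 hne
    have hval : ∀ c : K, c ≠ 1 → ValAt c (algebraMap K[X] (RatFunc K) (C β * X - C α) /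
        algebraMap K[X] (RatFunc K) (X - C 1)) ((β * c - α) / (c - 1)) := by
      intro c hc
      have hc' : c - 1 ≠ 0 := sub_ne_zero.2 hc
      refine ⟨C β * X - C α, X - C 1, by simpa using hc', ?_, rfl⟩
      simp only [eval_sub, eval_mul, eval_C, eval_X]
      field_simp
    obtain ⟨h2, h3⟩ := transc_of_values (M := algebraMap K[X] (RatFunc K) (C β * X - C α) /
        algebraMap K[X] (RatFunc K) (X - C 1)) (by
      refine ((Set.finite_singleton β).infinite_compl).mono ?_
      intro θ hθ
      have hθ' : θ - β ≠ 0 := sub_ne_zero.2 hθ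
      refine ⟨(θ - α) / (θ - β), ?_⟩
      have h5 : (θ - α) / (θ - β) - 1 = (β - α) / (θ - β) := by
        field_simp
        ring
      have h4 := hval ((θ - α) / (θ - β)) (by
        intro h0
        rw [h0, sub_self] at h5
        exact div_ne_zero hβα hθ' h5.symm)
      have h6 : (β * ((θ - α) / (θ - β)) - α) / ((θ - α) / (θ - β) - 1) = θ := by
        rw [h5]
        field_simp
        ring
      rwa [h6] at h4)
    refine hkey _ (h3 E) h2 fun c hc => ?_
    by_cases hc1 : c = 1
    · right
      refine ⟨⟨X - C 1, C β * X - C α, ?_, ?_, ?_⟩, h1⟩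
      · rw [hc1]; simpa using hβα
      · rw [hc1]; simp
      · rw [inv_div]
    · left
      have hc1' : c - 1 ≠ 0 := sub_ne_zero.2 hc1
      refine ⟨_, hval c hc1, ?_⟩
      rw [hev, hH, hH', eval_mul, eval_mul, eval_sub, eval_sub, eval_X, eval_C, eval_C, eval_C]
      have e1 : (β * c - α) / (c - 1) - α = (β - α) * c / (c - 1) := by
        field_simp
        ring
      have e2 : (β * c - α) / (c - 1) - β = (β - α) / (c - 1) := by
        field_simp
        ring
      rw [e1, e2]
      exact mul_ne_zero (div_ne_zero (mul_ne_zero hβα hc) hc1')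
        (mul_ne_zero (div_ne_zero hβα hc1') hl)

theorem Rul.fam {N : ℕ} (h : Rul E t) {s : E} (hs : Transcendental ℂ s) (hE : Algebra.trdeg ℂ E = 1)
    (hL : Algebra.trdeg ℂ L = 2) (ω : Bracket L) (x : Fin (N + 1) → L)
    (hyp : ∀ (v : DVal L) (k : ℤ), (∀ e : E, e ≠ 0 → v.v (algebraMap E L e) = 0) → ω.Wt v k →
      k = -1 ∨ (k = 0 ∧ ¬ Contracted x v)) : Fam ω x :=
  h.fam' (AlgebraicClosure E) hs hE hL ω x hyp

/-- CB. -/
theorem st_CB : ST_CB := by
  intro L _ _ N ω x hadm E t hR hyp
  have hE : Algebra.trdeg ℂ E = 1 := hR.1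
  have htr : Algebra.Transcendental ℂ E := by
    rw [← trdeg_ne_zero_iff, hE]
    exact one_ne_zero
  obtain ⟨s, hs⟩ := htr.transcendental
  have hgen : ∀ z : L, ∃ a b : E[X], z = aeval t a / aeval t b := by
    intro z
    have hz : z ∈ IntermediateField.adjoin E {t} := by rw [hR.2]; trivial
    rw [IntermediateField.mem_adjoin_simple_iff] at hz
    obtain ⟨a, b, h⟩ := hz
    exact ⟨a, b, h⟩
  have hRul : Rul E t := by
    have ht : ∀ a : E[X], aeval t a = 0 → a = 0 := by
      intro a ha
      by_contra hne
      have halg : IsAlgebraic E t := ⟨a, hne, ha⟩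
      have h1 : Algebra.IsAlgebraic E L := by
        have h2 := (IntermediateField.isAlgebraic_adjoin_simple halg.isIntegral)
        rw [hR.2] at h2
        constructor
        intro z
        have h3 := h2.isAlgebraic ⟨z, trivial⟩
        exact (isAlgebraic_algebraMap_iff (A := L)
          (algebraMap (⊤ : IntermediateField E L) L).injective).2 h3
      have h4 := trdeg_add_eq ℂ E (A := L)
      have h5 : Algebra.trdeg E L = 0 := trdeg_eq_zero
      rw [h5, hE, hadm.trdeg] at h4
      norm_num at h4
    refine ⟨ht, fun z => ?_⟩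
    obtain ⟨a, b, hz⟩ := hgen z
    by_cases hb : b = 0
    · exact ⟨0, 1, one_ne_zero, by rw [hz, hb]; simp⟩
    · exact ⟨a, b, hb, hz⟩
  refine hRul.fam hs hE hadm.trdeg ω x fun v k hv hk => hyp v k ?_ hk
  intro z hz hz0
  exact hv ⟨z, hz⟩ (fun h => hz0 (congrArg Subtype.val h))

end

end LCY
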