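import Mathlib
import Pool.Agent.Helper48.LCY.Top
import Pool.Agent.Helper48.KM.Defs

/-!
Statements of rows of the block FAMILIES (MP_f7e214_ag).
-/

open MvPolynomial

namespace LCY

noncomputable section

/-- DOMF. From a family over an algebraic set to a family over a finitely generated field of
transcendence degree one. -/
def ST_DOMF : Prop := ∀ (V : Set (Fin 3 → ℂ)) (G : MvPolynomial (Fin 3) ℂ)
  (b : Fin 2 → MvPolynomial (Fin 3) ℂ),
  (∀ P, P ∈ V ↔ eval P G = 0 ∧ ∃ i, eval P (b i) ≠ 0) → V.Nonempty →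
  (Ideal.span {G}).IsPrime → Algebra.trdeg ℂ (MvPolynomial (Fin 3) ℂ ⧸ Ideal.span {G}) = 2 →
  Pool.Agent.Helper48.KM.DominatedByGm V →
  ∃ (K : Type) (_ : Field K) (_ : Algebra ℂ K) (g : Fin 3 → LaurentPolynomial K),
    (∃ s : Finset K, IntermediateField.adjoin ℂ (s : Set K) = ⊤) ∧ Algebra.trdeg ℂ K = 1 ∧
    (∀ h : MvPolynomial (Fin 3) ℂ, aeval g h = 0 ↔ G ∣ h) ∧
    (∃ α : Fin 2 → LaurentPolynomial K, ∑ i, α i * aeval g (b i) = 1) ∧
    ∃ i, ∀ c : K, g i ≠ LaurentPolynomial.C c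

/-- The place `v` is centred on the affine variety with coordinate ring `R`. -/
def CentredOn {L : Type} [Field L] [Algebra ℂ L] (R : Subalgebra ℂ L) (v : DVal L) : Prop :=
  ∀ r ∈ R, v.Int r

/-- The centre of `v` on the affine variety with coordinate ring `R` is a closed point. -/
def AtPoint {L : Type} [Field L] [Algebra ℂ L] (R : Subalgebra ℂ L) (v : DVal L) : Prop :=
  ∀ r ∈ R, ∃ c : ℂ, v.Pos (r - algebraMap ℂ L c)

/-- ET1. The etale lemma for families over fields of transcendence degree one. The affine variety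
with coordinate ring `R` is dominated by the family; all weights are at least `-1`; the places
below the family centred at closed points have weight at least one, the others have weight at
least zero. Then the centres are curves, the weights are zero. -/
def ST_ET1 : Prop := ∀ (L : Type) [Field L] [Algebra ℂ L] (ω : Bracket L) (R : Subalgebra ℂ L)
  (K : Type) [Field K] [Algebra ℂ K] (i : L →ₐ[ℂ] RatFunc K),
  (∃ s : Finset L, IntermediateField.adjoin ℂ (s : Set L) = ⊤) → Algebra.trdeg ℂ L = 2 →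
  (∃ s : Finset K, IntermediateField.adjoin ℂ (s : Set K) = ⊤) → Algebra.trdeg ℂ K = 1 →
  (∀ (v : DVal L) (k : ℤ), ω.Wt v k → -1 ≤ k) →
  (∀ r ∈ R, ∀ P : Polynomial K, Irreducible P → ¬ P ∣ Polynomial.X → RegAtT P (i r)) →
  (∀ P : Polynomial K, Irreducible P → ¬ P ∣ Polynomial.X → ∀ (v : DVal L) (k : ℤ),
    (∀ z, v.Int z ↔ RegAtT P (i z)) → ω.Wt v k →
      (AtPoint R v → 1 ≤ k) ∧ (¬ AtPoint R v → 0 ≤ k)) →
  ∀ P : Polynomial K, Irreducible P → ¬ P ∣ Polynomial.X →
    ∃ v : DVal L, (∀ z, v.Int z ↔ RegAtT P (i z)) ∧ ¬ AtPoint R v ∧ ω.Wt v 0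

end

end LCY
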