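import Mathlib
import Pool.Agent.Helper48.KM.Defs
import Pool.Agent.Helper96.LCY.Lift
import Pool.Agent.Helper26.LC.FamStmts

/-!
Families over the ring of functions of an algebraic set: points, the Nullstellensatz, the choice
of the ideal.
-/

open MvPolynomial Pool.Agent.Helper48.KM

namespace LCY.H26

noncomputable section

theorem eval2_hom {R S S' : Type*} [CommRing R] [CommRing S] [CommRing S'] (g : R →+* S)
    (u : Sˣ) (θ : S →+* S') (q : LaurentPolynomial R) :
    θ (LaurentPolynomial.eval₂ g u q) =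
      LaurentPolynomial.eval₂ (θ.comp g) (Units.map (θ : S →* S') u) q := by
  induction q using LaurentPolynomial.induction_on' with
  | add p q hp hq => rw [map_add, map_add, map_add, hp, hq]
  | C_mul_T n a =>
    rw [LaurentPolynomial.eval₂_C_mul_T, LaurentPolynomial.eval₂_C_mul_T, map_mul,
      RingHom.comp_apply, ← map_zpow]
    rfl

/-- The unit `T` of the Laurent polynomials. -/
def tU (R : Type*) [CommRing R] : (LaurentPolynomial R)ˣ :=
  (LaurentPolynomial.isUnit_T 1).unit

theorem tU_val (R : Type*) [CommRing R] : ((tU R : (LaurentPolynomial R)ˣ) : LaurentPolynomial R)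
    = LaurentPolynomial.T 1 := rfl

theorem dom_laurent (R : Type*) [CommRing R] [IsDomain R] : IsDomain (LaurentPolynomial R) := by
  have h1 : NoZeroDivisors (LaurentPolynomial R) :=
    inferInstanceAs (NoZeroDivisors (AddMonoidAlgebra R ℤ))
  exact NoZeroDivisors.to_isDomain _

theorem ft_laurent (R : Type) [CommRing R] [Algebra ℂ R] [Algebra.FiniteType ℂ R] :
    Algebra.FiniteType ℂ (LaurentPolynomial R) := by
  have h1 : Algebra.FiniteType R (Polynomial R) := inferInstance
  have h2 : Algebra.FiniteType (Polynomial R) (LaurentPolynomial R) :=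
    IsLocalization.finiteType_of_monoid_fg
      (Submonoid.powers (Polynomial.X : Polynomial R)) (LaurentPolynomial R)
  have h3 : IsScalarTower R (Polynomial R) (LaurentPolynomial R) :=
    IsScalarTower.of_algebraMap_eq fun r => by
      rw [LaurentPolynomial.algebraMap_eq_toLaurent, Polynomial.algebraMap_eq,
        Polynomial.toLaurent_C]
      rfl
  have h4 : Algebra.FiniteType R (LaurentPolynomial R) := Algebra.FiniteType.trans h1 h2
  exact Algebra.FiniteType.trans (inferInstance : Algebra.FiniteType ℂ R) h4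

section points

variable {n : ℕ} {R : Type} [CommRing R] [Algebra ℂ R] (π : MvPolynomial (Fin n) ℂ →ₐ[ℂ] R)
  (F : Fin 3 → LaurentPolynomial (MvPolynomial (Fin n) ℂ))

/-- The coordinates of the family, modulo the ideal. -/
def Fr (i : Fin 3) : LaurentPolynomial R :=
  LaurentPolynomial.eval₂ ((LaurentPolynomial.C).comp (π : MvPolynomial (Fin n) ℂ →+* R))
    (tU R) (F i)

/-- The coordinates of a point of the family. -/
def py (ψ : LaurentPolynomial R →ₐ[ℂ] ℂ) : Fin n → ℂ :=
  fun j => ψ (LaurentPolynomial.C (π (X j)))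

/-- The parameter of a point of the family. -/
def pt (ψ : LaurentPolynomial R →ₐ[ℂ] ℂ) : ℂˣ :=
  Units.map ((ψ : LaurentPolynomial R →+* ℂ) : LaurentPolynomial R →* ℂ) (tU R)

theorem py_eval (ψ : LaurentPolynomial R →ₐ[ℂ] ℂ) (a : MvPolynomial (Fin n) ℂ) :
    ψ (LaurentPolynomial.C (π a)) = eval (py π ψ) a := by
  have h : ((ψ : LaurentPolynomial R →+* ℂ).comp LaurentPolynomial.C).comp
      (π : MvPolynomial (Fin n) ℂ →+* R) = eval (py π ψ) := by
    refine MvPolynomial.ringHom_ext (fun r => ?_) (fun j => ?_)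
    · rw [eval_C]
      have h1 : (π : MvPolynomial (Fin n) ℂ →+* R) (C r) = algebraMap ℂ R r := π.commutes r
      rw [RingHom.comp_apply, h1]
      exact ψ.commutes r
    · rw [eval_X]
      rfl
  exact congrArg (fun g => g a) h

theorem py_mem (ψ : LaurentPolynomial R →ₐ[ℂ] ℂ) : ∀ f, π f = 0 → eval (py π ψ) f = 0 := by
  intro f hf
  rw [← py_eval, hf, map_zero, map_zero]

theorem psi_Fr (ψ : LaurentPolynomial R →ₐ[ℂ] ℂ) (i : Fin 3) :
    ψ (Fr π F i) = famValue F (py π ψ) (pt ψ) i := by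
  have h := eval2_hom ((LaurentPolynomial.C).comp (π : MvPolynomial (Fin n) ℂ →+* R)) (tU R)
    (ψ : LaurentPolynomial R →+* ℂ) (F i)
  have h2 : (ψ : LaurentPolynomial R →+* ℂ).comp
      ((LaurentPolynomial.C).comp (π : MvPolynomial (Fin n) ℂ →+* R)) = eval (py π ψ) :=
    RingHom.ext fun a => py_eval π ψ a
  rw [h2] at h
  exact h

theorem psi_aeval (ψ : LaurentPolynomial R →ₐ[ℂ] ℂ) (f : MvPolynomial (Fin 3) ℂ) :
    ψ (aeval (Fr π F) f) = eval (famValue F (py π ψ) (pt ψ)) f := by
  have h : (ψ.comp (aeval (Fr π F))) = aeval (famValue F (py π ψ) (pt ψ)) := by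
    refine MvPolynomial.algHom_ext fun i => ?_
    rw [AlgHom.comp_apply, aeval_X, aeval_X, psi_Fr]
  have h1 := congrArg (fun g => g f) h
  rw [← coe_aeval_eq_eval]
  exact h1

/-- A point of the family. -/
theorem exists_psi (hπ : Function.Surjective π) (s : Fin n → ℂ)
    (hs : ∀ f, π f = 0 → eval s f = 0) (t : ℂˣ) :
    ∃ χ : LaurentPolynomial R →ₐ[ℂ] ℂ, py π χ = s ∧ pt χ = t := by
  let g : R →+* ℂ := (π : MvPolynomial (Fin n) ℂ →+* R).liftOfSurjective hπ
    ⟨eval s, fun a ha => hs a ha⟩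
  have hg : ∀ a, g (π a) = eval s a := fun a =>
    (π : MvPolynomial (Fin n) ℂ →+* R).liftOfRightInverse_comp_apply _ _ ⟨eval s, _⟩ a
  have hgc : ∀ c : ℂ, g (algebraMap ℂ R c) = c := by
    intro c
    have h1 : π (C c) = algebraMap ℂ R c := π.commutes c
    rw [← h1, hg, eval_C]
  let χ : LaurentPolynomial R →ₐ[ℂ] ℂ :=
    { LaurentPolynomial.eval₂ g t with
      commutes' := fun c => by
        have h1 : algebraMap ℂ (LaurentPolynomial R) c =
            LaurentPolynomial.C (algebraMap ℂ R c) := rfl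
        change LaurentPolynomial.eval₂ g t (algebraMap ℂ (LaurentPolynomial R) c) = _
        rw [h1, LaurentPolynomial.eval₂_C, hgc]
        rfl }
  refine ⟨χ, ?_, ?_⟩
  · ext j
    change LaurentPolynomial.eval₂ g t (LaurentPolynomial.C (π (X j))) = s j
    rw [LaurentPolynomial.eval₂_C, hg, eval_X]
  · ext
    change LaurentPolynomial.eval₂ g t (tU R).val = t
    rw [tU_val, LaurentPolynomial.eval₂_T, zpow_one]

end points

section choice

variable {n : ℕ} (F : Fin 3 → LaurentPolynomial (MvPolynomial (Fin n) ℂ))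
  (G : MvPolynomial (Fin 3) ℂ)

/-- The family over the zeros of `I` is dense in `G = 0`. -/
def Dens (I : Ideal (MvPolynomial (Fin n) ℂ)) : Prop := ∀ g : MvPolynomial (Fin 3) ℂ,
  (∀ t : Fin n → ℂ, (∀ p ∈ I, eval t p = 0) → ∀ s : ℂˣ, eval (famValue F t s) g = 0) → G ∣ g

theorem dvd_of_vanish {V : Set (Fin 3 → ℂ)} {b : Fin 2 → MvPolynomial (Fin 3) ℂ}
    (hV : ∀ P, P ∈ V ↔ eval P G = 0 ∧ ∃ i, eval P (b i) ≠ 0) (hne : V.Nonempty)
    (hG : (Ideal.span {G}).IsPrime) (g : MvPolynomial (Fin 3) ℂ) (hg : ∀ P ∈ V, eval P g = 0) :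
    G ∣ g := by
  obtain ⟨P0, hP0⟩ := hne
  obtain ⟨h1, i, h2⟩ := (hV P0).1 hP0
  have h3 : g * b i ∈ Ideal.span {G} := by
    have h4 := MvPolynomial.vanishingIdeal_zeroLocus_eq_radical (K := ℂ) (Ideal.span {G})
    rw [hG.radical] at h4
    rw [← h4]
    rw [MvPolynomial.mem_vanishingIdeal_iff]
    intro P hP
    have hPG : eval P G = 0 := hP G (Ideal.subset_span rfl)
    have : eval P (g * b i) = 0 := by
      rw [map_mul]
      by_cases hb : eval P (b i) = 0
      · rw [hb, mul_zero]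
      · rw [hg P ((hV P).2 ⟨hPG, i, hb⟩), zero_mul]
    simpa using this
  rcases hG.mem_or_mem h3 with h | h
  · exact Ideal.mem_span_singleton.1 h
  · exfalso
    obtain ⟨c, hc⟩ := Ideal.mem_span_singleton.1 h
    rw [hc, map_mul, h1, zero_mul] at h2
    exact h2 rfl

theorem exists_maximal {J : Ideal (MvPolynomial (Fin n) ℂ)} (hJ : Dens F G J)
    (hG : (Ideal.span {G}).IsPrime) : ∃ p : Ideal (MvPolynomial (Fin n) ℂ), J ≤ p ∧ Dens F G p ∧
      p.IsPrime ∧ ∀ q, p < q → ¬ Dens F G q := by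
  obtain ⟨p, ⟨hp1, hp2⟩, hp3⟩ := set_has_maximal_iff_noetherian.2
    (inferInstance : IsNoetherian (MvPolynomial (Fin n) ℂ) (MvPolynomial (Fin n) ℂ))
    {I | J ≤ I ∧ Dens F G I} ⟨J, le_rfl, hJ⟩
  have hmax : ∀ q, p < q → ¬ Dens F G q := fun q hq hd => hp3 q ⟨hp1.trans hq.le, hd⟩ hq
  refine ⟨p, hp1, hp2, ?_, hmax⟩
  have hG1 : ¬ IsUnit G := fun h => hG.ne_top (Ideal.span_singleton_eq_top.2 h)
  constructor
  · rintro rfl
    refine hG1 (isUnit_of_dvd_one (hp2 1 ?_))
    intro t ht
    have := ht 1 trivial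
    rw [map_one] at this
    exact absurd this one_ne_zero
  · intro u v huv
    by_contra hc
    push Not at hc
    obtain ⟨hu, hv⟩ := hc
    have hlt : ∀ u, u ∉ p → p < p ⊔ Ideal.span {u} := by
      intro u hu
      refine lt_of_le_of_ne le_sup_left fun h => hu ?_
      rw [h]
      exact Ideal.mem_sup_right (Ideal.subset_span rfl)
    have h1 := hmax _ (hlt u hu)
    have h2 := hmax _ (hlt v hv)
    unfold Dens at h1 h2
    push Not at h1 h2
    obtain ⟨g1, hg1, hn1⟩ := h1
    obtain ⟨g2, hg2, hn2⟩ := h2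
    have h3 : G ∣ g1 * g2 := by
      refine hp2 _ fun t ht s => ?_
      have h4 : eval t u * eval t v = 0 := by rw [← map_mul]; exact ht _ huv
      have h5 : ∀ u, eval t u = 0 → ∀ p' ∈ p ⊔ Ideal.span {u}, eval t p' = 0 := by
        intro u hu p' hp'
        obtain ⟨y, hy, z, hz, rfl⟩ := Submodule.mem_sup.1 hp'
        obtain ⟨c, rfl⟩ := Ideal.mem_span_singleton.1 hz
        rw [map_add, map_mul, hu, ht y hy, zero_mul, add_zero]
      rw [map_mul]
      rcases mul_eq_zero.1 h4 with h | h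
      · rw [hg1 t (h5 u h) s, zero_mul]
      · rw [hg2 t (h5 v h) s, mul_zero]
    have h6 := hG.mem_or_mem (Ideal.mem_span_singleton.2 h3)
    rw [Ideal.mem_span_singleton, Ideal.mem_span_singleton] at h6
    exact h6.elim hn1 hn2

end choice

end

end LCY.H26
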