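import Mathlib
import Pool.Agent.Helper98.LCY.Abh

/-!
Transcendence degree one.
-/

open MvPolynomial

namespace LCY.H26

noncomputable section

open IntermediateField algebraAdjoinAdjoin in
theorem trdeg_one_of_alg {K : Type} [Field K] [Algebra ℂ K] (T : Set K)
    (hT : IntermediateField.adjoin ℂ T = ⊤) (a b : RatFunc K) (ha : ¬ ∃ c, a = RatFunc.C c)
    (hind : AlgebraicIndependent ℂ ![a, b])
    (halg : ∀ t ∈ T, IsAlgebraic (Algebra.adjoin ℂ (Set.range ![a, b]))
      (algebraMap K (RatFunc K) t)) : Algebra.trdeg ℂ K = 1 := by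
  set S := Set.range ![a, b] with hS
  set k0 := IntermediateField.adjoin ℂ S with hk0
  set Ω := algebraicClosure k0 (RatFunc K) with hΩ
  have hfr : ∀ e : RatFunc K, IsAlgebraic (Algebra.adjoin ℂ S) e ↔ IsAlgebraic k0 e := by
    intro e
    exact (IsFractionRing.isAlgebraic_iff (Algebra.adjoin ℂ S) k0 (RatFunc K))
  have h1 : ∀ x : K, algebraMap K (RatFunc K) x ∈ Ω := by
    intro x
    have h2 : IntermediateField.adjoin ℂ T ≤
        (Ω.restrictScalars ℂ).comap (IsScalarTower.toAlgHom ℂ K (RatFunc K)) := by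
      rw [IntermediateField.adjoin_le_iff]
      intro t ht
      change algebraMap K (RatFunc K) t ∈ Ω
      rw [hΩ, mem_algebraicClosure_iff]
      exact (hfr _).1 (halg t ht)
    rw [hT] at h2
    exact h2 (IntermediateField.mem_top : x ∈ (⊤ : IntermediateField ℂ K))
  have ha1 : a ∈ Ω := by
    rw [hΩ, mem_algebraicClosure_iff]
    have : a ∈ k0 := IntermediateField.subset_adjoin _ _ ⟨0, rfl⟩
    exact isAlgebraic_algebraMap (⟨a, this⟩ : k0)
  have h3 : ∀ e : RatFunc K, e ∈ K⟮a⟯ → e ∈ Ω := by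
    intro e he
    induction he using IntermediateField.adjoin_induction with
    | mem x hx =>
      rw [Set.mem_singleton_iff] at hx
      rw [hx]
      exact ha1
    | algebraMap x => exact h1 x
    | add x y _ _ hx hy => exact add_mem hx hy
    | inv x _ hx => exact inv_mem hx
    | mul x y _ _ hx hy => exact mul_mem hx hy
  let φ : K⟮a⟯ →+* Ω :=
    { toFun := fun e => ⟨e.1, h3 e.1 e.2⟩
      map_one' := rfl
      map_mul' := fun _ _ => rfl
      map_zero' := rfl
      map_add' := fun _ _ => rfl }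
  let _ : Algebra K⟮a⟯ Ω := φ.toAlgebra
  have : IsScalarTower K⟮a⟯ Ω (RatFunc K) := IsScalarTower.of_algebraMap_eq fun _ => rfl
  have h4 : ∀ e : RatFunc K, IsAlgebraic k0 e := by
    intro e
    have h5 : IsAlgebraic K⟮a⟯ e := (RatFunc.isAlgebraic_adjoin_simple_X' a ha).isAlgebraic e
    have h6 : IsAlgebraic Ω e := h5.extendScalars (algebraMap K⟮a⟯ Ω).injective
    exact h6.restrictScalars k0
  have h7 : Algebra.IsAlgebraic (Algebra.adjoin ℂ S) (RatFunc K) := ⟨fun e => (hfr e).2 (h4 e)⟩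
  have h8 : IsTranscendenceBasis ℂ ![a, b] := (hind.isTranscendenceBasis_iff_isAlgebraic).2 h7
  have h9 := h8.lift_cardinalMk_eq_trdeg
  have h10 := _root_.trdeg_add_eq ℂ K (A := RatFunc K)
  rw [H98.trdeg_ratFunc] at h10
  have h11 : Algebra.trdeg ℂ (RatFunc K) = 2 := by
    simpa using h9.symm
  rw [h11] at h10
  have h12 : Algebra.trdeg ℂ K + 1 = 1 + 1 := by rw [h10, one_add_one_eq_two]
  exact Cardinal.eq_of_add_eq_add_right h12 Cardinal.one_lt_aleph0

theorem isAlgebraic_of_not_indep {E : Type} [Field E] [Algebra ℂ E] {a b t : E}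
    (hind : AlgebraicIndependent ℂ ![a, b])
    (h : ¬ AlgebraicIndependent ℂ (fun o : Option (Fin 2) => o.elim t ![a, b])) :
    IsAlgebraic (Algebra.adjoin ℂ (Set.range ![a, b])) t := by
  rw [hind.option_iff_transcendental, Transcendental, not_not] at h
  exact h

/-- In the coordinate ring of a surface a nonconstant coordinate is part of a transcendence
basis of coordinates. -/
theorem exists_basis {Q : Type} [CommRing Q] [IsDomain Q] [Algebra ℂ Q] (x : Fin 3 → Q)
    (hgen : Algebra.adjoin ℂ (Set.range x) = ⊤) (htr : Algebra.trdeg ℂ Q = 2) (i0 : Fin 3)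
    (h0 : Transcendental ℂ (x i0)) : ∃ i1, AlgebraicIndependent ℂ ![x i0, x i1] := by
  have hs : AlgebraicIndepOn ℂ id {x i0} := by
    rw [AlgebraicIndepOn, algebraicIndependent_unique_type_iff]
    exact h0
  have : Algebra.IsAlgebraic (Algebra.adjoin ℂ (Set.range x)) Q := ⟨fun q => by
    have hq : q ∈ Algebra.adjoin ℂ (Set.range x) := by rw [hgen]; trivial
    exact isAlgebraic_algebraMap (⟨q, hq⟩ : Algebra.adjoin ℂ (Set.range x))⟩
  obtain ⟨u, hu1, hu2, hu3⟩ := exists_isTranscendenceBasis_between {x i0} (Set.range x)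
    (by rintro _ rfl; exact ⟨i0, rfl⟩) hs
  have hcard := hu3.lift_cardinalMk_eq_trdeg
  rw [htr] at hcard
  have hcard' : Cardinal.mk u = 2 := by simpa using hcard
  obtain ⟨y, z, hyz, -⟩ := Cardinal.mk_eq_two_iff.1 hcard'
  have hx0 : x i0 ∈ u := hu1 rfl
  obtain ⟨w, hw⟩ : ∃ w : u, w ≠ ⟨x i0, hx0⟩ := by
    by_cases h : y = ⟨x i0, hx0⟩
    · exact ⟨z, fun hz => hyz (h.trans hz.symm)⟩
    · exact ⟨y, h⟩
  obtain ⟨i1, hi1⟩ := hu2 w.2
  refine ⟨i1, ?_⟩
  have h3 := hu3.1.comp ![⟨x i0, hx0⟩, w] (by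
    intro i j hij
    fin_cases i <;> fin_cases j
    · rfl
    · exact absurd hij.symm hw
    · exact absurd hij hw
    · rfl)
  convert h3 using 1
  ext i
  fin_cases i
  · rfl
  · exact hi1

/-- A nonzero function on a surface divides a polynomial in two independent functions. -/
theorem exists_rel_of_basis {Q : Type} [CommRing Q] [IsDomain Q] [Algebra ℂ Q]
    (htr : Algebra.trdeg ℂ Q = 2) {a b : Q} (hind : AlgebraicIndependent ℂ ![a, b]) {g : Q}
    (hg : g ≠ 0) : ∃ q : MvPolynomial (Fin 2) ℂ, q ≠ 0 ∧ g ∣ aeval ![a, b] q := by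
  have htb := hind.isTranscendenceBasis_of_lift_trdeg_le_of_finite (by
    rw [htr]
    simp)
  have halg := htb.isAlgebraic
  obtain ⟨r, hr, hdvd⟩ := (halg.isAlgebraic g).exists_nonzero_dvd (mem_nonZeroDivisors_of_ne_zero hg)
  obtain ⟨p, hp⟩ : ∃ p : MvPolynomial (Fin 2) ℂ, aeval ![a, b] p = (r : Q) :=
    (Algebra.adjoin_range_eq_range_aeval ℂ ![a, b]).le r.2
  refine ⟨p, ?_, ?_⟩
  · rintro rfl
    rw [map_zero] at hp
    exact hr (Subtype.ext hp.symm)
  · rw [hp]
    exact hdvd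

end

end LCY.H26
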