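import Mathlib
import Pool.Agent.Helper26.LC.Domf1
import Pool.Agent.Helper26.LC.Domf2

/-!
From a family over an algebraic set to a family over a field of transcendence degree one.
-/

open MvPolynomial Pool.Agent.Helper48.KM

namespace LCY.H26

noncomputable section

section maps

variable (R K : Type) [CommRing R] [Field K] [Algebra ℂ R] [Algebra ℂ K] [Algebra R K]
  [IsScalarTower ℂ R K]

/-- Change of coefficients. -/
def lmap : LaurentPolynomial R →ₐ[ℂ] LaurentPolynomial K :=
  { LaurentPolynomial.eval₂ ((LaurentPolynomial.C).comp (algebraMap R K)) (tU K) with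
    commutes' := fun c => by
      have h1 : algebraMap ℂ (LaurentPolynomial R) c = LaurentPolynomial.C (algebraMap ℂ R c) := rfl
      have h2 : algebraMap ℂ (LaurentPolynomial K) c = LaurentPolynomial.C (algebraMap ℂ K c) := rfl
      change LaurentPolynomial.eval₂ ((LaurentPolynomial.C).comp (algebraMap R K)) (tU K)
        (algebraMap ℂ (LaurentPolynomial R) c) = _
      rw [h1, h2, LaurentPolynomial.eval₂_C, RingHom.comp_apply,
        ← IsScalarTower.algebraMap_apply ℂ R K] }

theorem lmap_apply (f : LaurentPolynomial R) : lmap R K f =
    LaurentPolynomial.eval₂ ((LaurentPolynomial.C).comp (algebraMap R K)) (tU K) f := rfl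

theorem coeff_lmap (f : LaurentPolynomial R) (m : ℤ) :
    (lmap R K f).coeff m = algebraMap R K (f.coeff m) := by
  induction f using LaurentPolynomial.induction_on' with
  | add p q hp hq =>
    rw [map_add, AddMonoidAlgebra.coeff_add, AddMonoidAlgebra.coeff_add, Finsupp.add_apply,
      Finsupp.add_apply, hp, hq, map_add]
  | C_mul_T n a =>
    have h1 : lmap R K (LaurentPolynomial.C a * LaurentPolynomial.T n) =
        LaurentPolynomial.C (algebraMap R K a) * LaurentPolynomial.T n := by
      rw [lmap_apply, LaurentPolynomial.eval₂_C_mul_T, RingHom.comp_apply]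
      congr 1
      have h2 : (tU K) ^ n = (LaurentPolynomial.isUnit_T n).unit := by
        have h3 : ∀ m : ℤ, ((tU K ^ m : (LaurentPolynomial K)ˣ) : LaurentPolynomial K) =
            LaurentPolynomial.T m := by
          intro m
          induction m using Int.induction_on with
          | zero => rw [zpow_zero, LaurentPolynomial.T_zero]; rfl
          | succ i hi => rw [zpow_add_one, Units.val_mul, hi, tU_val, LaurentPolynomial.T_add]
          | pred i hi =>
            rw [zpow_sub_one, Units.val_mul, hi, LaurentPolynomial.T_sub]
            congr 1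
            rw [Units.inv_eq_of_mul_eq_one_right]
            rw [tU_val, ← LaurentPolynomial.T_add]
            exact LaurentPolynomial.T_zero
        ext
        exact congrArg (fun f => AddMonoidAlgebra.coeff f _) (h3 n)
      rw [h2]
      rfl
    rw [h1, ← LaurentPolynomial.single_eq_C_mul_T, ← LaurentPolynomial.single_eq_C_mul_T,
      AddMonoidAlgebra.coeff_single, AddMonoidAlgebra.coeff_single, Finsupp.single_apply,
      Finsupp.single_apply]
    split_ifs
    · rfl
    · rw [map_zero]

theorem lmap_injective (h : Function.Injective (algebraMap R K)) :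
    Function.Injective (lmap R K) := by
  rw [injective_iff_map_eq_zero]
  intro f hf
  refine LaurentPolynomial.ext fun m => ?_
  have h1 := coeff_lmap R K f m
  rw [hf] at h1
  have h2 : algebraMap R K (f.coeff m) = algebraMap R K 0 := by rw [← h1, map_zero]; rfl
  exact h h2

/-- Laurent polynomials as rational functions. -/
def lrat : LaurentPolynomial K →ₐ[ℂ] RatFunc K :=
  { LaurentPolynomial.eval₂ (algebraMap K (RatFunc K)) (Units.mk0 RatFunc.X RatFunc.X_ne_zero) with
    commutes' := fun c => by
      have h2 : algebraMap ℂ (LaurentPolynomial K) c = LaurentPolynomial.C (algebraMap ℂ K c) := rfl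
      change LaurentPolynomial.eval₂ (algebraMap K (RatFunc K)) _
        (algebraMap ℂ (LaurentPolynomial K) c) = _
      rw [h2, LaurentPolynomial.eval₂_C, ← IsScalarTower.algebraMap_apply ℂ K (RatFunc K)] }

theorem lrat_C (c : K) : lrat K (LaurentPolynomial.C c) = RatFunc.C c := by
  change LaurentPolynomial.eval₂ (algebraMap K (RatFunc K)) _ (LaurentPolynomial.C c) = _
  rw [LaurentPolynomial.eval₂_C]
  rfl

theorem lrat_injective : Function.Injective (lrat K) := by
  rw [injective_iff_map_eq_zero]
  intro f hf
  obtain ⟨n, f', hf'⟩ := LaurentPolynomial.exists_T_pow f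
  have h1 : lrat K (Polynomial.toLaurent f') = 0 := by
    rw [hf', map_mul, hf, zero_mul]
  have h2 : lrat K (Polynomial.toLaurent f') = algebraMap (Polynomial K) (RatFunc K) f' := by
    change LaurentPolynomial.eval₂ (algebraMap K (RatFunc K)) _ (Polynomial.toLaurent f') = _
    rw [LaurentPolynomial.eval₂_toLaurent]
    change Polynomial.aeval (RatFunc.X : RatFunc K) f' = _
    rw [← RatFunc.algebraMap_X, Polynomial.aeval_algebraMap_apply, Polynomial.aeval_X_left_apply]
  rw [h2, FaithfulSMul.algebraMap_eq_zero_iff] at h1
  rw [h1, map_zero] at hf'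
  exact (LaurentPolynomial.isUnit_T (R := K) n).mul_left_inj.1 (by rw [← hf', zero_mul])

end maps

end

end LCY.H26
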