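import Mathlib
import Pool.Agent.Helper26.LC.Domf3

/-!
**DOMF.** From a family over an algebraic set to a family over a finitely generated field of
transcendence degree one.
-/

open MvPolynomial Pool.Agent.Helper48.KM

namespace LCY.H26

noncomputable section

variable {n : ℕ} {p : Ideal (MvPolynomial (Fin n) ℂ)} {R : Type} [CommRing R] [IsDomain R]
  [Algebra ℂ R] [Algebra.FiniteType ℂ R] {π : MvPolynomial (Fin n) ℂ →ₐ[ℂ] R}
  {F : Fin 3 → LaurentPolynomial (MvPolynomial (Fin n) ℂ)} {G : MvPolynomial (Fin 3) ℂ}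
  {V : Set (Fin 3 → ℂ)} {b : Fin 2 → MvPolynomial (Fin 3) ℂ}

theorem aeval_Fr_eq_zero_iff (hπ : Function.Surjective π) (hker : ∀ f, π f = 0 ↔ f ∈ p)
    (hV : ∀ P, P ∈ V ↔ eval P G = 0 ∧ ∃ i, eval P (b i) ≠ 0)
    (hz : ∀ t : Fin n → ℂ, (∀ f ∈ p, eval t f = 0) → (∀ s : ℂˣ, famValue F t s ∈ V) ∧
      ∃ s s' : ℂˣ, famValue F t s ≠ famValue F t s')
    (hd : Dens F G p) (h : MvPolynomial (Fin 3) ℂ) : aeval (Fr π F) h = 0 ↔ G ∣ h := by
  have hdB := dom_laurent R
  have hfB := ft_laurent R
  constructor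
  · intro h0
    refine hd h fun t ht s => ?_
    obtain ⟨χ, h1, h2⟩ := exists_psi π hπ t (fun f hf => ht f ((hker f).1 hf)) s
    have h3 := psi_aeval π F χ h
    rw [h0, map_zero, h1, h2] at h3
    exact h3.symm
  · rintro ⟨c, rfl⟩
    have h1 : aeval (Fr π F) G = 0 := by
      by_contra hc
      obtain ⟨ψ, hψ⟩ := H96.exists_pt_ne (k := ℂ) hc
      refine hψ ?_
      rw [psi_aeval]
      have h2 := (hz (py π ψ) fun f hf => py_mem π ψ f ((hker f).2 hf)).1 (pt ψ)
      exact ((hV _).1 h2).1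
    rw [map_mul, h1, zero_mul]

theorem exists_nonconst (hπ : Function.Surjective π) (hker : ∀ f, π f = 0 ↔ f ∈ p)
    (hz : ∀ t : Fin n → ℂ, (∀ f ∈ p, eval t f = 0) → (∀ s : ℂˣ, famValue F t s ∈ V) ∧
      ∃ s s' : ℂˣ, famValue F t s ≠ famValue F t s')
    (K : Type) [Field K] [Algebra ℂ K] [Algebra R K] [IsScalarTower ℂ R K]
    (hRK : Function.Injective (algebraMap R K)) :
    ∃ i, ∀ c : K, lmap R K (Fr π F i) ≠ LaurentPolynomial.C c := by
  have hdB := dom_laurent R
  have hfB := ft_laurent R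
  obtain ⟨ψ, -⟩ := H96.exists_pt_ne (k := ℂ) (one_ne_zero : (1 : LaurentPolynomial R) ≠ 0)
  have ht : ∀ f ∈ p, eval (py π ψ) f = 0 := fun f hf => py_mem π ψ f ((hker f).2 hf)
  set t := py π ψ with ht0
  obtain ⟨-, s, s', hne⟩ := hz t ht
  obtain ⟨i, hi⟩ := Function.ne_iff.1 hne
  refine ⟨i, fun c hc => hi ?_⟩
  have h1 : Fr π F i = LaurentPolynomial.C ((Fr π F i).coeff 0) := by
    refine LaurentPolynomial.ext fun m => ?_
    have h2 := coeff_lmap R K (Fr π F i) m
    rw [hc, LaurentPolynomial.C_apply] at h2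
    rw [LaurentPolynomial.C_apply]
    split_ifs at h2 ⊢ with hm
    · rw [hm]
    · exact hRK (by rw [← h2, map_zero])
  obtain ⟨a, ha⟩ := hπ ((Fr π F i).coeff 0)
  rw [← ha] at h1
  have h3 : ∀ s : ℂˣ, famValue F t s i = eval t a := by
    intro s
    obtain ⟨χ, h4, h5⟩ := exists_psi π hπ t (fun f hf => ht f ((hker f).1 hf)) s
    rw [← h4, ← h5, ← psi_Fr π F χ i, h1, py_eval]
  rw [h3, h3]

/-- The Chevalley step. -/
theorem dens_step (hker : ∀ f, π f = 0 ↔ f ∈ p)
    (hV : ∀ P, P ∈ V ↔ eval P G = 0 ∧ ∃ i, eval P (b i) ≠ 0)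
    (hG : (Ideal.span {G}).IsPrime)
    (htr : Algebra.trdeg ℂ (MvPolynomial (Fin 3) ℂ ⧸ Ideal.span {G}) = 2)
    (hz : ∀ t : Fin n → ℂ, (∀ f ∈ p, eval t f = 0) → (∀ s : ℂˣ, famValue F t s ∈ V) ∧
      ∃ s s' : ℂˣ, famValue F t s ≠ famValue F t s')
    {i0 i1 : Fin 3}
    (hQ : AlgebraicIndependent ℂ ![Ideal.Quotient.mk (Ideal.span {G}) (X i0),
      Ideal.Quotient.mk (Ideal.span {G}) (X i1)])
    (j : Fin n) (hB : AlgebraicIndependent ℂ (fun o : Option (Fin 2) =>
      o.elim (LaurentPolynomial.C (π (X j))) ![Fr π F i0, Fr π F i1])) :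
    ∃ q, p < q ∧ Dens F G q := by
  have hdB := dom_laurent R
  have hfB := ft_laurent R
  have hdQ : IsDomain (MvPolynomial (Fin 3) ℂ ⧸ Ideal.span {G}) := Ideal.Quotient.isDomain _
  set x : Option (Fin 2) → LaurentPolynomial R := fun o =>
      o.elim (LaurentPolynomial.C (π (X j))) ![Fr π F i0, Fr π F i1] with hx
  obtain ⟨h, hh0, hlift⟩ := H96.exists_lift (k := ℂ) (aeval x) (algebraicIndependent_iff_injective_aeval.1 hB)
  obtain ⟨P0, hP0⟩ : ∃ P : Option (Fin 2) → ℂ, eval P h ≠ 0 := by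
    by_contra hc
    push Not at hc
    exact hh0 (MvPolynomial.funext fun P => by rw [hc, map_zero])
  set τ := P0 none with hτ
  set h' : MvPolynomial (Fin 2) ℂ := aeval (fun o : Option (Fin 2) => o.elim (C τ) X) h with hh'
  have hev : ∀ P : Fin 2 → ℂ, eval P h' = aeval (fun o : Option (Fin 2) => o.elim τ P) h := by
    intro P
    rw [hh', ← coe_aeval_eq_eval, RingHom.coe_coe]
    have h1 : (aeval P).comp (aeval (fun o : Option (Fin 2) => o.elim (C τ) X)) =
        (aeval (fun o : Option (Fin 2) => o.elim τ P) : MvPolynomial (Option (Fin 2)) ℂ →ₐ[ℂ] ℂ) := by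
      refine MvPolynomial.algHom_ext fun o => ?_
      rw [AlgHom.comp_apply, aeval_X, aeval_X]
      cases o with
      | none =>
        change aeval P (C τ) = τ
        rw [aeval_C]
        rfl
      | some i =>
        change aeval P (X i) = P i
        rw [aeval_X]
    exact congrArg (fun g => g h) h1
  have hh'0 : h' ≠ 0 := by
    intro h0
    refine hP0 ?_
    have h1 := hev (fun i => P0 (some i))
    rw [h0, map_zero] at h1
    rw [← coe_aeval_eq_eval, RingHom.coe_coe]
    have h2 : (fun o : Option (Fin 2) => o.elim τ fun i => P0 (some i)) = P0 := by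
      funext o
      cases o <;> rfl
    rw [h2] at h1
    exact h1.symm
  refine ⟨p ⊔ Ideal.span {X j - C τ}, ?_, ?_⟩
  · refine lt_of_le_of_ne le_sup_left fun heq => ?_
    have h1 : X j - C τ ∈ p := by
      rw [heq]
      exact Ideal.mem_sup_right (Ideal.subset_span rfl)
    rw [← hker, map_sub, sub_eq_zero] at h1
    have h2 := hB.transcendental none
    refine h2 ?_
    change IsAlgebraic ℂ (LaurentPolynomial.C (π (X j)))
    rw [h1]
    have h3 : π (C τ) = algebraMap ℂ R τ := π.commutes τ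
    rw [h3]
    exact isAlgebraic_algebraMap (A := LaurentPolynomial R) τ
  · intro g hg
    by_contra hn
    have hg0 : Ideal.Quotient.mk (Ideal.span {G}) g ≠ 0 := by
      rw [Ne, Ideal.Quotient.eq_zero_iff_mem, Ideal.mem_span_singleton]
      exact hn
    obtain ⟨q, hq0, c, hc⟩ := exists_rel_of_basis htr hQ hg0
    obtain ⟨c, rfl⟩ := Ideal.Quotient.mk_surjective c
    have h1 : G ∣ aeval ![X i0, X i1] q - g * c := by
      rw [← Ideal.mem_span_singleton, ← Ideal.Quotient.eq_zero_iff_mem, map_sub, map_mul, ← hc,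
        sub_eq_zero]
      have h2 : (Ideal.Quotient.mkₐ ℂ (Ideal.span {G})).comp (aeval ![X i0, X i1]) =
          aeval ![Ideal.Quotient.mk (Ideal.span {G}) (X i0),
            Ideal.Quotient.mk (Ideal.span {G}) (X i1)] := by
        refine MvPolynomial.algHom_ext fun i => ?_
        rw [AlgHom.comp_apply, aeval_X, aeval_X]
        fin_cases i <;> rfl
      exact congrArg (fun g => g q) h2
    obtain ⟨P, hP⟩ : ∃ P : Fin 2 → ℂ, eval P (q * h') ≠ 0 := by
      by_contra hc
      push Not at hc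
      exact mul_ne_zero hq0 hh'0 (MvPolynomial.funext fun P => by rw [hc, map_zero])
    rw [map_mul, hev] at hP
    obtain ⟨ψ, hψ⟩ := hlift (aeval (fun o : Option (Fin 2) => o.elim τ P))
      (right_ne_zero_of_mul hP)
    have hψx : ∀ o, ψ (x o) = o.elim τ P := by
      intro o
      have h2 := congrArg (fun g => g (X o)) hψ
      simpa using h2
    have ht : ∀ f ∈ p ⊔ Ideal.span {X j - C τ}, eval (py π ψ) f = 0 := by
      intro f hf
      obtain ⟨y, hy, z, hz', rfl⟩ := Submodule.mem_sup.1 hf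
      obtain ⟨c, rfl⟩ := Ideal.mem_span_singleton.1 hz'
      have h2 : eval (py π ψ) (X j - C τ) = 0 := by
        rw [map_sub, eval_X, eval_C]
        have h3 : py π ψ j = τ := hψx none
        rw [h3, sub_self]
      rw [map_add, map_mul, h2, zero_mul, add_zero]
      exact py_mem π ψ y ((hker y).2 hy)
    have h2 := hg (py π ψ) ht (pt ψ)
    have h3 : famValue F (py π ψ) (pt ψ) ∈ V :=
      (hz (py π ψ) fun f hf => py_mem π ψ f ((hker f).2 hf)).1 (pt ψ)
    have h4 := ((hV _).1 h3).1
    obtain ⟨d, hd⟩ := h1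
    have h5 := congrArg (eval (famValue F (py π ψ) (pt ψ))) hd
    rw [map_sub, map_mul, map_mul, h2, h4, zero_mul, zero_mul, sub_zero] at h5
    refine left_ne_zero_of_mul hP ?_
    rw [← h5]
    have h6 : (aeval (famValue F (py π ψ) (pt ψ)) : MvPolynomial (Fin 3) ℂ →ₐ[ℂ] ℂ).comp
        (aeval ![X i0, X i1]) = aeval P := by
      refine MvPolynomial.algHom_ext fun i => ?_
      rw [AlgHom.comp_apply, aeval_X, aeval_X]
      have h7 : ∀ i, famValue F (py π ψ) (pt ψ) i = ψ (Fr π F i) := fun i => (psi_Fr π F ψ i).symm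
      fin_cases i
      · change aeval (famValue F (py π ψ) (pt ψ)) (X i0) = P 0
        rw [aeval_X, h7]
        exact hψx (some 0)
      · change aeval (famValue F (py π ψ) (pt ψ)) (X i1) = P 1
        rw [aeval_X, h7]
        exact hψx (some 1)
    have h8 := congrArg (fun g => g q) h6
    rw [← coe_aeval_eq_eval, ← coe_aeval_eq_eval]
    exact h8.symm

/-- **DOMF.** -/
theorem domf_main (hπ : Function.Surjective π) (hker : ∀ f, π f = 0 ↔ f ∈ p)
    (hV : ∀ P, P ∈ V ↔ eval P G = 0 ∧ ∃ i, eval P (b i) ≠ 0)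
    (hG : (Ideal.span {G}).IsPrime)
    (htr : Algebra.trdeg ℂ (MvPolynomial (Fin 3) ℂ ⧸ Ideal.span {G}) = 2)
    (hz : ∀ t : Fin n → ℂ, (∀ f ∈ p, eval t f = 0) → (∀ s : ℂˣ, famValue F t s ∈ V) ∧
      ∃ s s' : ℂˣ, famValue F t s ≠ famValue F t s')
    (hd : Dens F G p) (hmax : ∀ q, p < q → ¬ Dens F G q)
    (K : Type) [Field K] [Algebra ℂ K] [Algebra R K] [IsScalarTower ℂ R K] [IsFractionRing R K] :
    (∃ s : Finset K, IntermediateField.adjoin ℂ (s : Set K) = ⊤) ∧ Algebra.trdeg ℂ K = 1 ∧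
    (∀ h : MvPolynomial (Fin 3) ℂ, aeval (fun i => lmap R K (Fr π F i)) h = 0 ↔ G ∣ h) ∧
    (∃ α : Fin 2 → LaurentPolynomial K,
      ∑ i, α i * aeval (fun i => lmap R K (Fr π F i)) (b i) = 1) ∧
    ∃ i, ∀ c : K, lmap R K (Fr π F i) ≠ LaurentPolynomial.C c := by
  classical
  have hdB := dom_laurent R
  have hfB := ft_laurent R
  have hdQ : IsDomain (MvPolynomial (Fin 3) ℂ ⧸ Ideal.span {G}) := Ideal.Quotient.isDomain _
  have hRK : Function.Injective (algebraMap R K) := IsFractionRing.injective R K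
  have hli := lmap_injective R K hRK
  have hri := lrat_injective K
  have hgh : ∀ h : MvPolynomial (Fin 3) ℂ, aeval (fun i => lmap R K (Fr π F i)) h =
      lmap R K (aeval (Fr π F) h) := by
    intro h
    have h1 : (lmap R K).comp (aeval (Fr π F)) = aeval (fun i => lmap R K (Fr π F i)) := by
      refine MvPolynomial.algHom_ext fun i => ?_
      rw [AlgHom.comp_apply, aeval_X, aeval_X]
    exact (congrArg (fun g => g h) h1).symm
  have hk := aeval_Fr_eq_zero_iff hπ hker hV hz hd
  have hnc := exists_nonconst hπ hker hz K hRK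
  have hkK : ∀ h : MvPolynomial (Fin 3) ℂ,
      aeval (fun i => lmap R K (Fr π F i)) h = 0 ↔ G ∣ h := by
    intro h
    rw [hgh, ← hk h]
    exact map_eq_zero_iff _ hli
  -- generators of `K`
  set T : Set K := Set.range (fun j => algebraMap R K (π (X j))) with hT
  have hTtop : IntermediateField.adjoin ℂ T = ⊤ := by
    have h1 : ∀ r : R, algebraMap R K r ∈ IntermediateField.adjoin ℂ T := by
      intro r
      obtain ⟨f, rfl⟩ := hπ r
      have h2 : algebraMap R K (π f) = aeval (fun j => algebraMap R K (π (X j))) f := by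
        have h3 : ((IsScalarTower.toAlgHom ℂ R K).comp π) =
            aeval (fun j => algebraMap R K (π (X j))) := by
          refine MvPolynomial.algHom_ext fun i => ?_
          rw [aeval_X]
          rfl
        exact congrArg (fun g => g f) h3
      rw [h2]
      have h4 : aeval (fun j => algebraMap R K (π (X j))) f ∈ Algebra.adjoin ℂ T := by
        rw [hT, Algebra.adjoin_range_eq_range_aeval]
        exact ⟨f, rfl⟩
      exact IntermediateField.algebra_adjoin_le_adjoin ℂ T h4
    rw [eq_top_iff]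
    rintro z -
    obtain ⟨x, y, -, rfl⟩ := IsFractionRing.div_surjective (A := R) z
    exact div_mem (h1 x) (h1 y)
  refine ⟨⟨Finset.univ.image (fun j => algebraMap R K (π (X j))), ?_⟩, ?_, hkK, ?_, hnc⟩
  · rw [← hTtop, hT]
    congr 1
    ext z
    simp
  · obtain ⟨i0, hi0⟩ := hnc
    set κ : LaurentPolynomial R →ₐ[ℂ] RatFunc K := (lrat K).comp (lmap R K) with hκ
    have hκi : Function.Injective κ := hri.comp hli
    have ha : ¬ ∃ c, κ (Fr π F i0) = RatFunc.C c := by
      rintro ⟨c, hc⟩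
      refine hi0 c (hri ?_)
      rw [lrat_C]
      exact hc
    -- the coordinate ring of the surface
    let ρ : (MvPolynomial (Fin 3) ℂ ⧸ Ideal.span {G}) →ₐ[ℂ] LaurentPolynomial R :=
      Ideal.Quotient.liftₐ (Ideal.span {G}) (aeval (Fr π F)) fun h hh =>
        (hk h).2 (Ideal.mem_span_singleton.1 hh)
    have hρ : ∀ h, ρ (Ideal.Quotient.mk (Ideal.span {G}) h) = aeval (Fr π F) h := fun h => rfl
    have hρX : ∀ i, ρ (Ideal.Quotient.mk (Ideal.span {G}) (X i)) = Fr π F i := fun i => by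
      rw [hρ, aeval_X]
    have hρi : Function.Injective ρ := by
      rw [injective_iff_map_eq_zero]
      intro z hz0
      obtain ⟨h, rfl⟩ := Ideal.Quotient.mk_surjective z
      rw [hρ, hk] at hz0
      rw [Ideal.Quotient.eq_zero_iff_mem, Ideal.mem_span_singleton]
      exact hz0
    have htrs : Transcendental ℂ (Ideal.Quotient.mk (Ideal.span {G}) (X i0)) := by
      intro halg
      have h1 : IsAlgebraic ℂ (κ (Fr π F i0)) := by
        rw [← hρX i0]
        exact (isAlgebraic_algHom_iff κ hκi).2 ((isAlgebraic_algHom_iff ρ hρi).2 halg)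
      exact (RatFunc.transcendental_of_ne_C (κ (Fr π F i0)) ha)
        (h1.extendScalars (algebraMap ℂ K).injective)
    have hgen : Algebra.adjoin ℂ (Set.range fun i : Fin 3 =>
        Ideal.Quotient.mk (Ideal.span {G}) (X i)) = ⊤ := by
      rw [eq_top_iff]
      rintro z -
      obtain ⟨h, rfl⟩ := Ideal.Quotient.mk_surjective z
      rw [Algebra.adjoin_range_eq_range_aeval]
      refine ⟨h, ?_⟩
      have h2 : Ideal.Quotient.mkₐ ℂ (Ideal.span {G}) =
          aeval (fun i => Ideal.Quotient.mk (Ideal.span {G}) (X i)) := by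
        refine MvPolynomial.algHom_ext fun i => ?_
        rw [aeval_X]
        rfl
      exact (congrArg (fun g => g h) h2).symm
    obtain ⟨i1, hi1⟩ := exists_basis _ hgen htr i0 htrs
    have hindB : AlgebraicIndependent ℂ ![Fr π F i0, Fr π F i1] := by
      have h1 := hi1.map' hρi
      convert h1 using 1
      funext i
      fin_cases i
      · exact (hρX i0).symm
      · exact (hρX i1).symm
    have hindE : AlgebraicIndependent ℂ ![κ (Fr π F i0), κ (Fr π F i1)] := by
      have h1 := hindB.map' hκi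
      convert h1 using 1
      funext i
      fin_cases i <;> rfl
    refine trdeg_one_of_alg T hTtop (κ (Fr π F i0)) (κ (Fr π F i1)) ha hindE ?_
    rintro _ ⟨j, rfl⟩
    have hκC : algebraMap K (RatFunc K) (algebraMap R K (π (X j))) =
        κ (LaurentPolynomial.C (π (X j))) := by
      have h1 : lmap R K (LaurentPolynomial.C (π (X j))) =
          LaurentPolynomial.C (algebraMap R K (π (X j))) := by
        rw [lmap_apply, LaurentPolynomial.eval₂_C]
        rfl
      rw [hκ, AlgHom.comp_apply, h1, lrat_C]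
      rfl
    refine isAlgebraic_of_not_indep hindE fun hc => ?_
    have hB : AlgebraicIndependent ℂ (fun o : Option (Fin 2) =>
        o.elim (LaurentPolynomial.C (π (X j))) ![Fr π F i0, Fr π F i1]) := by
      refine AlgebraicIndependent.of_comp κ ?_
      have h1 : (κ ∘ fun o : Option (Fin 2) =>
          o.elim (LaurentPolynomial.C (π (X j))) ![Fr π F i0, Fr π F i1]) =
          fun o => o.elim (algebraMap K (RatFunc K) (algebraMap R K (π (X j))))
            ![κ (Fr π F i0), κ (Fr π F i1)] := by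
        funext o
        cases o with
        | none => exact hκC.symm
        | some i => fin_cases i <;> rfl
      rw [h1]
      exact hc
    obtain ⟨q, hq1, hq2⟩ := dens_step hker hV hG htr hz hi1 j hB
    exact hmax q hq1 hq2
  · have h1 : ∃ α : Fin 2 → LaurentPolynomial R, ∑ i, α i * aeval (Fr π F) (b i) = 1 := by
      by_cases htop : Ideal.span {aeval (Fr π F) (b 0), aeval (Fr π F) (b 1)} = ⊤
      · have h2 : (1 : LaurentPolynomial R) ∈
            Ideal.span {aeval (Fr π F) (b 0), aeval (Fr π F) (b 1)} := by rw [htop]; trivial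
        obtain ⟨u, v, huv⟩ := Ideal.mem_span_pair.1 h2
        refine ⟨![u, v], ?_⟩
        rw [Fin.sum_univ_two]
        exact huv
      · exfalso
        obtain ⟨M, hM, hle⟩ := Ideal.exists_le_maximal _ htop
        obtain ⟨ψ, hψ⟩ := H96.exists_pt (k := ℂ) M
        have h3 := (hz (py π ψ) fun f hf => py_mem π ψ f ((hker f).2 hf)).1 (pt ψ)
        obtain ⟨-, i, hi⟩ := (hV _).1 h3
        refine hi ?_
        rw [← psi_aeval]
        have h4 : ∀ i, aeval (Fr π F) (b i) ∈ M := by
          intro i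
          refine hle (Ideal.subset_span ?_)
          fin_cases i
          · exact Set.mem_insert _ _
          · exact Set.mem_insert_of_mem _ rfl
        have h5 := h4 i
        rw [← hψ] at h5
        exact h5
    obtain ⟨α, hα⟩ := h1
    refine ⟨fun i => lmap R K (α i), ?_⟩
    have h2 := congrArg (lmap R K) hα
    rw [map_sum, map_one] at h2
    rw [← h2]
    refine Finset.sum_congr rfl fun i _ => ?_
    rw [map_mul, hgh]

end

end LCY.H26

/-- **DOMF.** -/
theorem LCY.st_DOMF : LCY.ST_DOMF := by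
  intro V G b hV hne hG htr hdom
  obtain ⟨n, J, F, hJ, hden⟩ := hdom
  have hsp : ∀ t : Fin n → ℂ, (∀ f ∈ Ideal.span J, eval t f = 0) ↔ ∀ f ∈ J, eval t f = 0 := by
    intro t
    constructor
    · exact fun h f hf => h f (Ideal.subset_span hf)
    · intro h f hf
      have h1 : Ideal.span J ≤ RingHom.ker (eval t) := Ideal.span_le.2 fun f hf => h f hf
      exact h1 hf
  have hD : LCY.H26.Dens F G (Ideal.span J) := fun g hg =>
    LCY.H26.dvd_of_vanish G hV hne hG g (hden g fun t ht s => hg t ((hsp t).2 ht) s)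
  obtain ⟨p, hp1, hp2, hp3, hmax⟩ := LCY.H26.exists_maximal F G hD hG
  have hz : ∀ t : Fin n → ℂ, (∀ f ∈ p, eval t f = 0) → (∀ s : ℂˣ, famValue F t s ∈ V) ∧
      ∃ s s' : ℂˣ, famValue F t s ≠ famValue F t s' := fun t ht =>
    hJ t ((hsp t).1 fun f hf => ht f (hp1 hf))
  have h1 := LCY.H26.domf_main (p := p) (R := MvPolynomial (Fin n) ℂ ⧸ p)
    (π := Ideal.Quotient.mkₐ ℂ p) (Ideal.Quotient.mkₐ_surjective ℂ p)
    (fun f => Ideal.Quotient.eq_zero_iff_mem) hV hG htr hz hp2 hmax
    (FractionRing (MvPolynomial (Fin n) ℂ ⧸ p))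
  exact ⟨FractionRing (MvPolynomial (Fin n) ℂ ⧸ p), inferInstance, inferInstance, _, h1⟩
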