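import Mathlib
import Pool.Agent.Helper26.LC.CB3
import Pool.Agent.Helper26.LC.FamStmts
import Pool.Agent.Helper98.LCY.Abh
import Pool.Agent.Helper99.LCY.Ram
import Pool.Agent.Helper73.LCY.DerE

/-!
The etale lemma for families over fields of transcendence degree one.
-/

open Polynomial

namespace LCY

noncomputable section

theorem goodWt_of {L : Type} [Field L] [Algebra ℂ L] (htr : Algebra.trdeg ℂ L = 2)
    (hfg : ∃ s : Finset L, IntermediateField.adjoin ℂ (s : Set L) = ⊤) (ω : Bracket L)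
    (v : DVal L) {k : ℤ} (hk : ω.Wt v k) : GoodWt ω v k := by
  obtain ⟨h1, h2, -⟩ := H73.wt_all htr hfg ω v hk
  exact ⟨h1, fun t a ht ha => h2 t a (DVal.resTr_int26 v ht) ha⟩

theorem aeval_ratX {K : Type} [Field K] (a : K[X]) :
    aeval (RatFunc.X : RatFunc K) a = algebraMap K[X] (RatFunc K) a := by
  rw [← RatFunc.algebraMap_X, aeval_algebraMap_apply, aeval_X_left_apply]

theorem rul_ratFunc (K : Type) [Field K] : Rul K (RatFunc.X : RatFunc K) := by
  constructor
  · intro a ha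
    rw [aeval_ratX, FaithfulSMul.algebraMap_eq_zero_iff] at ha
    exact ha
  · intro z
    refine ⟨z.num, z.denom, z.denom_ne_zero, ?_⟩
    rw [aeval_ratX, aeval_ratX, RatFunc.num_div_denom]

theorem fg_ratFunc (K : Type) [Field K] [Algebra ℂ K]
    (h : ∃ s : Finset K, IntermediateField.adjoin ℂ (s : Set K) = ⊤) :
    ∃ s : Finset (RatFunc K), IntermediateField.adjoin ℂ (s : Set (RatFunc K)) = ⊤ := by
  classical
  obtain ⟨s, hs⟩ := h
  refine ⟨insert RatFunc.X (s.image (algebraMap K (RatFunc K))), ?_⟩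
  rw [eq_top_iff]
  rintro z -
  set F := IntermediateField.adjoin ℂ
    (((insert RatFunc.X (s.image (algebraMap K (RatFunc K)))) : Finset (RatFunc K)) :
      Set (RatFunc K)) with hF
  have hX : RatFunc.X ∈ F := IntermediateField.subset_adjoin _ _ (by simp)
  have hK : ∀ e : K, algebraMap K (RatFunc K) e ∈ F := by
    intro e
    have h1 : e ∈ IntermediateField.adjoin ℂ (s : Set K) := by rw [hs]; trivial
    have h3 := IntermediateField.adjoin_map ℂ (s : Set K) (IsScalarTower.toAlgHom ℂ K (RatFunc K))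
    have h2 : (IsScalarTower.toAlgHom ℂ K (RatFunc K)) e ∈
      (IntermediateField.adjoin ℂ (s : Set K)).map (IsScalarTower.toAlgHom ℂ K (RatFunc K)) :=
      ⟨e, h1, rfl⟩
    rw [h3] at h2
    refine IntermediateField.adjoin.mono _ _ _ ?_ h2
    intro y hy
    simp only [Finset.coe_insert, Finset.coe_image]
    exact Set.mem_insert_of_mem _ hy
  have hp : ∀ a : K[X], algebraMap K[X] (RatFunc K) a ∈ F := by
    intro a
    rw [← aeval_ratX, aeval_eq_sum_range]
    refine sum_mem fun j _ => ?_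
    rw [Algebra.smul_def]
    exact mul_mem (hK _) (pow_mem hX _)
  rw [← RatFunc.num_div_denom z]
  exact div_mem (hp _) (hp _)

theorem trdeg_ratFunc2 (K : Type) [Field K] [Algebra ℂ K] (h : Algebra.trdeg ℂ K = 1) :
    Algebra.trdeg ℂ (RatFunc K) = 2 := by
  have h1 := _root_.trdeg_add_eq ℂ K (A := RatFunc K)
  rw [← h1, h, H98.trdeg_ratFunc]
  norm_num

theorem int_iff_regAtT {K : Type} [Field K] [Algebra ℂ K] {P : K[X]} (hP : Irreducible P)
    {v : DVal (RatFunc K)}
    (hv : ∀ a : K[X], a ≠ 0 → v.v (aeval (RatFunc.X : RatFunc K) a) = multiplicity P a)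
    (z : RatFunc K) : v.Int z ↔ RegAtT P z := by
  have hR := rul_ratFunc K
  constructor
  · intro hz
    obtain ⟨a, b, hb, h1, -⟩ := hR.int_iff hP hv z hz
    exact ⟨a, b, hb, by rw [h1, aeval_ratX, aeval_ratX]⟩
  · rintro ⟨a, b, hb, h1⟩
    by_cases ha : a = 0
    · left
      rw [h1, ha, map_zero, zero_div]
    · right
      have hb0 : b ≠ 0 := by
        rintro rfl
        exact hb (dvd_zero _)
      rw [h1, ← aeval_ratX, ← aeval_ratX, hR.val_div hv ha hb0, mult_eq_zero hb]
      simp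

theorem exists_trans {K : Type} [Field K] [Algebra ℂ K] (h : Algebra.trdeg ℂ K = 1) :
    ∃ s : K, Transcendental ℂ s := by
  by_contra hc
  push Not at hc
  have : Algebra.IsAlgebraic ℂ K := ⟨fun s => by
    have := hc s
    rwa [Transcendental, not_not] at this⟩
  have h1 := _root_.trdeg_eq_zero (R := ℂ) (A := K)
  rw [h1] at h
  exact zero_ne_one h

theorem st_ET1 : ST_ET1 := by
  intro L _ _ ω R K _ _ i hfgL htrL hfgK htrK hm1 _ hpl P0 hP0 hX0
  letI : Algebra L (RatFunc K) := i.toRingHom.toAlgebra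
  haveI : IsScalarTower ℂ L (RatFunc K) :=
    IsScalarTower.of_algebraMap_eq fun c => (i.commutes c).symm
  have hmap : ∀ z, algebraMap L (RatFunc K) z = i z := fun z => rfl
  have htr' := trdeg_ratFunc2 K htrK
  haveI : Algebra.IsAlgebraic L (RatFunc K) := by
    have h1 := _root_.trdeg_add_eq ℂ L (A := RatFunc K)
    rw [htrL, htr'] at h1
    have h2 : Algebra.trdeg L (RatFunc K) = 0 := by
      have h3 : (2 : Cardinal) + Algebra.trdeg L (RatFunc K) = 2 + 0 := by rw [h1, add_zero]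
      exact Cardinal.eq_of_add_eq_add_left h3 (Cardinal.ofNat_lt_aleph0)
    exact _root_.trdeg_eq_zero_iff.1 h2
  have hfg' := fg_ratFunc K hfgK
  have hR := rul_ratFunc K
  haveI : CharZero K := charZero_of_injective_algebraMap (algebraMap ℂ K).injective
  obtain ⟨s, hs⟩ := exists_trans htrK
  set ω' := ω.ext (RatFunc K) with hω'
  have hbr := br_eq_zero (L := RatFunc K) htrK ω' hs
  have hg : ω'.br (algebraMap K (RatFunc K) s) RatFunc.X ≠ 0 :=
    Bracket.ne_zero_of_indep htr' ω' (hR.indep hs)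
  have hginv : ω'.br (algebraMap K (RatFunc K) s) RatFunc.X⁻¹ ≠ 0 :=
    Bracket.ne_zero_of_indep htr' ω' (hR.inv.indep hs)
  set β := ω'.br (algebraMap K (RatFunc K) s) RatFunc.X with hβ
  have hX : (RatFunc.X : RatFunc K) ≠ 0 := RatFunc.X_ne_zero
  -- restriction of places
  have key : ∀ (v' : DVal (RatFunc K)) (k' : ℤ), ω'.Wt v' k' → ∃ (e : ℤ) (v : DVal L) (k : ℤ),
      DVal.Over v' e v ∧ ω.Wt v k ∧ k' + 1 = e * (k + 1) := by
    intro v' k' hk'
    obtain ⟨e, v, ho⟩ := DVal.exists_restrict (L := L) v'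
    obtain ⟨k, hk⟩ := H73.exists_wt htrL hfgL ω v
    exact ⟨e, v, k, ho, hk, wt_over (goodWt_of htrL hfgL ω v hk)
      (goodWt_of htr' hfg' ω' v' hk') ho⟩
  -- all weights are at least -1
  have hge : ∀ (v' : DVal (RatFunc K)) (k' : ℤ), ω'.Wt v' k' → -1 ≤ k' := by
    intro v' k' hk'
    obtain ⟨e, v, k, ho, hk, he⟩ := key v' k' hk'
    have h1 := hm1 v k hk
    have h2 : 0 ≤ e * (k + 1) := mul_nonneg ho.1.le (by linarith)
    linarith
  -- places away from zero
  have hge0 : ∀ (P : K[X]), Irreducible P → ¬ P ∣ X → ∀ v' : DVal (RatFunc K),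
      (∀ a : K[X], a ≠ 0 → v'.v (aeval (RatFunc.X : RatFunc K) a) = multiplicity P a) →
      ∀ k' : ℤ, ω'.Wt v' k' → ∃ (e : ℤ) (v : DVal L) (k : ℤ), 0 < e ∧
        (∀ z, v.Int z ↔ RegAtT P (i z)) ∧ ω.Wt v k ∧ k' + 1 = e * (k + 1) ∧
        (AtPoint R v → 1 ≤ k) ∧ (¬ AtPoint R v → 0 ≤ k) := by
    intro P hP hPX v' hv' k' hk'
    obtain ⟨e, v, k, ho, hk, he⟩ := key v' k' hk'
    have h1 : ∀ z, v.Int z ↔ RegAtT P (i z) := by
      intro z
      rw [← ho.int_iff, hmap]
      exact int_iff_regAtT hP hv' _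
    exact ⟨e, v, k, ho.1, h1, hk, he, hpl P hP hPX v k h1 hk⟩
  have hwtP : ∀ (P : K[X]), Irreducible P → ∀ v' : DVal (RatFunc K),
      (∀ a : K[X], a ≠ 0 → v'.v (aeval (RatFunc.X : RatFunc K) a) = multiplicity P a) →
      ω'.Wt v' (- v'.v β) := fun P hP v' hv' => hR.wt hP hv' hs ω' hbr hg
  -- the function `X / β` is a polynomial
  have hγ : (RatFunc.X : RatFunc K) / β ≠ 0 := div_ne_zero hX hg
  obtain ⟨G, hG0, hG⟩ := exists_poly hR hγ (fun P hP v' hv' => by
    have h1 := hwtP P hP v' hv'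
    rw [v'.map_div hX hg]
    have hXv : v'.v (RatFunc.X : RatFunc K) = multiplicity P (X : K[X]) := by
      have := hv' X X_ne_zero
      rwa [aeval_X] at this
    by_cases hPX : P ∣ X
    · have h2 := hge v' _ h1
      have h3 : 1 ≤ multiplicity P (X : K[X]) := by
        have hfin := FiniteMultiplicity.of_prime_left hP.prime (X_ne_zero (R := K))
        exact hfin.le_multiplicity_of_pow_dvd (by rwa [pow_one])
      rw [hXv]
      have h4 : (1 : ℤ) ≤ (multiplicity P (X : K[X]) : ℤ) := by exact_mod_cast h3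
      linarith
    · obtain ⟨e, v, k, he0, -, -, he, h3, h4⟩ := hge0 P hP hPX v' hv' _ h1
      have hk0 : 0 ≤ k := by
        by_cases hA : AtPoint R v
        · have := h3 hA
          linarith
        · exact h4 hA
      have h5 : 1 ≤ e * (k + 1) := by nlinarith
      rw [hXv]
      have h6 : (0 : ℤ) ≤ (multiplicity P (X : K[X]) : ℤ) := by positivity
      linarith) hs
  -- infinity
  obtain ⟨w, hw⟩ := hR.inv.exists_dval irreducible_X hs
  have hdeg : G.natDegree = 0 := by
    have h1 := hR.inv.wt irreducible_X hw hs ω' hbr hginv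
    have h2 := hge w _ h1
    have hXw : w.v (RatFunc.X : RatFunc K) = -1 := by
      have := hR.val_inf hw (X_ne_zero (R := K))
      rw [aeval_X, natDegree_X] at this
      rw [this]; rfl
    have h3 : ω'.br (algebraMap K (RatFunc K) s) RatFunc.X⁻¹ = - (β / RatFunc.X ^ 2) := by
      have h4 : ω'.br (algebraMap K (RatFunc K) s) (RatFunc.X * RatFunc.X⁻¹) = 0 := by
        rw [mul_inv_cancel₀ hX, ← map_one (algebraMap ℂ (RatFunc K)), ω'.skew, ω'.const_left,
          neg_zero]
      rw [ω'.mul_right] at h4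
      rw [← hβ] at h4
      field_simp at h4 ⊢
      linear_combination h4
    have h5 : w.v (ω'.br (algebraMap K (RatFunc K) s) RatFunc.X⁻¹) = w.v β + 2 := by
      rw [h3, w.map_neg (div_ne_zero hg (pow_ne_zero _ hX)), w.map_div hg (pow_ne_zero _ hX),
        w.map_pow hX, hXw]
      push_cast
      ring
    rw [h5] at h2
    have h6 := hR.val_inf hw hG0
    rw [← hG, w.map_div hX hg, hXw] at h6
    omega
  obtain ⟨κ, rfl⟩ : ∃ κ : K, G = C κ := ⟨_, eq_C_of_natDegree_eq_zero hdeg⟩
  -- conclusion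
  obtain ⟨v', hv'⟩ := hR.exists_dval hP0 hs
  have h1 := hwtP P0 hP0 v' hv'
  have hκ : κ ≠ 0 := fun h0 => hG0 (by rw [h0, C_0])
  have h2 : v'.v β = 0 := by
    have h3 := hv' (C κ) hG0
    rw [← hG, v'.map_div hX hg, mult_C hP0 hκ] at h3
    have hXv : v'.v (RatFunc.X : RatFunc K) = multiplicity P0 (X : K[X]) := by
      have := hv' X X_ne_zero
      rwa [aeval_X] at this
    rw [mult_eq_zero hX0] at hXv
    push_cast at h3 hXv
    linarith
  rw [h2, neg_zero] at h1
  obtain ⟨e, v, k, he0, hint, hwt, he, h3, h4⟩ := hge0 P0 hP0 hX0 v' hv' _ h1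
  have hk0 : 0 ≤ k := by
    by_cases hA : AtPoint R v
    · have := h3 hA
      linarith
    · exact h4 hA
  have hk1 : k = 0 := by
    by_contra hne
    have : 1 ≤ k := by omega
    nlinarith
  subst hk1
  refine ⟨v, hint, fun hA => ?_, hwt⟩
  have := h3 hA
  omega

end

end LCY
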