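import Mathlib
import Pool.Agent.Helper27.LCY.Defs

/-!
Families of images of the multiplicative group in valuation form: a field `K`, an embedding of the
function field of `Y` into `K(s)`, such that every closed point of the multiplicative group over `K`
has generic centre on `Y` or its centre is a curve not in `D`.
-/

open MvPolynomial

namespace LCY

noncomputable section

/-- The rational function `r` over `K` is regular at the closed point `P` of the affine line. -/
def RegAt {K : Type} [Field K] (P : Polynomial K) (r : RatFunc K) : Prop :=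
  ∃ a b : Polynomial K, ¬ P ∣ b ∧
    r = algebraMap (Polynomial K) (RatFunc K) a / algebraMap (Polynomial K) (RatFunc K) b

/-- A family of images of the multiplicative group, in valuation form. -/
structure GmFamily {N : ℕ} (Y : Var N) (D : Set (Var N)) (K : Type) [Field K] [Algebra ℂ K]
    (i : Y.L →ₐ[ℂ] RatFunc K) : Prop where
  nonconst : ∃ z : Y.L, ∀ c : K, i z ≠ algebraMap (Polynomial K) (RatFunc K) (Polynomial.C c)
  center : ∀ P : Polynomial K, Irreducible P → ¬ P ∣ Polynomial.X →
    (∀ z, RegAt P (i z)) ∨ ∃ C, Y.IsCurveOn C ∧ C ∉ D ∧ ∀ z : Y.L, z ∈ Y.locRing C.I ↔ RegAt P (i z)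

variable {N : ℕ}

/-! ### Homogeneous polynomials and the function field -/

theorem aeval_smul_of_homog {R : Type*} [CommRing R] [Algebra ℂ R] (x : Fin (N + 1) → R) (c : R)
    {n : ℕ} {f : S N} (hf : f.IsHomogeneous n) :
    aeval (fun i => c * x i) f = c ^ n * aeval x f := by
  classical
  rw [aeval_def, aeval_def, eval₂_eq', eval₂_eq', Finset.mul_sum]
  refine Finset.sum_congr rfl fun d hd => ?_
  have hdeg : d.degree = n := by
    have := hf (mem_support_iff.1 hd)
    rw [Finsupp.degree_eq_weight_one]
    exact this
  have : ∏ i, (c * x i) ^ d i = c ^ n * ∏ i, x i ^ d i := by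
    simp_rw [mul_pow]
    rw [Finset.prod_mul_distrib, Finset.prod_pow_eq_pow_sum]
    congr 2
    rw [← hdeg, Finsupp.degree_eq_sum]
  rw [this]; ring

theorem Var.cls_eq_aeval (Y : Var N) (f : S N) :
    Y.cls f = aeval (fun i => Y.cls (X i)) f := by
  have : (Algebra.ofId (S N ⧸ Y.I) Y.K |>.restrictScalars ℂ).comp (Ideal.Quotient.mkₐ ℂ Y.I) =
      aeval (fun i => Y.cls (X i)) := by
    ext i
    simp [Var.cls, Algebra.ofId_apply]
  have h := congrArg (fun φ => φ f) this
  simpa [Var.cls, Algebra.ofId_apply] using h

end

end LCY
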