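import Mathlib
import Pool.Agent.Helper26.LC.FamStmts2

/-!
Statements of rows of the block FAMILIES (MP_f7e214_ag): trivial torsion, `k ≥ 3`.
-/

open Polynomial

namespace LCY

noncomputable section

variable {L : Type} [Field L] [Algebra ℂ L]

/-- The left side minus the right side of the Weierstrass equation, at the coordinates `S`. -/
def weiF (S : Coord L) (A B : ℂ) : L :=
  S.y ^ 2 - S.x ^ 3 - algebraMap ℂ L A * S.x - algebraMap ℂ L B

/-- Output of T0PT: the plane with affine coordinates `S` in which the divisor of poles of the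
2-form is a Weierstrass cubic (not cuspidal); all other curves of the affine plane and the last
of `k` exceptional curves over the flex at infinity are not contracted and have weight zero. -/
structure WeiOut {N : ℕ} (ω : Bracket L) (x : Fin (N + 1) → L) (k : ℕ) (S : Coord L)
    (c A B : ℂ) : Prop where
  hc : c ≠ 0
  hAB : A ≠ 0 ∨ B ≠ 0
  br : ω.br S.x S.y = algebraMap ℂ L c * weiF S A B
  pl : ∀ (g : ℂ[X][X]) (v : DVal L), Irreducible g →
    ¬ g ∣ (X ^ 2 - C (X ^ 3 + C A * X + C B) : ℂ[X][X]) → IsPlaceOf S g v → CYp ω x v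
  exc : ∀ v : DVal L, v.v S.y < 0 → v.v (S.x / S.y) = 1 → v.v (weiF S A B / S.y ^ 3) = k →
    ResTr v.v (weiF S A B / S.y ^ 3 / (S.x / S.y) ^ k) → CYp ω x v

/-- T0FAM. Families for `k ≥ 3` (from RankOne, DOMF and ET1): the surfaces
`y² = x³ + A x z⁴ + B z⁶ + z ^ (k - 3)`. -/
def ST_T0FAM : Prop := ∀ (L : Type) [Field L] [Algebra ℂ L] (N : ℕ) (ω : Bracket L)
  (x : Fin (N + 1) → L), Adm ω x → ∀ (k : ℕ) (S : Coord L) (c A B : ℂ), 3 ≤ k → k ≤ 8 →
  WeiOut ω x k S c A B → Fam ω x

end

end LCY
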