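import Mathlib
import Pool.Agent.Helper26.LC.Fam

/-!
Coordinates of a family of images of the multiplicative group.
-/

open MvPolynomial

namespace LCY

noncomputable section

/-- A tuple of rational functions, one of them 1, has coprime polynomial coordinates. -/
theorem exists_coprime_rep {K : Type} [Field K] {n : ℕ} (r : Fin (n + 1) → RatFunc K)
    (j : Fin (n + 1)) (hj : r j = 1) :
    ∃ g a : Fin (n + 1) → Polynomial K, g j ≠ 0 ∧
      (∀ k, r k = algebraMap (Polynomial K) (RatFunc K) (g k) /
        algebraMap (Polynomial K) (RatFunc K) (g j)) ∧ ∑ k, a k * g k = 1 := by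
  classical
  obtain ⟨⟨b, hb⟩, hbr⟩ := IsLocalization.exist_integer_multiples_of_finset
    (nonZeroDivisors (Polynomial K)) (Finset.univ.image r)
  have hb0 : b ≠ 0 := nonZeroDivisors.ne_zero hb
  have hbi : algebraMap (Polynomial K) (RatFunc K) b ≠ 0 := by
    rwa [Ne, FaithfulSMul.algebraMap_eq_zero_iff]
  have h1 : ∀ k, ∃ c : Polynomial K, algebraMap (Polynomial K) (RatFunc K) c =
      algebraMap (Polynomial K) (RatFunc K) b * r k := by
    intro k
    obtain ⟨c, hc⟩ := hbr (r k) (Finset.mem_image_of_mem _ (Finset.mem_univ _))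
    refine ⟨c, ?_⟩
    rw [hc]
    simp [Algebra.smul_def]
  choose c hc using h1
  obtain ⟨d, hd⟩ := (IsPrincipalIdealRing.principal (Ideal.span (Set.range c))).principal
  have hcj : c j ≠ 0 := by
    intro h
    have := hc j
    rw [h, map_zero, hj, mul_one] at this
    exact hbi this.symm
  have hdvd : ∀ k, d ∣ c k := by
    intro k
    have : c k ∈ Ideal.span (Set.range c) := Ideal.subset_span ⟨k, rfl⟩
    rw [hd] at this
    exact Ideal.mem_span_singleton.1 this
  choose g hg using hdvd
  have hd0 : d ≠ 0 := by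
    rintro rfl
    exact hcj (by rw [hg j, zero_mul])
  have hdm : d ∈ Ideal.span (Set.range c) := by
    rw [hd]; exact Ideal.mem_span_singleton_self d
  obtain ⟨a, ha⟩ := (Ideal.mem_span_range_iff_exists_fun).1 hdm
  refine ⟨g, a, ?_, ?_, ?_⟩
  · intro h
    exact hcj (by rw [hg j, h, mul_zero])
  · intro k
    have hdi : algebraMap (Polynomial K) (RatFunc K) d ≠ 0 := by
      rwa [Ne, FaithfulSMul.algebraMap_eq_zero_iff]
    have hk := hc k
    have hj' := hc j
    rw [hj, mul_one, hg j, map_mul] at hj'
    rw [hg k, map_mul, ← hj', mul_assoc] at hk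
    have h2 := mul_left_cancel₀ hdi hk
    rw [h2, mul_comm, mul_div_assoc, div_self, mul_one]
    intro h
    rw [h, mul_zero] at hj'
    exact hbi hj'.symm
  · have : d * ∑ k, a k * g k = d * 1 := by
      rw [mul_one, Finset.mul_sum]
      conv_rhs => rw [← ha]
      refine Finset.sum_congr rfl fun k _ => ?_
      rw [hg k]; ring
    exact mul_left_cancel₀ hd0 this

/-- Elements of a finite set lie in the image of a polynomial ring. -/
theorem exists_gens {K : Type} [Field K] [Algebra ℂ K] (s : Finset K) :
    ∃ (n : ℕ) (y : Fin n → K), ∀ x ∈ s, ∃ p : MvPolynomial (Fin n) ℂ, aeval y p = x := by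
  classical
  refine ⟨s.card, fun k => (s.equivFin.symm k : K), fun x hx => ⟨X (s.equivFin ⟨x, hx⟩), ?_⟩⟩
  simp

end

end LCY
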