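import Mathlib
import Pool.Agent.Helper26.LC.FinA

/-!
The evaluation of forms along a family, and the general position of the family.
-/

open MvPolynomial

namespace LCY

noncomputable section

variable {N : ℕ} {Y : Var N} {K : Type} [Field K] [Algebra ℂ K]

/-- The coordinate function `X k / X j` in the function field. -/
def Var.coo (Y : Var N) (j : Fin (N + 1)) (hj : (X j : S N) ∉ Y.I) (k : Fin (N + 1)) : Y.L :=
  ⟨Y.cls (X k) / Y.cls (X j), 1, X k, X j, isHomogeneous_X _ _, isHomogeneous_X _ _, hj, hj, rfl⟩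

/-- The tuple `g` of polynomials gives the coordinates of the map `i`. -/
structure Coords (Y : Var N) (i : Y.L →ₐ[ℂ] RatFunc K) (g : Fin (N + 1) → Polynomial K) : Prop where
  zero : ∀ f ∈ Y.I, aeval g f = 0
  ne : ∀ (n : ℕ) (f : S N), f.IsHomogeneous n → f ∉ Y.I → aeval g f ≠ 0
  eq : ∀ (n : ℕ) (F G : S N), F.IsHomogeneous n → G.IsHomogeneous n → G ∉ Y.I → ∀ z : Y.L,
    (z : Y.K) = Y.cls F / Y.cls G → i z = algebraMap (Polynomial K) (RatFunc K) (aeval g F) /
      algebraMap (Polynomial K) (RatFunc K) (aeval g G)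
  coprime : ∃ a : Fin (N + 1) → Polynomial K, ∑ k, a k * g k = 1

theorem aeval_coo (j : Fin (N + 1)) (hj : (X j : S N) ∉ Y.I) {n : ℕ} {f : S N}
    (hf : f.IsHomogeneous n) :
    Y.cls f = Y.cls (X j) ^ n * ((aeval (Y.coo j hj) f : Y.L) : Y.K) := by
  have h0 : Y.cls (X j) ≠ 0 := Y.cls_ne hj
  have h1 : ((aeval (Y.coo j hj) f : Y.L) : Y.K) = aeval (fun k => Y.cls (X k) / Y.cls (X j)) f := by
    have := (aeval_algebraMap_apply (R := ℂ) Y.K (Y.coo j hj) f).symm
    exact this
  rw [h1, ← aeval_smul_of_homog _ _ hf, Y.cls_eq_aeval f]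
  congr 2
  ext k
  field_simp

theorem exists_coords (i : Y.L →ₐ[ℂ] RatFunc K) : ∃ g, Coords Y i g := by
  classical
  obtain ⟨j, hj⟩ := Y.relevant
  have hjj : Y.coo j hj j = 1 := by
    apply Subtype.ext
    show Y.cls (X j) / Y.cls (X j) = 1
    exact div_self (Y.cls_ne hj)
  obtain ⟨g, a, hgj, hg, hag⟩ := exists_coprime_rep (fun k => i (Y.coo j hj k)) j
    (by rw [hjj, map_one])
  have hgi : algebraMap (Polynomial K) (RatFunc K) (g j) ≠ 0 := by
    rwa [Ne, FaithfulSMul.algebraMap_eq_zero_iff]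
  -- evaluation formula
  have key : ∀ (n : ℕ) (f : S N), f.IsHomogeneous n →
      algebraMap (Polynomial K) (RatFunc K) (aeval g f) =
        algebraMap (Polynomial K) (RatFunc K) (g j) ^ n * i (aeval (Y.coo j hj) f) := by
    intro n f hf
    have h1 : algebraMap (Polynomial K) (RatFunc K) (aeval g f) =
        aeval (fun k => algebraMap (Polynomial K) (RatFunc K) (g k)) f :=
      (aeval_algebraMap_apply (R := ℂ) (RatFunc K) g f).symm
    have h2 : i (aeval (Y.coo j hj) f) = aeval (fun k => i (Y.coo j hj k)) f := by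
      rw [← AlgHom.comp_apply, comp_aeval]
    rw [h1, h2, ← aeval_smul_of_homog _ _ hf]
    congr 2
    ext k
    rw [hg k]
    field_simp
  have hinj : ∀ (n : ℕ) (f : S N), f.IsHomogeneous n →
      (aeval (Y.coo j hj) f = 0 ↔ f ∈ Y.I) := by
    intro n f hf
    have h0 : Y.cls (X j) ≠ 0 := Y.cls_ne hj
    have h1 := aeval_coo (Y := Y) j hj hf
    constructor
    · intro h
      rw [h] at h1
      by_contra hc
      apply Y.cls_ne hc
      rw [h1]
      simp
    · intro h
      rw [Y.cls_eq_zero h] at h1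
      have h2 := h1.symm
      rw [mul_eq_zero] at h2
      rcases h2 with h2 | h2
      · exact absurd h2 (pow_ne_zero _ h0)
      · exact Subtype.ext h2
  refine ⟨g, ⟨?_, ?_, ?_, ⟨a, hag⟩⟩⟩
  · intro f hf
    have h1 : ∀ n, aeval g (homogeneousComponent n f) = 0 := by
      intro n
      have h2 := key n _ (homogeneousComponent_isHomogeneous n f)
      rw [(hinj n _ (homogeneousComponent_isHomogeneous n f)).2 (Y.homogeneous f hf n), map_zero,
        mul_zero, FaithfulSMul.algebraMap_eq_zero_iff] at h2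
      exact h2
    rw [← sum_homogeneousComponent f, map_sum]
    exact Finset.sum_eq_zero fun n _ => h1 n
  · intro n f hf hfI h
    have h2 := key n f hf
    rw [h, map_zero] at h2
    have h3 := h2.symm
    rw [mul_eq_zero] at h3
    rcases h3 with h3 | h3
    · exact absurd h3 (pow_ne_zero _ hgi)
    · rw [map_eq_zero] at h3
      exact hfI ((hinj n f hf).1 h3)
  · intro n F G hF hG hGI z hz
    have h0 : Y.cls (X j) ≠ 0 := Y.cls_ne hj
    have hz' : z = aeval (Y.coo j hj) F / aeval (Y.coo j hj) G := by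
      apply Subtype.ext
      rw [hz, aeval_coo (Y := Y) j hj hF, aeval_coo (Y := Y) j hj hG]
      rw [mul_div_mul_left _ _ (pow_ne_zero _ h0)]
      rfl
    rw [hz', map_div₀, key n F hF, key n G hG, mul_div_mul_left _ _ (pow_ne_zero _ hgi)]

end

end LCY
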