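import Mathlib
import Pool.Agent.Helper26.LC.FinB

/-!
General position of a family of images of the multiplicative group.
-/

open MvPolynomial

namespace LCY

noncomputable section

variable {N : ℕ} {Y : Var N} {K : Type} [Field K] [Algebra ℂ K]

theorem RegAt.not_dvd {P : Polynomial K} (hP : Irreducible P) {u v : Polynomial K} (hv : v ≠ 0)
    (hu : ¬ P ∣ u)
    (h : RegAt P (algebraMap (Polynomial K) (RatFunc K) u / algebraMap (Polynomial K) (RatFunc K) v)) :
    ¬ P ∣ v := by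
  obtain ⟨a, b, hb, hab⟩ := h
  intro hPv
  have hb0 : b ≠ 0 := by rintro rfl; exact hb (dvd_zero _)
  have hvi : algebraMap (Polynomial K) (RatFunc K) v ≠ 0 := by
    rwa [Ne, FaithfulSMul.algebraMap_eq_zero_iff]
  have hbi : algebraMap (Polynomial K) (RatFunc K) b ≠ 0 := by
    rwa [Ne, FaithfulSMul.algebraMap_eq_zero_iff]
  rw [div_eq_div_iff hvi hbi, ← map_mul, ← map_mul] at hab
  have h1 : u * b = a * v := FaithfulSMul.algebraMap_injective (Polynomial K) (RatFunc K) hab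
  have h2 : P ∣ u * b := by rw [h1]; exact hPv.mul_left a
  rcases hP.prime.dvd_or_dvd h2 with h3 | h3
  · exact hu h3
  · exact hb h3

theorem Coords.exists_not_dvd {i : Y.L →ₐ[ℂ] RatFunc K} {g : Fin (N + 1) → Polynomial K}
    (hg : Coords Y i g) {P : Polynomial K} (hP : Irreducible P) : ∃ k, ¬ P ∣ g k := by
  by_contra h
  push_neg at h
  obtain ⟨a, ha⟩ := hg.coprime
  have : P ∣ 1 := by
    rw [← ha]
    exact Finset.dvd_sum fun k _ => (h k).mul_left _
  exact hP.not_isUnit (isUnit_of_dvd_one this)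

theorem frac_mem_locRing (J : Ideal (S N)) [J.IsPrime] {n : ℕ} {F G : S N}
    (hF : F.IsHomogeneous n) (hG : G.IsHomogeneous n) (hGJ : G ∉ J) (hGI : G ∉ Y.I) :
    ∃ z : Y.L, (z : Y.K) = Y.cls F / Y.cls G ∧ z ∈ Y.locRing J :=
  ⟨⟨Y.cls F / Y.cls G, n, F, G, hF, hG, hGI, hGI, rfl⟩, rfl, n, F, G, hF, hG, hGJ, hGI, rfl⟩

/-- General position: at every closed point of the multiplicative group. -/
theorem center_eval {D : Set (Var N)} {i : Y.L →ₐ[ℂ] RatFunc K} (hi : GmFamily Y D K i)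
    {g : Fin (N + 1) → Polynomial K} (hg : Coords Y i g) {P : Polynomial K} (hP : Irreducible P)
    (hPX : ¬ P ∣ Polynomial.X) :
    (∀ (n : ℕ) (f : S N), f.IsHomogeneous n → f ∉ Y.I → ¬ P ∣ aeval g f) ∨
      ∃ C, Y.IsCurveOn C ∧ C ∉ D ∧
        ∀ (n : ℕ) (f : S N), f.IsHomogeneous n → f ∉ C.I → ¬ P ∣ aeval g f := by
  obtain ⟨k, hk⟩ := hg.exists_not_dvd hP
  have hkI : (X k : S N) ∉ Y.I := by
    intro h
    have := hg.zero _ h
    rw [aeval_X] at this
    exact hk (this ▸ dvd_zero P)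
  rcases hi.center P hP hPX with h | ⟨C, hC, hCD, h⟩
  · left
    intro n f hf hfI
    have hX : (X k ^ n : S N).IsHomogeneous n := by
      simpa using (isHomogeneous_X ℂ k).pow n
    obtain ⟨z, hz, -⟩ := frac_mem_locRing (Y := Y) Y.I hX hf hfI hfI
    have h1 := h z
    rw [hg.eq n _ _ hX hf hfI z hz] at h1
    refine h1.not_dvd hP (hg.ne n f hf hfI) ?_
    rw [map_pow, aeval_X]
    exact fun hd => hk (hP.prime.dvd_of_dvd_pow hd)
  · right
    refine ⟨C, hC, hCD, ?_⟩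
    have hkC : (X k : S N) ∉ C.I := by
      intro hkC
      obtain ⟨j, hj⟩ := C.relevant
      have hjI : (X j : S N) ∉ Y.I := fun h => hj (hC.1 h)
      obtain ⟨z, hz, -⟩ := frac_mem_locRing (Y := Y) Y.I (isHomogeneous_X ℂ j)
        (isHomogeneous_X ℂ k) hkI hkI
      have h1 : RegAt P (i z) := by
        rw [hg.eq 1 _ _ (isHomogeneous_X ℂ j) (isHomogeneous_X ℂ k) hkI z hz]
        refine ⟨_, _, ?_, rfl⟩
        rwa [aeval_X]
      have h2 := (h z).2 h1
      obtain ⟨m, F, G, hF, hG, hGC, hGI, hFG⟩ := h2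
      rw [hz, div_eq_div_iff (Y.cls_ne hkI) (Y.cls_ne hGI), ← Y.cls_mul, ← Y.cls_mul] at hFG
      have h3 : X j * G - F * X k ∈ Y.I := by
        by_contra hc
        apply Y.cls_ne hc
        have : Y.cls (X j * G - F * X k) = Y.cls (X j * G) - Y.cls (F * X k) := by
          simp [Var.cls]
        rw [this, hFG, sub_self]
      have h4 : X j * G ∈ C.I := by
        have := C.I.add_mem (hC.1 h3) (C.I.mul_mem_left F hkC)
        rwa [sub_add_cancel] at this
      exact (C.prime.mem_or_mem h4).elim hj hGC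
    intro n f hf hfC
    have hfI : f ∉ Y.I := fun h => hfC (hC.1 h)
    have hX : (X k ^ n : S N).IsHomogeneous n := by
      simpa using (isHomogeneous_X ℂ k).pow n
    obtain ⟨z, hz, hz'⟩ := frac_mem_locRing (Y := Y) C.I hX hf hfC hfI
    have h1 := (h z).1 hz'
    rw [hg.eq n _ _ hX hf hfI z hz] at h1
    refine h1.not_dvd hP (hg.ne n f hf hfI) ?_
    rw [map_pow, aeval_X]
    exact fun hd => hk (hP.prime.dvd_of_dvd_pow hd)

/-- Good forms: their non-vanishing at a point of `Y` implies that the point lies in `U`. -/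
def Good (Y : Var N) (D : Set (Var N)) : Set (S N) :=
  {h | (∃ n, h.IsHomogeneous n) ∧ ∀ p, Y.IsPt p → eval p h ≠ 0 → IsU Y D p}

/-- Openness of the regular locus, near the generic point of `Y` and of every curve. -/
def RegOpen (Y : Var N) : Prop :=
  (∃ h : S N, (∃ n, h.IsHomogeneous n) ∧ h ∉ Y.I ∧ ∀ p, Y.IsPt p → eval p h ≠ 0 → Y.Regular p) ∧
  ∀ C, Y.IsCurveOn C → ∃ h : S N, (∃ n, h.IsHomogeneous n) ∧ h ∉ C.I ∧
    ∀ p, Y.IsPt p → eval p h ≠ 0 → Y.Regular p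

theorem exists_form_notMem {A B : Var N} (h : ¬ A.I ≤ B.I) :
    ∃ f : S N, (∃ n, f.IsHomogeneous n) ∧ f ∈ A.I ∧ f ∉ B.I := by
  rw [SetLike.not_le_iff_exists] at h
  obtain ⟨f, hfA, hfB⟩ := h
  by_contra hc
  push_neg at hc
  apply hfB
  rw [← sum_homogeneousComponent f]
  exact B.I.sum_mem fun n _ => hc _ ⟨n, homogeneousComponent_isHomogeneous n f⟩
    (A.homogeneous f hfA n)

theorem exists_good_of_forall_not_le {D : Set (Var N)} (hD : D.Finite) {J : Ideal (S N)}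
    (hJ : J.IsPrime)
    (hJD : ∀ C ∈ D, ∃ f : S N, (∃ n, f.IsHomogeneous n) ∧ f ∈ C.I ∧ f ∉ J)
    (h : ∃ h : S N, (∃ n, h.IsHomogeneous n) ∧ h ∉ J ∧ ∀ p, Y.IsPt p → eval p h ≠ 0 → Y.Regular p) :
    ∃ h ∈ Good Y D, h ∉ J := by
  classical
  obtain ⟨h, ⟨n, hn⟩, hhJ, hreg⟩ := h
  choose! f hf hfC hfJ using hJD
  choose! m hm using hf
  refine ⟨h * ∏ C ∈ hD.toFinset, f C, ⟨⟨n + ∑ C ∈ hD.toFinset, m C, ?_⟩, ?_⟩, ?_⟩
  · refine hn.mul (IsHomogeneous.prod _ _ _ fun C hC => hm C (hD.mem_toFinset.1 hC))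
  · intro p hp hne
    rw [map_mul] at hne
    refine ⟨hp, hreg p hp (left_ne_zero_of_mul hne), fun C hC hpC => ?_⟩
    have h1 := right_ne_zero_of_mul hne
    rw [map_prod] at h1
    exact (Finset.prod_ne_zero_iff.1 h1 C (hD.mem_toFinset.2 hC)) (hpC.2 _ (hfC C hC))
  · intro hmem
    rcases hJ.mem_or_mem hmem with h1 | h1
    · exact hhJ h1
    · rw [hJ.prod_mem_iff] at h1
      obtain ⟨C, hC, hCJ⟩ := h1
      exact hfJ C (hD.mem_toFinset.1 hC) hCJ

end

end LCY
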