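import Mathlib

/-!
Primes with the same transcendence degree of the quotient.
-/

open MvPolynomial

namespace LCY

theorem prime_eq_of_trdeg_eq {R : Type} [CommRing R] [Algebra ℂ R] {P Q : Ideal R} (hP : P.IsPrime)
    (hQ : Q.IsPrime) (hPQ : P ≤ Q) {d : ℕ} (h1 : Algebra.trdeg ℂ (R ⧸ P) = d)
    (h2 : Algebra.trdeg ℂ (R ⧸ Q) = d) : P = Q := by
  refine le_antisymm hPQ fun f hf => ?_
  by_contra hfP
  obtain ⟨ι, x, hx⟩ := exists_isTranscendenceBasis' ℂ (R ⧸ Q)
  have hcard := hx.lift_cardinalMk_eq_trdeg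
  rw [h2] at hcard
  have hcard' : Cardinal.mk ι = d := by simpa using hcard
  have hfin : Finite ι := by
    rw [← Cardinal.lt_aleph0_iff_finite, hcard']
    exact Cardinal.natCast_lt_aleph0
  choose y hy using fun k => Ideal.Quotient.mk_surjective (x k)
  let φ : (R ⧸ P) →ₐ[ℂ] (R ⧸ Q) := Ideal.Quotient.factorₐ ℂ hPQ
  have hφ : ∀ r : R, φ (Ideal.Quotient.mk P r) = Ideal.Quotient.mk Q r := fun r => rfl
  have hcomp : φ ∘ (fun k => Ideal.Quotient.mk P (y k)) = x := by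
    ext k
    simp only [Function.comp_apply, hφ, hy]
  have hind : AlgebraicIndependent ℂ (fun k => Ideal.Quotient.mk P (y k)) := by
    refine AlgebraicIndependent.of_comp φ ?_
    rw [hcomp]
    exact hx.1
  have htb := hind.isTranscendenceBasis_of_lift_trdeg_le_of_finite (by rw [h1, hcard'])
  have halg := htb.isAlgebraic
  have hfne : Ideal.Quotient.mk P f ≠ 0 := by
    rwa [Ne, Ideal.Quotient.eq_zero_iff_mem]
  obtain ⟨r, hr, hdvd⟩ := (halg.isAlgebraic (Ideal.Quotient.mk P f)).exists_nonzero_dvd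
    (mem_nonZeroDivisors_of_ne_zero hfne)
  obtain ⟨p, hp⟩ : ∃ p : MvPolynomial ι ℂ, aeval (fun k => Ideal.Quotient.mk P (y k)) p =
      (r : R ⧸ P) :=
    (Algebra.adjoin_range_eq_range_aeval ℂ (fun k => Ideal.Quotient.mk P (y k))).le r.2
  have h3 : φ r = 0 := by
    obtain ⟨c, hc⟩ := hdvd
    have h4 : (r : R ⧸ P) = Ideal.Quotient.mk P f * c := hc
    rw [h4, map_mul, hφ, Ideal.Quotient.eq_zero_iff_mem.2 hf, zero_mul]
  have h5 : aeval x p = 0 := by
    rw [← h3, ← hp, ← hcomp]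
    rw [← AlgHom.comp_apply, comp_aeval]
    rfl
  have hp0 : p = 0 := hx.1.eq_zero_of_aeval_eq_zero p h5
  rw [hp0, map_zero] at hp
  exact hr (Subtype.ext hp.symm)

end LCY
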