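import Mathlib
import Pool.Agent.Helper26.LC.FinC
import Pool.Agent.Helper26.LC.TrD

/-!
The existence of good forms.
-/

open MvPolynomial

namespace LCY

noncomputable section

variable {N : ℕ} {Y : Var N} {K : Type} [Field K] [Algebra ℂ K]

theorem curve_not_le {C C' : Var N} (hC : Y.IsCurveOn C) (hC' : Y.IsCurveOn C') (h : C' ≠ C) :
    ¬ C'.I ≤ C.I := by
  intro hle
  have h1 : Algebra.trdeg ℂ (S N ⧸ C.I) = ((2 : ℕ) : Cardinal) := by
    have := hC.2
    rw [Var.HasDim] at this
    rw [this]; norm_num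
  have h2 : Algebra.trdeg ℂ (S N ⧸ C'.I) = ((2 : ℕ) : Cardinal) := by
    have := hC'.2
    rw [Var.HasDim] at this
    rw [this]; norm_num
  have h3 := prime_eq_of_trdeg_eq C'.prime C.prime hle h2 h1
  apply h
  cases C
  cases C'
  simp only [Var.mk.injEq]
  exact h3

theorem curve_not_le_surface {C : Var N} (hY : Y.HasDim 2) (hC : Y.IsCurveOn C) :
    ¬ C.I ≤ Y.I := by
  intro hle
  have h1 : C.I = Y.I := le_antisymm hle hC.1
  have h2 := hC.2
  rw [Var.HasDim, h1] at h2
  rw [Var.HasDim, h2] at hY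
  norm_num at hY

/-- A good form whose value at the family is not divisible by a given prime. -/
theorem exists_good {D : Set (Var N)} (hY : Y.HasDim 2) (hD : D.Finite)
    (hDc : ∀ C ∈ D, Y.IsCurveOn C) (hreg : RegOpen Y) {i : Y.L →ₐ[ℂ] RatFunc K}
    (hi : GmFamily Y D K i)
    {g : Fin (N + 1) → Polynomial K} (hg : Coords Y i g) {P : Polynomial K} (hP : Irreducible P)
    (hPX : ¬ P ∣ Polynomial.X) : ∃ h ∈ Good Y D, ¬ P ∣ aeval g h := by
  rcases center_eval hi hg hP hPX with h | ⟨C, hC, hCD, h⟩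
  · obtain ⟨f, hf, hfI⟩ := exists_good_of_forall_not_le (Y := Y) hD Y.prime
      (fun C hC => exists_form_notMem (curve_not_le_surface hY (hDc C hC))) hreg.1
    obtain ⟨n, hn⟩ := hf.1
    exact ⟨f, hf, h n f hn hfI⟩
  · obtain ⟨f, hf, hfC⟩ := exists_good_of_forall_not_le (Y := Y) hD C.prime
      (fun C' hC' => exists_form_notMem (curve_not_le hC (hDc C' hC') fun he => hCD (he ▸ hC')))
      (hreg.2 C hC)
    obtain ⟨n, hn⟩ := hf.1
    exact ⟨f, hf, h n f hn hfC⟩

theorem exists_pow_eq {D : Set (Var N)} (hY : Y.HasDim 2) (hD : D.Finite)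
    (hDc : ∀ C ∈ D, Y.IsCurveOn C) (hreg : RegOpen Y) {i : Y.L →ₐ[ℂ] RatFunc K}
    (hi : GmFamily Y D K i)
    {g : Fin (N + 1) → Polynomial K} (hg : Coords Y i g) :
    ∃ (m : ℕ) (s : Finset (S N)) (b : S N → Polynomial K), (∀ h ∈ s, h ∈ Good Y D) ∧
      ∑ h ∈ s, b h * aeval g h = Polynomial.X ^ m := by
  classical
  have h1 : (Polynomial.X : Polynomial K) ∈
      (Ideal.span ((fun h : S N => aeval g h) '' Good Y D)).radical := by
    rw [Ideal.radical_eq_sInf, Submodule.mem_sInf]
    rintro p ⟨hpJ, hp⟩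
    by_contra hX
    obtain ⟨P, hP⟩ := (IsPrincipalIdealRing.principal p).principal
    have hP' : p = Ideal.span {P} := hP
    have hP0 : P ≠ 0 := by
      rintro rfl
      have hirr : Irreducible (Polynomial.X - Polynomial.C (1 : K)) :=
        Polynomial.irreducible_X_sub_C 1
      obtain ⟨h, hh, hd⟩ := exists_good hY hD hDc hreg hi hg hirr (by
        intro hd
        have := Polynomial.eval_dvd (x := (1 : K)) hd
        simp at this)
      have h2 : aeval g h ∈ p := hpJ (Ideal.subset_span ⟨h, hh, rfl⟩)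
      rw [hP', Ideal.mem_span_singleton, zero_dvd_iff] at h2
      exact hd (h2 ▸ dvd_zero _)
    have hPp : Prime P := by
      rw [hP'] at hp
      exact (Ideal.span_singleton_prime hP0).1 hp
    obtain ⟨h, hh, hd⟩ := exists_good hY hD hDc hreg hi hg hPp.irreducible (by
      intro hd
      exact hX (by rw [hP']; exact Ideal.mem_span_singleton.2 hd))
    have h2 : aeval g h ∈ p := hpJ (Ideal.subset_span ⟨h, hh, rfl⟩)
    rw [hP', Ideal.mem_span_singleton] at h2
    exact hd h2
  obtain ⟨m, hm⟩ := h1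
  rw [Ideal.span, Finsupp.mem_span_image_iff_linearCombination] at hm
  obtain ⟨l, hl, hl2⟩ := hm
  refine ⟨m, l.support, l, fun h hh => hl hh, ?_⟩
  rw [← hl2, Finsupp.linearCombination_apply, Finsupp.sum]
  rfl

end

end LCY
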