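import Mathlib
import Pool.Agent.Helper26.LC.FinD

/-!
A family of images of the multiplicative group in valuation form gives a morphism.
-/

open MvPolynomial

namespace LCY

noncomputable section

variable {N : ℕ} {Y : Var N} {K : Type} [Field K] [Algebra ℂ K]

/-- A non-constant family has a non-zero minor of the coefficients. -/
theorem exists_minor {D : Set (Var N)} {i : Y.L →ₐ[ℂ] RatFunc K} (hi : GmFamily Y D K i)
    {g : Fin (N + 1) → Polynomial K} (hg : Coords Y i g) :
    ∃ j k e e', (g k).coeff e * (g j).coeff e' - (g j).coeff e * (g k).coeff e' ≠ 0 := by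
  by_contra hc
  push Not at hc
  obtain ⟨z, hz⟩ := hi.nonconst
  obtain ⟨j, hj⟩ := Y.relevant
  have hgj : g j ≠ 0 := by
    have := hg.ne 1 (X j) (isHomogeneous_X ℂ j) hj
    rwa [aeval_X] at this
  obtain ⟨e, he⟩ : ∃ e, (g j).coeff e ≠ 0 := by
    by_contra h
    push Not at h
    exact hgj (Polynomial.ext (by simpa using h))
  have h1 : ∀ k, g k = Polynomial.C ((g k).coeff e / (g j).coeff e) * g j := by
    intro k
    ext e'
    rw [Polynomial.coeff_C_mul]
    have := hc j k e e'
    rw [sub_eq_zero] at this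
    rw [div_mul_eq_mul_div, this, mul_div_assoc, mul_comm ((g j).coeff e), div_mul_cancel₀ _ he]
  obtain ⟨n, F, G, hF, hG, hGI, -, hFG⟩ := z.2
  have h2 := hg.eq n F G hF hG hGI z hFG
  have h3 : ∀ f : S N, f.IsHomogeneous n → aeval g f =
      (g j) ^ n * Polynomial.C (aeval (fun k => (g k).coeff e / (g j).coeff e) f) := by
    intro f hf
    have h4 : (fun k => g k) = fun k => g j * Polynomial.C ((g k).coeff e / (g j).coeff e) := by
      ext1 k
      conv_lhs => rw [h1 k]
      rw [mul_comm]
    have h5 : aeval g f = aeval (fun k => g j * Polynomial.C ((g k).coeff e / (g j).coeff e)) f := by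
      rw [← h4]
    rw [h5, aeval_smul_of_homog _ _ hf]
    congr 1
    exact (aeval_algebraMap_apply (R := ℂ) (Polynomial K)
      (fun k => (g k).coeff e / (g j).coeff e) f)
  have hgi : algebraMap (Polynomial K) (RatFunc K) (g j) ≠ 0 := by
    rwa [Ne, FaithfulSMul.algebraMap_eq_zero_iff]
  apply hz ((aeval (fun k => (g k).coeff e / (g j).coeff e) F) /
    (aeval (fun k => (g k).coeff e / (g j).coeff e) G))
  rw [h2, h3 F hF, h3 G hG, map_mul, map_mul, map_pow, mul_div_mul_left _ _ (pow_ne_zero _ hgi)]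
  simp only [← Polynomial.algebraMap_eq, ← IsScalarTower.algebraMap_apply, map_div₀]

/-- Non-proportional polynomials have non-proportional values. -/
theorem exists_not_prop {p q : Polynomial ℂ} {e e' : ℕ}
    (h : p.coeff e * q.coeff e' - q.coeff e * p.coeff e' ≠ 0) :
    ∃ t t' : ℂˣ, p.eval (t : ℂ) * q.eval (t' : ℂ) ≠ q.eval (t : ℂ) * p.eval (t' : ℂ) := by
  by_contra hc
  push Not at hc
  have hz : ∀ r : Polynomial ℂ, (∀ t : ℂˣ, r.eval (t : ℂ) = 0) → r = 0 := by
    intro r hr
    apply Polynomial.eq_zero_of_infinite_isRoot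
    refine Set.Infinite.mono (s := {x : ℂ | x ≠ 0}) ?_ ?_
    · intro x hx
      exact hr (Units.mk0 x hx)
    · exact (Set.finite_singleton (0 : ℂ)).infinite_compl
  have h1 : ∀ t' : ℂˣ, Polynomial.C (q.eval (t' : ℂ)) * p - Polynomial.C (p.eval (t' : ℂ)) * q = 0 := by
    intro t'
    apply hz
    intro t
    simp only [Polynomial.eval_sub, Polynomial.eval_mul, Polynomial.eval_C]
    have := hc t t'
    linear_combination this
  have h2 : Polynomial.C (p.coeff e) * q - Polynomial.C (q.coeff e) * p = 0 := by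
    apply hz
    intro t'
    have := congrArg (fun r => Polynomial.coeff r e) (h1 t')
    simp only [Polynomial.coeff_sub, Polynomial.coeff_C_mul, Polynomial.coeff_zero] at this
    simp only [Polynomial.eval_sub, Polynomial.eval_mul, Polynomial.eval_C]
    linear_combination this
  have h3 := congrArg (fun r => Polynomial.coeff r e') h2
  simp only [Polynomial.coeff_sub, Polynomial.coeff_C_mul, Polynomial.coeff_zero] at h3
  exact h h3

theorem aeval_eq' {σ : Type} (x : σ → ℂ) (p : MvPolynomial σ ℂ) : aeval x p = eval x p := by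
  rw [← coe_aeval_eq_eval]; rfl

/-- The specialisation at `(s, t)`. -/
def spec {n : ℕ} (s : Fin n → ℂ) (t : ℂ) : Polynomial (MvPolynomial (Fin n) ℂ) →ₐ[ℂ] ℂ :=
  (Polynomial.aeval t : Polynomial ℂ →ₐ[ℂ] ℂ).comp (Polynomial.mapAlgHom (aeval s))

theorem spec_apply {n : ℕ} (s : Fin n → ℂ) (t : ℂ) (G : Polynomial (MvPolynomial (Fin n) ℂ)) :
    spec s t G = ((Polynomial.mapAlgHom (aeval s : MvPolynomial (Fin n) ℂ →ₐ[ℂ] ℂ)) G).eval t := by
  unfold spec
  rw [AlgHom.comp_apply, Polynomial.coe_aeval_eq_eval]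

theorem valT_toLaurent {n : ℕ} (G : Fin (N + 1) → Polynomial (MvPolynomial (Fin n) ℂ))
    (s : Fin n → ℂ) (t : ℂˣ) :
    valT (fun k => Polynomial.toLaurent (G k)) s t = fun k => spec s t (G k) := by
  ext k
  unfold valT
  rw [LaurentPolynomial.eval₂_toLaurent, spec_apply, Polynomial.coe_mapAlgHom, Polynomial.eval_map]
  congr 1

theorem eval_valT {n : ℕ} (G : Fin (N + 1) → Polynomial (MvPolynomial (Fin n) ℂ))
    (s : Fin n → ℂ) (t : ℂˣ) (f : S N) :
    eval (valT (fun k => Polynomial.toLaurent (G k)) s t) f = spec s t (aeval G f) := by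
  rw [valT_toLaurent]
  have : (spec s (t : ℂ)).comp (aeval G) = aeval (fun k => spec s t (G k)) := by
    rw [comp_aeval]
  rw [← AlgHom.comp_apply, this, aeval_eq']

theorem spec_eq_zero {n : ℕ} {y : Fin n → K} {s : Fin n → ℂ}
    (hs : ∀ f ∈ RingHom.ker (aeval y : MvPolynomial (Fin n) ℂ →ₐ[ℂ] K), eval s f = 0)
    {G : Polynomial (MvPolynomial (Fin n) ℂ)}
    (hG : Polynomial.mapAlgHom (aeval y : MvPolynomial (Fin n) ℂ →ₐ[ℂ] K) G = 0) (t : ℂ) :
    spec s t G = 0 := by
  rw [spec_apply]
  have : Polynomial.mapAlgHom (aeval s : MvPolynomial (Fin n) ℂ →ₐ[ℂ] ℂ) G = 0 := by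
    ext e
    rw [Polynomial.coeff_mapAlgHom_apply, Polynomial.coeff_zero]
    apply hs
    rw [RingHom.mem_ker]
    have := congrArg (fun p => Polynomial.coeff p e) hG
    simpa using this
  rw [this, Polynomial.eval_zero]

theorem dominatedT_of_family {D : Set (Var N)} (hY : Y.HasDim 2) (hD : D.Finite)
    (hDc : ∀ C ∈ D, Y.IsCurveOn C) (hreg : RegOpen Y) (i : Y.L →ₐ[ℂ] RatFunc K)
    (hi : GmFamily Y D K i) : DominatedT Y D := by
  classical
  obtain ⟨g, hg⟩ := exists_coords i
  obtain ⟨a, ha⟩ := hg.coprime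
  obtain ⟨m, sH, b, hsH, hb⟩ := exists_pow_eq hY hD hDc hreg hi hg
  obtain ⟨j, k, e, e', hmin⟩ := exists_minor hi hg
  set c := (g k).coeff e * (g j).coeff e' - (g j).coeff e * (g k).coeff e' with hc
  obtain ⟨n, y, hy⟩ := exists_gens (K := K)
    ((Finset.univ.biUnion fun k => (g k).coeffs) ∪ (Finset.univ.biUnion fun k => (a k).coeffs) ∪
      (sH.biUnion fun h => (b h).coeffs) ∪ {c⁻¹})
  set φ : MvPolynomial (Fin n) ℂ →ₐ[ℂ] K := aeval y with hφ
  have hlift : ∀ p : Polynomial K, (∀ x ∈ p.coeffs, ∃ q, φ q = x) →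
      ∃ q : Polynomial (MvPolynomial (Fin n) ℂ), Polynomial.mapAlgHom φ q = p := by
    intro p hp
    have h1 : p ∈ Polynomial.lifts (φ : MvPolynomial (Fin n) ℂ →+* K) := by
      rw [Polynomial.lifts_iff_coeffs_subset_range]
      intro x hx
      exact hp x hx
    rw [Polynomial.mem_lifts] at h1
    exact h1
  have hgl : ∀ k, ∃ q : Polynomial (MvPolynomial (Fin n) ℂ), Polynomial.mapAlgHom φ q = g k := by
    intro k
    refine hlift _ fun x hx => hy x ?_
    simp only [Finset.mem_union, Finset.mem_biUnion, Finset.mem_univ, true_and]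
    exact Or.inl (Or.inl (Or.inl ⟨k, hx⟩))
  have hal : ∀ k, ∃ q : Polynomial (MvPolynomial (Fin n) ℂ), Polynomial.mapAlgHom φ q = a k := by
    intro k
    refine hlift _ fun x hx => hy x ?_
    simp only [Finset.mem_union, Finset.mem_biUnion, Finset.mem_univ, true_and]
    exact Or.inl (Or.inl (Or.inr ⟨k, hx⟩))
  have hbl : ∀ h ∈ sH, ∃ q : Polynomial (MvPolynomial (Fin n) ℂ),
      Polynomial.mapAlgHom φ q = b h := by
    intro h hh
    refine hlift _ fun x hx => hy x ?_
    simp only [Finset.mem_union, Finset.mem_biUnion, Finset.mem_univ, true_and]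
    exact Or.inl (Or.inr ⟨h, hh, hx⟩)
  obtain ⟨c', hc'⟩ : ∃ q, φ q = c⁻¹ := hy _ (by simp)
  choose G hG using hgl
  choose A hA using hal
  choose! B hB using hbl
  have hev : ∀ f : S N, Polynomial.mapAlgHom φ (aeval G f) = aeval g f := by
    intro f
    have : (Polynomial.mapAlgHom φ).comp (aeval G) = aeval g := by
      rw [comp_aeval]
      congr 1
      ext1 k
      exact hG k
    rw [← AlgHom.comp_apply, this]
  refine ⟨n, RingHom.ker φ, fun k => Polynomial.toLaurent (G k), RingHom.ker_isPrime _, ?_, ?_⟩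
  · intro s hs
    constructor
    · intro t
      have hpt : Y.IsPt (valT (fun k => Polynomial.toLaurent (G k)) s t) := by
        constructor
        · intro h0
          have h1 : spec s t (∑ k, A k * G k - 1) = 0 := by
            apply spec_eq_zero hs
            rw [map_sub, map_sum, map_one, sub_eq_zero, ← ha]
            refine Finset.sum_congr rfl fun k _ => ?_
            rw [map_mul, ← hφ, hA, hG]
          rw [valT_toLaurent] at h0
          have h2 : ∀ k, spec s t (G k) = 0 := fun k => congrFun h0 k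
          rw [map_sub, map_sum, map_one] at h1
          simp only [map_mul, h2, mul_zero, Finset.sum_const_zero, zero_sub] at h1
          norm_num at h1
        · intro f hf
          rw [eval_valT]
          apply spec_eq_zero hs
          rw [← hφ, hev]
          exact hg.zero f hf
      by_contra hU
      have h1 : spec s t (∑ h ∈ sH, B h * aeval G h - Polynomial.X ^ m) = 0 := by
        apply spec_eq_zero hs
        rw [map_sub, map_sum, map_pow, sub_eq_zero, ← hφ]
        have : Polynomial.mapAlgHom φ Polynomial.X = Polynomial.X := by simp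
        rw [this, ← hb]
        refine Finset.sum_congr rfl fun h hh => ?_
        rw [map_mul, hB h hh, hev]
      have h2 : ∀ h ∈ sH, spec s t (aeval G h) = 0 := by
        intro h hh
        rw [← eval_valT]
        by_contra hne
        exact hU ((hsH h hh).2 _ hpt hne)
      rw [map_sub, map_sum, map_pow] at h1
      have h3 : spec s t Polynomial.X = t := by
        rw [spec_apply]; simp
      rw [h3, Finset.sum_eq_zero (fun h hh => by rw [map_mul, h2 h hh, mul_zero])] at h1
      simp at h1
    · -- non-constancy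
      have h1 : (Polynomial.mapAlgHom (aeval s : MvPolynomial (Fin n) ℂ →ₐ[ℂ] ℂ) (G k)).coeff e *
          (Polynomial.mapAlgHom (aeval s : MvPolynomial (Fin n) ℂ →ₐ[ℂ] ℂ) (G j)).coeff e' -
          (Polynomial.mapAlgHom (aeval s : MvPolynomial (Fin n) ℂ →ₐ[ℂ] ℂ) (G j)).coeff e *
          (Polynomial.mapAlgHom (aeval s : MvPolynomial (Fin n) ℂ →ₐ[ℂ] ℂ) (G k)).coeff e' ≠ 0 := by
        simp only [Polynomial.coeff_mapAlgHom_apply]
        rw [← map_mul, ← map_mul, ← map_sub]
        intro h0
        have h2 : eval s (((G k).coeff e * (G j).coeff e' - (G j).coeff e * (G k).coeff e') * c' - 1)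
            = 0 := by
          apply hs
          rw [RingHom.mem_ker, map_sub, map_mul, map_sub, map_mul, map_mul, map_one, hc']
          have hco : ∀ k e, φ ((G k).coeff e) = (g k).coeff e := by
            intro k e
            rw [← hG k, Polynomial.coeff_mapAlgHom_apply]
          rw [hco, hco, hco, hco, ← hc, mul_inv_cancel₀ hmin, sub_self]
        rw [aeval_eq'] at h0
        rw [map_sub, map_mul, h0, zero_mul, map_one] at h2
        norm_num at h2
      obtain ⟨t, t', ht⟩ := exists_not_prop h1
      refine ⟨t, t', fun r hr => ht ?_⟩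
      have hr1 := congrFun hr j
      have hr2 := congrFun hr k
      rw [valT_toLaurent, valT_toLaurent] at hr1 hr2
      simp only [Pi.smul_apply, smul_eq_mul, spec_apply] at hr1 hr2
      rw [hr1, hr2]
      ring
  · intro H d hH hHI
    have h1 := hg.ne d H hH hHI
    rw [← hev H] at h1
    obtain ⟨e, he⟩ : ∃ e, (Polynomial.mapAlgHom φ (aeval G H)).coeff e ≠ 0 := by
      by_contra h
      push Not at h
      exact h1 (Polynomial.ext (by simpa using h))
    rw [Polynomial.coeff_mapAlgHom_apply] at he
    have h2 : (aeval G H).coeff e ∉ RingHom.ker φ := he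
    haveI : (RingHom.ker φ).IsPrime := RingHom.ker_isPrime _
    rw [← IsPrime.vanishingIdeal_zeroLocus (K := ℂ) (RingHom.ker φ), mem_vanishingIdeal_iff] at h2
    push Not at h2
    obtain ⟨s, hs, hse⟩ := h2
    rw [mem_zeroLocus_iff] at hs
    have hs' : ∀ f ∈ RingHom.ker φ, eval s f = 0 := by
      intro f hf
      have := hs f hf
      rwa [aeval_eq'] at this
    refine ⟨s, hs', ?_⟩
    by_contra hcon
    push Not at hcon
    apply hse
    have h3 : Polynomial.mapAlgHom (aeval s : MvPolynomial (Fin n) ℂ →ₐ[ℂ] ℂ) (aeval G H) = 0 := by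
      apply Polynomial.eq_zero_of_infinite_isRoot
      refine Set.Infinite.mono (s := {x : ℂ | x ≠ 0}) ?_ ?_
      · intro x hx
        have := hcon (Units.mk0 x hx)
        rw [eval_valT, spec_apply] at this
        exact this
      · exact (Set.finite_singleton (0 : ℂ)).infinite_compl
    rw [← Polynomial.coeff_mapAlgHom_apply, h3, Polynomial.coeff_zero]

end

end LCY
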