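import Mathlib
import Pool.Agent.Helper27.LCY.PG
import Pool.Agent.Helper74.LY.Wei
import Pool.Agent.Helper93.LCY.BR89
import Pool.Agent.Helper51.LCY.P6
import Pool.Agent.Helper48.LCY.Top

/-!
The projective plane with a cubic curve as boundary: charts, the cubic form over an algebra,
the bracket in a chart.
-/

open Polynomial

namespace LCY

namespace H26

noncomputable section

/-- The ternary cubic form with coefficients `a` over a `ℂ`-algebra. -/
def cubA {R : Type} [CommRing R] [Algebra ℂ R] (a : Fin 10 → ℂ) (x0 x1 x2 : R) : R :=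
  algebraMap ℂ R (a 0) * x0 ^ 3 + algebraMap ℂ R (a 1) * x0 ^ 2 * x1
    + algebraMap ℂ R (a 2) * x0 ^ 2 * x2 + algebraMap ℂ R (a 3) * x0 * x1 ^ 2
    + algebraMap ℂ R (a 4) * x0 * x1 * x2 + algebraMap ℂ R (a 5) * x0 * x2 ^ 2
    + algebraMap ℂ R (a 6) * x1 ^ 3 + algebraMap ℂ R (a 7) * x1 ^ 2 * x2
    + algebraMap ℂ R (a 8) * x1 * x2 ^ 2 + algebraMap ℂ R (a 9) * x2 ^ 3

theorem map_cubA {R R' : Type} [CommRing R] [Algebra ℂ R] [CommRing R'] [Algebra ℂ R']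
    (φ : R →ₐ[ℂ] R') (a : Fin 10 → ℂ) (x0 x1 x2 : R) :
    φ (cubA a x0 x1 x2) = cubA a (φ x0) (φ x1) (φ x2) := by
  unfold cubA
  simp only [map_add, map_mul, map_pow, AlgHom.commutes]

theorem cubA_hom {R : Type} [CommRing R] [Algebra ℂ R] (a : Fin 10 → ℂ) (u x0 x1 x2 : R) :
    cubA a (u * x0) (u * x1) (u * x2) = u ^ 3 * cubA a x0 x1 x2 := by
  unfold cubA
  ring

theorem cubA_C (a : Fin 10 → ℂ) (x : Fin 3 → ℂ) :
    cubA a (x 0) (x 1) (x 2) = LCY74.cub a x := by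
  unfold cubA LCY74.cub
  simp only [Algebra.algebraMap_self, RingHom.id_apply]

/-- The linear form in the coordinates `x0, x1, x2` with the coefficients of a row of `M`. -/
def lf {R : Type} [CommRing R] [Algebra ℂ R] (M : Matrix (Fin 3) (Fin 3) ℂ) (i : Fin 3)
    (x0 x1 x2 : R) : R :=
  algebraMap ℂ R (M i 0) * x0 + algebraMap ℂ R (M i 1) * x1 + algebraMap ℂ R (M i 2) * x2

theorem map_lf {R R' : Type} [CommRing R] [Algebra ℂ R] [CommRing R'] [Algebra ℂ R']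
    (φ : R →ₐ[ℂ] R') (M : Matrix (Fin 3) (Fin 3) ℂ) (i : Fin 3) (x0 x1 x2 : R) :
    φ (lf M i x0 x1 x2) = lf M i (φ x0) (φ x1) (φ x2) := by
  unfold lf
  simp only [map_add, map_mul, AlgHom.commutes]

/-- An identity between cubic forms over the complex numbers holds over all algebras. -/
theorem cubA_transfer (a : Fin 10 → ℂ) (M : Matrix (Fin 3) (Fin 3) ℂ)
    (G : MvPolynomial (Fin 3) ℂ)
    (h : ∀ x : Fin 3 → ℂ, LCY74.cub a (M.mulVec x) = MvPolynomial.eval x G)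
    {R : Type} [CommRing R] [Algebra ℂ R] (x0 x1 x2 : R) :
    cubA a (lf M 0 x0 x1 x2) (lf M 1 x0 x1 x2) (lf M 2 x0 x1 x2) =
      MvPolynomial.aeval ![x0, x1, x2] G := by
  have h1 : cubA a (lf M 0 (MvPolynomial.X 0 : MvPolynomial (Fin 3) ℂ) (MvPolynomial.X 1)
      (MvPolynomial.X 2)) (lf M 1 (MvPolynomial.X 0) (MvPolynomial.X 1)
      (MvPolynomial.X 2)) (lf M 2 (MvPolynomial.X 0) (MvPolynomial.X 1)
      (MvPolynomial.X 2)) = G := by
    apply MvPolynomial.funext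
    intro x
    rw [← h x]
    have h2 := map_cubA (MvPolynomial.aeval x : MvPolynomial (Fin 3) ℂ →ₐ[ℂ] ℂ) a
      (lf M 0 (MvPolynomial.X 0) (MvPolynomial.X 1) (MvPolynomial.X 2))
      (lf M 1 (MvPolynomial.X 0) (MvPolynomial.X 1) (MvPolynomial.X 2))
      (lf M 2 (MvPolynomial.X 0) (MvPolynomial.X 1) (MvPolynomial.X 2))
    rw [map_lf, map_lf, map_lf, MvPolynomial.aeval_X, MvPolynomial.aeval_X,
      MvPolynomial.aeval_X] at h2
    have h3 : ∀ i, lf M i (x 0) (x 1) (x 2) = (M.mulVec x) i := by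
      intro i
      unfold lf Matrix.mulVec dotProduct
      rw [Fin.sum_univ_three]
      rfl
    rw [h3, h3, h3, cubA_C] at h2
    rw [← h2]
    rfl
  have h2 := congrArg (MvPolynomial.aeval ![x0, x1, x2]) h1
  rw [map_cubA, map_lf, map_lf, map_lf] at h2
  simpa using h2

variable {L : Type} [Field L] [Algebra ℂ L]

/-- The matrix acting on `(1, x, y)`. -/
def rot (M : Matrix (Fin 3) (Fin 3) ℂ) : Matrix (Fin 3) (Fin 3) ℂ :=
  !![M 2 2, M 2 0, M 2 1; M 0 2, M 0 0, M 0 1; M 1 2, M 1 0, M 1 1]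

theorem det_rot (M : Matrix (Fin 3) (Fin 3) ℂ) : (rot M).det = M.det := by
  rw [Matrix.det_fin_three, Matrix.det_fin_three]
  simp [rot]
  ring

/-- New affine coordinates of the projective plane. -/
theorem exists_chart (S : Coord L) (M : Matrix (Fin 3) (Fin 3) ℂ) (hM : M.det ≠ 0) :
    ∃ Q : Coord L, plane Q = plane S ∧ (∀ v, deg Q v = deg S v) ∧ lf M 2 Q.x Q.y 1 ≠ 0 ∧
      S.x = lf M 0 Q.x Q.y 1 / lf M 2 Q.x Q.y 1 ∧ S.y = lf M 1 Q.x Q.y 1 / lf M 2 Q.x Q.y 1 := by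
  have hB : (rot M).det ≠ 0 := by rwa [det_rot]
  have hu : IsUnit (rot M).det := isUnit_iff_ne_zero.2 hB
  have hB' : ((rot M)⁻¹).det ≠ 0 := by
    intro h0
    have := congrArg Matrix.det (Matrix.mul_nonsing_inv (rot M) hu)
    rw [Matrix.det_mul, h0, mul_zero, Matrix.det_one] at this
    exact zero_ne_one this
  obtain ⟨Q, hQ⟩ := H27.exists_PR S hB'
  have h1 := hQ.symm hB'
  rw [Matrix.nonsing_inv_nonsing_inv _ hu] at h1
  have e : ∀ i j : Fin 3, rot M i 0 = M j 2 → rot M i 1 = M j 0 → rot M i 2 = M j 1 →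
      lin Q ((rot M) i) = lf M j Q.x Q.y 1 := by
    intro i j h1 h2 h3
    unfold lin lf
    rw [h1, h2, h3]
    ring
  have e0 : lin Q ((rot M) 0) = lf M 2 Q.x Q.y 1 := e 0 2 rfl rfl rfl
  have e1 : lin Q ((rot M) 1) = lf M 0 Q.x Q.y 1 := e 1 0 rfl rfl rfl
  have e2 : lin Q ((rot M) 2) = lf M 1 Q.x Q.y 1 := e 2 1 rfl rfl rfl
  refine ⟨Q, H27.plane_eq hQ hB', H27.deg_eq hQ hB', ?_, ?_, ?_⟩
  · rw [← e0]
    exact H27.lin_ne Q (H27.row_ne hB 0)
  · rw [h1.1, e0, e1]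
  · rw [h1.2, e0, e2]

/-- The bracket of two quotients. -/
theorem br_div_div (ω : Bracket L) (a b : L) {c : L} (hc : c ≠ 0) :
    ω.br (a / c) (b / c) = (c * ω.br a b + a * ω.br b c + b * ω.br c a) / c ^ 3 := by
  rw [div_eq_mul_inv, div_eq_mul_inv, ω.mul_left, ω.mul_right, ω.mul_right, ω.inv_left hc,
    ω.inv_right hc, ω.inv_left hc, ω.inv_right hc, ω.alt, ω.skew a c]
  rw [ω.skew c b]
  field_simp
  ring

theorem br_lf (ω : Bracket L) (M : Matrix (Fin 3) (Fin 3) ℂ) (i j : Fin 3) (x y : L) :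
    ω.br (lf M i x y 1) (lf M j x y 1) =
      algebraMap ℂ L (M i 0 * M j 1 - M i 1 * M j 0) * ω.br x y := by
  have hc : ∀ (z : ℂ) (b c : L), ω.br (algebraMap ℂ L z * b) c = algebraMap ℂ L z * ω.br b c := by
    intro z b c
    rw [ω.mul_left, ω.const_left]; ring
  have hc' : ∀ (z : ℂ) (b c : L), ω.br c (algebraMap ℂ L z * b) = algebraMap ℂ L z * ω.br c b := by
    intro z b c
    rw [ω.mul_right, ω.const_right]; ring
  unfold lf
  rw [mul_one, mul_one]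
  simp only [ω.add_left, ω.add_right, hc, hc', ω.const_left, ω.const_right, ω.alt]
  rw [ω.skew y x, map_sub, map_mul, map_mul]
  ring

/-- The bracket of the coordinates in a new chart. -/
theorem br_chart (ω : Bracket L) (S Q : Coord L) (M : Matrix (Fin 3) (Fin 3) ℂ)
    (hM : M.det ≠ 0) (h2 : lf M 2 Q.x Q.y 1 ≠ 0) (hx : S.x = lf M 0 Q.x Q.y 1 / lf M 2 Q.x Q.y 1)
    (hy : S.y = lf M 1 Q.x Q.y 1 / lf M 2 Q.x Q.y 1) (a : Fin 10 → ℂ)
    (ha : ω.br S.x S.y = cubA a S.x S.y 1) :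
    ω.br Q.x Q.y = algebraMap ℂ L (M.det)⁻¹ *
      cubA a (lf M 0 Q.x Q.y 1) (lf M 1 Q.x Q.y 1) (lf M 2 Q.x Q.y 1) := by
  set m0 := lf M 0 Q.x Q.y 1 with hm0
  set m1 := lf M 1 Q.x Q.y 1 with hm1
  set m2 := lf M 2 Q.x Q.y 1 with hm2
  have hd : algebraMap ℂ L M.det ≠ 0 := by simpa using hM
  have h3 : ω.br S.x S.y = algebraMap ℂ L M.det * ω.br Q.x Q.y / m2 ^ 3 := by
    rw [hx, hy, br_div_div ω _ _ h2]
    congr 1
    rw [hm0, hm1, hm2, br_lf, br_lf, br_lf, Matrix.det_fin_three]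
    unfold lf
    simp only [map_add, map_sub, map_mul]
    ring
  have h4 : cubA a m0 m1 m2 = m2 ^ 3 * cubA a S.x S.y 1 := by
    rw [← cubA_hom, hx, hy, mul_one, mul_div_cancel₀ _ h2, mul_div_cancel₀ _ h2]
  rw [h4, ← ha, h3, map_inv₀]
  field_simp

end

end H26

end LCY
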