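import Mathlib
import Pool.Agent.Helper26.LC.K0a
import Pool.Agent.Helper98.LCY.LocG
import Pool.Agent.Helper51.LCY.G1
import Pool.Agent.Helper81.LCY.RowsA
import Pool.Agent.Helper82.LCY.Plane

/-!
The projective plane with a cubic curve as boundary: the curves of the plane and the equation
of the cubic.
-/

open Polynomial Pool.Agent.Helper82.LCY

namespace LCY

namespace H26

noncomputable section

variable {L : Type} [Field L] [Algebra ℂ L] {N : ℕ}

/-- The plane without blown up points. -/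
def pl (Q : Coord L) : PStr L 0 := ⟨Q, fun i => i.elim0, fun i => i.elim0⟩

theorem cur_iff (Q : Coord L) (v : DVal L) : (∃ R ∈ plane Q, Through R v) ↔ PlaneCur Q v := by
  have h := H98.st_A17 L 0 (pl Q) v
  constructor
  · intro h1
    rcases h.1 h1 with h2 | ⟨i, -⟩
    · exact h2
    · exact i.elim0
  · exact fun h1 => h.2 (Or.inl h1)

theorem cur_or (Q : Coord L) (v : DVal L) : PlaneCur Q v ∨ ∃ R ∈ plane Q, Centred R v := by
  rcases H98.st_A15 L 0 (pl Q) v with h | h
  · exact Or.inl ((cur_iff Q v).1 h)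
  · exact Or.inr h

/-- All curves of the plane are poles or have weight zero and are not contracted. -/
structure K0 (ω : Bracket L) (x : Fin (N + 1) → L) (Q : Coord L) : Prop where
  wt : ∀ v, PlaneCur Q v → ∀ n, ω.Wt v n → n = 0 ∨ n = -1
  nc : ∀ v, PlaneCur Q v → ω.Wt v 0 → ¬ Contracted x v

theorem K0.congr {ω : Bracket L} {x : Fin (N + 1) → L} {S Q : Coord L} (h : K0 ω x S)
    (hp : plane Q = plane S) : K0 ω x Q := by
  have key : ∀ v, PlaneCur Q v → PlaneCur S v := by
    intro v hv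
    rw [← cur_iff, hp] at hv
    rwa [← cur_iff]
  exact ⟨fun v hv => h.wt v (key v hv), fun v hv => h.nc v (key v hv)⟩

theorem one_le_deg (S : Coord L) {v : DVal L} (h : PlaneCur S v) : 1 ≤ deg S v := by
  rcases h with h | ⟨g, hg⟩
  · rw [H27.deg_of_inf h]
  · rw [H27.deg_of_adic hg]
    exact_mod_cast H27.one_le_tdeg hg.1

theorem K0.of_state {ω : Bracket L} {x : Fin (N + 1) → L} (T : PStr L 0) (h : State ω x T) :
    K0 ω x T.S := by
  have hc : ∀ v, PlaneCur T.S v → T.Cur v := fun v hv => (H98.st_A17 L 0 T v).2 (Or.inl hv)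
  refine ⟨fun v hv => h.wt v (hc v hv), fun v hv h0 hcon => ?_⟩
  have h1 := h.con v (hc v hv) h0 hcon
  have h2 := one_le_deg T.S hv
  simp only [ip, KK, PStr.cl, Finset.univ_eq_empty, Finset.sum_empty] at h1
  omega

/-- A place with centre in the affine plane, at which not both coordinates are constant, is a
curve of the plane. -/
theorem planeCur_of (Q : Coord L) (v : DVal L) (hx : v.Int Q.x) (hy : v.Int Q.y)
    (hnc : ¬ ((∃ c : ℂ, v.Pos (Q.x - algebraMap ℂ L c)) ∧
      ∃ c : ℂ, v.Pos (Q.y - algebraMap ℂ L c))) : PlaneCur Q v := by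
  rcases cur_or Q v with h | ⟨R, hR, hc⟩
  · exact h
  exfalso
  have key : ∀ a b : L, a ≠ 0 → H82.PtAt a⁻¹ b R → v.Int a → False := by
    intro a b ha hp hi
    obtain ⟨P, h1, h2, h3⟩ := hp
    have h4 : v.Pos P.x := by
      refine Or.inr (hc.2 _ ?_ P.x_ne ?_)
      · rw [← h3, ← ev_CX P.x P.y]
        exact P.ev_mem_loc _
      · rw [← h3, ← ev_CX P.x P.y]
        exact H81.inv_notMem_loc P H62.CX_ne H81.cf0_CX
    rw [h1] at h4
    have h5 := h4.resolve_left (inv_ne_zero ha)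
    rw [v.map_inv ha] at h5
    have h6 := hi.resolve_left ha
    omega
  rcases H82.mem_plane hR with ⟨a, b, h⟩ | ⟨b, h⟩ | h
  · obtain ⟨P, h1, h2, h3⟩ := h
    apply hnc
    constructor
    · refine ⟨a, ?_⟩
      rw [← h1]
      refine Or.inr (hc.2 _ ?_ P.x_ne ?_)
      · rw [← h3, ← ev_CX P.x P.y]
        exact P.ev_mem_loc _
      · rw [← h3, ← ev_CX P.x P.y]
        exact H81.inv_notMem_loc P H62.CX_ne H81.cf0_CX
    · refine ⟨b, ?_⟩
      rw [← h2]
      refine Or.inr (hc.2 _ ?_ P.y_ne ?_)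
      · rw [← h3, ← ev_X P.x P.y]
        exact P.ev_mem_loc _
      · rw [← h3, ← ev_X P.x P.y]
        exact H81.inv_notMem_loc P X_ne_zero H81.cf0_X
  · exact key _ _ Q.x_ne h hx
  · exact key _ _ Q.y_ne h hy

theorem plane_chart1 (S Q : Coord L) (hx : Q.x = S.x⁻¹) (hy : Q.y = S.y / S.x) :
    plane Q = plane S := by
  have h : H27.PR S Q !![0, 1, 0; 1, 0, 0; 0, 0, 1] := by
    constructor
    · rw [hx]; simp [lin]
    · rw [hy]; simp [lin]
  exact H27.plane_eq h (by rw [Matrix.det_fin_three]; simp)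

theorem plane_chart2 (S Q : Coord L) (hx : Q.x = S.y⁻¹) (hy : Q.y = S.x / S.y) :
    plane Q = plane S := by
  have h : H27.PR S Q !![0, 0, 1; 1, 0, 0; 0, 1, 0] := by
    constructor
    · rw [hx]; simp [lin]
    · rw [hy]; simp [lin]
  exact H27.plane_eq h (by rw [Matrix.det_fin_three]; simp)

theorem plane_chart3 (S Q : Coord L) (hx : Q.x = S.x / S.y) (hy : Q.y = S.y⁻¹) :
    plane Q = plane S := by
  have h : H27.PR S Q !![0, 0, 1; 0, 1, 0; 1, 0, 0] := by
    constructor
    · rw [hx]; simp [lin]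
    · rw [hy]; simp [lin]
  exact H27.plane_eq h (by rw [Matrix.det_fin_three]; simp)

theorem plane_chart0 (S Q : Coord L) (hx : Q.x = S.x) (hy : Q.y = S.y) :
    plane Q = plane S := by
  have h : H27.PR S Q !![1, 0, 0; 0, 1, 0; 0, 0, 1] := by
    constructor
    · rw [hx]; simp [lin]
    · rw [hy]; simp [lin]
  exact H27.plane_eq h (by rw [Matrix.det_fin_three]; simp)

theorem planeCur_of_curveP2 {S : Coord L} {v : DVal L} (h : CurveP2 S v) : PlaneCur S v := by
  obtain ⟨Q, hQ, hX, hY, hnc⟩ := h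
  have h1 := planeCur_of Q v hX hY hnc
  have hp : plane Q = plane S := by
    rcases hQ with ⟨h2, h3⟩ | ⟨h2, h3⟩ | ⟨h2, h3⟩
    · exact plane_chart0 S Q h2 h3
    · exact plane_chart1 S Q h2 h3
    · exact plane_chart2 S Q h2 h3
  rw [← cur_iff, hp] at h1
  rwa [← cur_iff]

/-- The exponents of a cubic polynomial. -/
def ex10 : Fin 10 → ℕ × ℕ :=
  ![(3, 0), (2, 1), (2, 0), (1, 2), (1, 1), (1, 0), (0, 3), (0, 2), (0, 1), (0, 0)]

theorem ev_cubic (f : ℂ[X][X]) (hf : ∀ e, cf f e ≠ 0 → e.1 + e.2 ≤ 3) (x y : L) :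
    ev x y f = cubA (fun i => cf f (ex10 i)) x y 1 := by
  rw [ev_eq_sum]
  have hinj : Function.Injective ex10 := by
    intro i j hij
    revert hij
    revert i j
    decide
  have h1 : ∑ e ∈ bs f, algebraMap ℂ L (cf f e) * x ^ e.1 * y ^ e.2 =
      ∑ e ∈ Finset.univ.map ⟨ex10, hinj⟩, algebraMap ℂ L (cf f e) * x ^ e.1 * y ^ e.2 := by
    refine Finset.sum_subset ?_ ?_
    · rintro ⟨i, j⟩ he
      rw [mem_bs] at he
      have h2 := hf _ he
      dsimp only at h2
      rw [Finset.mem_map]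
      have hi : i ≤ 3 := by omega
      have hj : j ≤ 3 := by omega
      interval_cases i <;> interval_cases j <;> first
        | omega
        | exact ⟨0, Finset.mem_univ _, rfl⟩
        | exact ⟨1, Finset.mem_univ _, rfl⟩
        | exact ⟨2, Finset.mem_univ _, rfl⟩
        | exact ⟨3, Finset.mem_univ _, rfl⟩
        | exact ⟨4, Finset.mem_univ _, rfl⟩
        | exact ⟨5, Finset.mem_univ _, rfl⟩
        | exact ⟨6, Finset.mem_univ _, rfl⟩
        | exact ⟨7, Finset.mem_univ _, rfl⟩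
        | exact ⟨8, Finset.mem_univ _, rfl⟩
        | exact ⟨9, Finset.mem_univ _, rfl⟩
    · intro e _ he
      rw [mem_bs, not_not] at he
      rw [he, map_zero, zero_mul, zero_mul]
  rw [h1, Finset.sum_map]
  simp only [Function.Embedding.coeFn_mk, cubA]
  rw [Fin.sum_univ_def]
  simp [List.finRange, ex10]
  ring

/-- The equation of the cubic. -/
theorem exists_cubic {ω : Bracket L} {x : Fin (N + 1) → L} (hA : Adm ω x) (S : Coord L)
    (h : K0 ω x S) : ∃ a : Fin 10 → ℂ, ω.br S.x S.y = cubA a S.x S.y 1 := by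
  have hW : ∀ v, ∃ k, ω.Wt v k := fun v => H73.exists_wt hA.trdeg hA.fg ω v
  have hWP : ∀ v k, ω.Wt v k → WtProp ω v k := fun v k hk => wtProp hA.trdeg hA.fg ω v hk
  obtain ⟨f, hf, hf0, -⟩ := br_pol S hW hWP hA.h1 (fun v hv k hk => by
    rcases h.wt v (planeCur_of_curveP2 hv) k hk with h1 | h1 <;> omega)
  obtain ⟨k, hk⟩ := hW S.inf
  have h1 := wt_inf S (hWP _ _ hk)
  have h2 := h.wt _ (planeCur_of_curveP2 (curveP2_inf S)) k hk
  have h3 : ∀ e, cf f e ≠ 0 → e.1 + e.2 ≤ 3 := by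
    rw [← hf] at h1
    rcases h2 with rfl | rfl
    · exact (inf_ev S hf0 (D := 3) (by rw [h1]; norm_num)).1
    · intro e he
      have := (inf_ev S hf0 (D := 2) (by rw [h1]; norm_num)).1 e he
      omega
  exact ⟨_, by rw [← hf]; exact ev_cubic f h3 S.x S.y⟩

end

end H26

end LCY
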