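import Mathlib
import Pool.Agent.Helper26.LC.K0b
import Pool.Agent.Helper26.LC.ET1
import Pool.Agent.Helper2.LCY.E1b

/-!
The projective plane with a singular cubic curve as boundary: projection from a double point.
-/

open Polynomial

namespace LCY

namespace H26

noncomputable section

variable {L : Type} [Field L] [Algebra ℂ L] {N : ℕ}

theorem centred_x {P : Coord L} {v : DVal L} (h : Centred P.loc v) : v.Pos P.x := by
  refine Or.inr (h.2 _ ?_ P.x_ne ?_)
  · rw [← ev_CX P.x P.y]
    exact P.ev_mem_loc _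
  · rw [← ev_CX P.x P.y]
    exact H81.inv_notMem_loc P H62.CX_ne H81.cf0_CX

theorem centred_y {P : Coord L} {v : DVal L} (h : Centred P.loc v) : v.Pos P.y := by
  refine Or.inr (h.2 _ ?_ P.y_ne ?_)
  · rw [← ev_X P.x P.y]
    exact P.ev_mem_loc _
  · rw [← ev_X P.x P.y]
    exact H81.inv_notMem_loc P X_ne_zero H81.cf0_X

theorem ptAt_pos {a b : L} {R : Subalgebra ℂ L} {v : DVal L} (h : H82.PtAt a b R)
    (hc : Centred R v) : v.Pos a ∧ v.Pos b := by
  obtain ⟨P, rfl, rfl, rfl⟩ := h
  exact ⟨centred_x hc, centred_y hc⟩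

/-- The boundary has a double point at the origin. -/
theorem fam_sing {ω : Bracket L} {x : Fin (N + 1) → L} (hA : Adm ω x) (Q : Coord L)
    (h : K0 ω x Q) (f2 f3 : ℂ[X])
    (hbr : ω.br Q.x Q.y = Q.x ^ 2 * aeval (Q.y / Q.x) f2 + Q.x ^ 3 * aeval (Q.y / Q.x) f3) :
    Fam ω x := by
  have hx0 := Q.x_ne
  have hy0 := Q.y_ne
  obtain ⟨P, hPx, hPy⟩ := Q.tor (-1) 1 1 0 (Or.inr (by norm_num))
  have hPx' : P.x = Q.y / Q.x := by
    rw [hPx, zpow_neg_one, zpow_one, div_eq_mul_inv, mul_comm]
  have hPy' : P.y = Q.x := by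
    rw [hPy, zpow_one, zpow_zero, mul_one]
  have hbr2 : ω.br P.x P.y = -(Q.x * (aeval P.x f2 + Q.x * aeval P.x f3)) := by
    rw [ω.skew, hPy', hPx', ω.br_div hx0, hbr]
    field_simp
  refine H2.fam_of_hor st_CB ω x hA P ?_
  intro v k hv hk
  have hs : ResTr v.v P.x := fun p hp => ⟨P.trans_x hp, hv p hp⟩
  have hg := goodWt_of hA.trdeg hA.fg ω v hk
  by_cases hpos : 0 < v.v Q.x
  · left
    obtain ⟨n, hn⟩ : ∃ n : ℕ, v.v Q.x = n := ⟨(v.v Q.x).toNat, by
      rw [Int.toNat_of_nonneg hpos.le]⟩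
    have hn0 : n ≠ 0 := by
      rintro rfl
      rw [hn] at hpos
      exact lt_irrefl _ hpos
    have hn1 : (1 : ℤ) ≤ n := by omega
    obtain ⟨h1, h2⟩ := hg.br_val hs (c := P.y) P.y_ne hn0 (by rw [hPy', hn])
    rw [hbr2] at h1 h2
    have h3 := neg_ne_zero.1 h1
    have h4 : aeval P.x f2 + Q.x * aeval P.x f3 ≠ 0 := right_ne_zero_of_mul h3
    rw [v.map_neg h3, v.map_mul _ _ hx0 h4, hn] at h2
    by_cases hf2 : f2 = 0
    · exfalso
      rw [hf2, map_zero, zero_add] at h4 h2
      have h5 : f3 ≠ 0 := by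
        rintro rfl
        rw [map_zero, mul_zero] at h4
        exact h4 rfl
      rw [v.map_mul _ _ hx0 (hs f3 h5).1, (hs f3 h5).2, hn] at h2
      have h6 := hA.h1 v k hk
      omega
    · obtain ⟨h5, h6⟩ := hs f2 hf2
      have h7 : v.v (aeval P.x f2 + Q.x * aeval P.x f3) = 0 := by
        rw [← h6]
        refine (v.val_add_of_lt h5 ?_).2
        by_cases hf3 : f3 = 0
        · left; rw [hf3, map_zero, mul_zero]
        · right
          rw [h6, v.map_mul _ _ hx0 (hs f3 hf3).1, (hs f3 hf3).2, add_zero]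
          exact hpos
      rw [h7] at h2
      omega
  · have hpc : PlaneCur Q v := by
      rcases cur_or Q v with h1 | ⟨R, hR, hc⟩
      · exact h1
      exfalso
      have hs0 : v.v P.x = 0 := DVal.resTr_val v hs
      rcases H82.mem_plane hR with ⟨a, b, h1⟩ | ⟨b, h1⟩ | h1
      · obtain ⟨h2, h3⟩ := ptAt_pos h1 hc
        have ha : a ≠ 0 := by
          rintro rfl
          rw [map_zero, sub_zero] at h2
          exact hpos (h2.resolve_left hx0)
        have ha' : algebraMap ℂ L a ≠ 0 := by simpa using ha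
        have hxi : v.Int Q.x := by
          have := v.int_add (v.pos_int26 h2) (v.int_const a)
          rwa [sub_add_cancel] at this
        have hx1 : v.v Q.x = 0 := le_antisymm (not_lt.1 hpos) (hxi.resolve_left hx0)
        have h4 : P.x - algebraMap ℂ L (b / a) =
            ((Q.y - algebraMap ℂ L b) - algebraMap ℂ L (b / a) * (Q.x - algebraMap ℂ L a)) *
              Q.x⁻¹ := by
          rw [hPx', map_div₀]
          field_simp
          ring
        have h5 : v.Pos (P.x - algebraMap ℂ L (b / a)) := by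
          rw [h4]
          refine v.pos_mul_int (v.pos_sub26 h3 ?_) ?_
          · rw [mul_comm]
            exact v.pos_mul_int h2 (v.int_const _)
          · right
            rw [v.map_inv hx0, hx1, neg_zero]
        have h6 := DVal.resTr_sub v hs (b / a)
        rcases h5 with h5 | h5
        · exact DVal.ne_const_of_resTr v hs (b / a) (sub_eq_zero.1 h5)
        · omega
      · obtain ⟨-, h3⟩ := ptAt_pos h1 hc
        rw [← hPx'] at h3
        have h6 := DVal.resTr_sub v hs b
        rcases h3 with h5 | h5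
        · exact DVal.ne_const_of_resTr v hs b (sub_eq_zero.1 h5)
        · omega
      · obtain ⟨-, h3⟩ := ptAt_pos h1 hc
        have h4 : Q.x / Q.y = P.x⁻¹ := by rw [hPx', inv_div]
        rw [h4] at h3
        have h5 := h3.resolve_left (inv_ne_zero P.x_ne)
        rw [v.map_inv P.x_ne, hs0] at h5
        omega
    rcases h.wt v hpc k hk with rfl | rfl
    · exact Or.inr ⟨rfl, h.nc v hpc hk⟩
    · exact Or.inl rfl

end

end H26

end LCY
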