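import Mathlib
import Pool.Agent.Helper26.LC.K0c
import Pool.Agent.Helper74.LY.Flex
import Pool.Agent.Helper74.LY.P2N
import Pool.Agent.Helper48.LCY.Red

/-!
The projective plane with a cubic curve as boundary (the case `k = 0`).
-/

open Polynomial

namespace LCY

namespace H26

noncomputable section

variable {L : Type} [Field L] [Algebra ℂ L] {N : ℕ}

/-- A vector is the last column of an invertible matrix. -/
theorem exists_mat (p : Fin 3 → ℂ) (hp : p ≠ 0) :
    ∃ M : Matrix (Fin 3) (Fin 3) ℂ, M.det ≠ 0 ∧ ∀ i, M i 2 = p i := by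
  by_cases h2 : p 2 = 0
  · by_cases h1 : p 1 = 0
    · have h0 : p 0 ≠ 0 := by
        intro h0
        apply hp
        funext i
        fin_cases i
        · exact h0
        · exact h1
        · exact h2
      refine ⟨!![0, 0, p 0; 1, 0, p 1; 0, 1, p 2], ?_, ?_⟩
      · rw [Matrix.det_fin_three]
        simpa using h0
      · intro i
        fin_cases i <;> rfl
    · refine ⟨!![1, 0, p 0; 0, 0, p 1; 0, 1, p 2], ?_, ?_⟩
      · rw [Matrix.det_fin_three]
        simpa using h1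
      · intro i
        fin_cases i <;> rfl
  · refine ⟨!![1, 0, p 0; 0, 1, p 1; 0, 0, p 2], ?_, ?_⟩
    · rw [Matrix.det_fin_three]
      simpa using h2
    · intro i
      fin_cases i <;> rfl

/-- The cubic has a singular point. -/
theorem fam_of_sing {ω : Bracket L} {x : Fin (N + 1) → L} (hA : Adm ω x) (S : Coord L)
    (h : K0 ω x S) (a : Fin 10 → ℂ) (ha : ω.br S.x S.y = cubA a S.x S.y 1)
    (p : Fin 3 → ℂ) (hp : p ≠ 0) (h0 : LCY74.cub a p = 0) (hg : LCY74.grad a p = 0) :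
    Fam ω x := by
  obtain ⟨M, hM, hMp⟩ := exists_mat p hp
  obtain ⟨Q, hQ1, -, hQ2, hQx, hQy⟩ := exists_chart S M hM
  have hbr := br_chart ω S Q M hM hQ2 hQx hQy a ha
  set q : Fin 3 → ℂ := fun i => M i 0 with hq
  set r : Fin 3 → ℂ := fun i => M i 1 with hr
  obtain ⟨a2, ha2⟩ : ∃ z : ℂ, z = LCY74.hq a p q q / 2 := ⟨_, rfl⟩
  obtain ⟨b2, hb2⟩ : ∃ z : ℂ, z = LCY74.hq a p q r := ⟨_, rfl⟩
  obtain ⟨c2, hc2⟩ : ∃ z : ℂ, z = LCY74.hq a p r r / 2 := ⟨_, rfl⟩
  obtain ⟨a3, ha3⟩ : ∃ z : ℂ, z = LCY74.cub a q := ⟨_, rfl⟩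
  obtain ⟨b3, hb3⟩ : ∃ z : ℂ, z = LCY74.dot3 (LCY74.grad a q) r := ⟨_, rfl⟩
  obtain ⟨c3, hc3⟩ : ∃ z : ℂ, z = LCY74.dot3 (LCY74.grad a r) q := ⟨_, rfl⟩
  obtain ⟨d3, hd3⟩ : ∃ z : ℂ, z = LCY74.cub a r := ⟨_, rfl⟩
  have hG := cubA_transfer a M
    (MvPolynomial.X 2 * (MvPolynomial.C a2 * MvPolynomial.X 0 ^ 2 +
      MvPolynomial.C b2 * MvPolynomial.X 0 * MvPolynomial.X 1 +
      MvPolynomial.C c2 * MvPolynomial.X 1 ^ 2) + MvPolynomial.C a3 * MvPolynomial.X 0 ^ 3 +
      MvPolynomial.C b3 * MvPolynomial.X 0 ^ 2 * MvPolynomial.X 1 +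
      MvPolynomial.C c3 * MvPolynomial.X 0 * MvPolynomial.X 1 ^ 2 +
      MvPolynomial.C d3 * MvPolynomial.X 1 ^ 3) (by
    intro x
    have h1 : M.mulVec x = x 0 • q + x 2 • p + x 1 • r := by
      funext i
      unfold Matrix.mulVec dotProduct
      rw [Fin.sum_univ_three]
      simp only [Pi.add_apply, Pi.smul_apply, smul_eq_mul, hq, hr, hMp]
      ring
    have hd : ∀ u : Fin 3 → ℂ, LCY74.dot3 (0 : Fin 3 → ℂ) u = 0 := by
      intro u
      simp [LCY74.dot3]
    rw [h1, LCY74.cub_expand, h0, hg, hd, hd, ← ha2, ← hb2, ← hc2, ← ha3, ← hb3, ← hc3, ← hd3]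
    simp only [map_add, map_mul, map_pow, MvPolynomial.eval_X, MvPolynomial.eval_C]
    ring) Q.x Q.y 1
  rw [hG] at hbr
  set κ : ℂ := (M.det)⁻¹
  refine fam_sing hA Q (h.congr hQ1) (C κ * (C a2 + C b2 * X + C c2 * X ^ 2))
    (C κ * (C a3 + C b3 * X + C c3 * X ^ 2 + C d3 * X ^ 3)) ?_
  rw [hbr]
  have hx := Q.x_ne
  simp only [map_add, map_mul, map_pow, aeval_C, aeval_X, MvPolynomial.aeval_X,
    MvPolynomial.aeval_C]
  simp
  field_simp
  ring

theorem plane_trans (S Q : Coord L) (a : ℂ) (hx : Q.x = S.x - algebraMap ℂ L a)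
    (hy : Q.y = S.y - algebraMap ℂ L 0) : plane Q = plane S := by
  have h : H27.PR S Q !![1, 0, 0; -a, 1, 0; 0, 0, 1] := by
    constructor
    · rw [hx]; simp [lin]; ring
    · rw [hy]; simp [lin]
  exact H27.plane_eq h (by rw [Matrix.det_fin_three]; simp)

/-- A double root of the cubic polynomial. -/
theorem exists_double {A B : ℂ} (h : 4 * A ^ 3 + 27 * B ^ 2 = 0) :
    ∃ z : ℂ, z ^ 3 + A * z + B = 0 ∧ 3 * z ^ 2 + A = 0 := by
  by_cases hA : A = 0
  · refine ⟨0, ?_, ?_⟩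
    · rw [hA] at h ⊢
      have : B = 0 := by
        have h1 : B ^ 2 = 0 := by linear_combination h / 27
        exact pow_eq_zero_iff (two_ne_zero) |>.1 h1
      rw [this]; ring
    · rw [hA]; ring
  · refine ⟨-3 * B / (2 * A), ?_, ?_⟩
    · field_simp
      linear_combination (-B) * h
    · field_simp
      linear_combination h

theorem isAdic_of_place {Q : Coord L} {g : ℂ[X][X]} {v : DVal L} (hg : Irreducible g)
    (h : IsPlaceOf Q g v) : IsAdic Q g v := by
  refine H81.adic_of_centre Q hg.prime ?_ (Or.inr h.1) ?_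
  · intro f
    by_cases hf : f = 0
    · left; rw [hf, map_zero]
    · right
      obtain ⟨c, hc, hc2⟩ := (H62.fin_mult hg.prime hf).exists_eq_pow_mul_and_not_dvd
      have hc0 : c ≠ 0 := fun h0 => hc2 (h0 ▸ dvd_zero g)
      rw [hc, map_mul, v.map_mul _ _ (Q.ne (pow_ne_zero _ hg.ne_zero)) (Q.ne hc0), map_pow,
        v.map_pow (Q.ne hg.ne_zero), h.2 c hc2, add_zero]
      exact mul_nonneg (Int.natCast_nonneg _) h.1.le
  · intro f hf
    by_contra hn
    rcases hf with hf | hf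
    · exact hn (Q.inj f hf ▸ dvd_zero g)
    · rw [h.2 f hn] at hf
      exact lt_irrefl _ hf

/-- A curve of the plane at which the bracket of the coordinates of the chart is a unit. -/
theorem cyp_of {ω : Bracket L} {x : Fin (N + 1) → L} (hA : Adm ω x) {Q : Coord L} (h : K0 ω x Q)
    {g f : ℂ[X][X]} (hbr : ω.br Q.x Q.y = ev Q.x Q.y f) (hg : Irreducible g) (hgf : ¬ g ∣ f)
    {v : DVal L} (hv : IsPlaceOf Q g v) : CYp ω x v := by
  have h1 := isAdic_of_place hg hv
  obtain ⟨k, hk⟩ := H73.exists_wt hA.trdeg hA.fg ω v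
  have h2 := H81.IsAdic.same h1 (H81.adic_pval Q hg.prime)
  have h3 := H48.wt_same h2 hk
  have h4 := wt_pval Q hg.prime (wtProp hA.trdeg hA.fg ω _ h3)
  rw [← h2 _ (Q.br_ne ω), hbr, hv.2 f hgf] at h4
  have h5 : k = 0 := by omega
  subst h5
  exact ⟨h.nc v (Or.inr ⟨g, h1⟩) hk, hk⟩

/-- The boundary is a Weierstrass cubic. -/
theorem fam_of_wei {ω : Bracket L} {x : Fin (N + 1) → L} (hA : Adm ω x) (Q : Coord L)
    (h : K0 ω x Q) (c A B : ℂ) (hc : c ≠ 0) (hbr : ω.br Q.x Q.y = algebraMap ℂ L c *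
      (Q.y ^ 2 - Q.x ^ 3 - algebraMap ℂ L A * Q.x - algebraMap ℂ L B)) : Fam ω x := by
  have hx0 := Q.x_ne
  have hy0 := Q.y_ne
  by_cases hd : 4 * A ^ 3 + 27 * B ^ 2 = 0
  · obtain ⟨z, hz1, hz2⟩ := exists_double hd
    obtain ⟨P, hPx, hPy⟩ := Q.trans z 0
    have hPx0 := P.x_ne
    refine fam_sing hA P (h.congr (plane_trans Q P z hPx hPy))
      (C c * (X ^ 2 - C (3 * z))) (C (-c)) ?_
    have h1 : ω.br P.x P.y = ω.br Q.x Q.y := by
      rw [hPx, hPy, ω.sub_left, ω.sub_right, ω.sub_right, ω.const_left, ω.const_right]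
      rw [ω.const_left]
      ring
    have hPy' : Q.y = P.y := by rw [hPy, map_zero, sub_zero]
    have hPx' : Q.x = P.x + algebraMap ℂ L z := by rw [hPx]; ring
    have e1 : algebraMap ℂ L z ^ 3 + algebraMap ℂ L A * algebraMap ℂ L z + algebraMap ℂ L B = 0 := by
      rw [← map_pow, ← map_mul, ← map_add, ← map_add, hz1, map_zero]
    have e2 : 3 * algebraMap ℂ L z ^ 2 + algebraMap ℂ L A = 0 := by
      have := congrArg (algebraMap ℂ L) hz2
      rwa [map_add, map_mul, map_pow, map_zero, map_ofNat] at this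
    rw [h1, hbr, hPy', hPx']
    simp only [map_sub, map_mul, map_pow, map_neg, aeval_C, aeval_X, map_ofNat]
    field_simp
    linear_combination (-algebraMap ℂ L c) * e1 + (-algebraMap ℂ L c * P.x) * e2
  · obtain ⟨P, hPx, hPy⟩ := Q.tor 1 (-1) 0 (-1) (Or.inr (by norm_num))
    have hPx' : P.x = Q.x / Q.y := by
      rw [hPx, zpow_one, zpow_neg_one, div_eq_mul_inv]
    have hPy' : P.y = Q.y⁻¹ := by
      rw [hPy, zpow_zero, zpow_neg_one, one_mul]
    refine LCY74.p2n L N ω x Q P A B _ hPx' hPy' hd rfl ?_ ?_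
    · intro g v hg hgf hv
      refine cyp_of hA h (f := C (C c) * (X ^ 2 - C (X ^ 3 + C A * X + C B))) ?_ hg ?_ hv
      · rw [hbr, map_mul, map_sub, map_pow, ev_X, ev_C, ev_C, aeval_C]
        simp only [map_add, map_mul, map_pow, aeval_C, aeval_X]
        ring
      · intro hd
        rcases hg.prime.dvd_or_dvd hd with h1 | h1
        · have hu : IsUnit (C (C c) : ℂ[X][X]) := ((isUnit_iff_ne_zero.2 hc).map C).map C
          exact hg.not_isUnit (isUnit_of_dvd_unit h1 hu)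
        · exact hgf h1
    · intro v hv
      refine cyp_of hA (h.congr (plane_chart3 Q P hPx' hPy')) (g := X)
        (f := C (C (-c)) * (X - C (X ^ 3) - C (C A * X) * X ^ 2 - C (C B) * X ^ 3)) ?_
        irreducible_X ?_ hv
      · have h1 : ω.br P.x P.y = - (Q.y⁻¹ ^ 3 * ω.br Q.x Q.y) := by
          rw [hPx', hPy', div_eq_mul_inv, ω.mul_left, ω.alt, ω.inv_right hy0]
          ring
        rw [h1, hbr]
        simp only [map_sub, map_mul, map_pow, map_neg, ev_X, ev_C, aeval_C, aeval_X]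
        rw [hPx', hPy']
        field_simp
      · rw [X_dvd_iff]
        intro h1
        have h2 := congrArg (fun p : ℂ[X] => p.coeff 3) h1
        simp only [mul_coeff_zero, coeff_sub, coeff_C_zero, coeff_X_zero, zero_sub,
          coeff_X_pow, mul_ite, mul_one, mul_zero, coeff_C_mul, coeff_neg, coeff_zero] at h2
        simp at h2
        exact hc h2

/-- The case `k = 0`. -/
theorem fam_K0 {ω : Bracket L} {x : Fin (N + 1) → L} (hA : Adm ω x) (S : Coord L)
    (h : K0 ω x S) : Fam ω x := by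
  obtain ⟨a, ha⟩ := exists_cubic hA S h
  by_cases hs : ∃ p : Fin 3 → ℂ, p ≠ 0 ∧ LCY74.cub a p = 0 ∧ LCY74.grad a p = 0
  · obtain ⟨p, hp, h0, hg⟩ := hs
    exact fam_of_sing hA S h a ha p hp h0 hg
  · push Not at hs
    obtain ⟨k, p, hp, hp0, hpg, h1, h2, h3⟩ := LCY74.exists_flex a hs
    obtain ⟨M, c, A, B, hM, hc, -, -, hMx⟩ := LCY74.normal_form a k p hp hp0 hpg h1 h2 h3
    obtain ⟨Q, hQ1, -, hQ2, hQx, hQy⟩ := exists_chart S M hM
    have hbr := br_chart ω S Q M hM hQ2 hQx hQy a ha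
    have hG := cubA_transfer a M
      (MvPolynomial.C c * (MvPolynomial.X 1 ^ 2 * MvPolynomial.X 2 - MvPolynomial.X 0 ^ 3 -
        MvPolynomial.C A * MvPolynomial.X 0 * MvPolynomial.X 2 ^ 2 -
        MvPolynomial.C B * MvPolynomial.X 2 ^ 3)) (by
      intro x
      rw [hMx]
      simp only [map_sub, map_mul, map_pow, MvPolynomial.eval_X, MvPolynomial.eval_C]) Q.x Q.y 1
    rw [hG] at hbr
    refine fam_of_wei hA Q (h.congr hQ1) (M.det⁻¹ * c) A B
      (mul_ne_zero (inv_ne_zero hM) hc) ?_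
    rw [hbr]
    simp only [map_sub, map_mul, map_pow, MvPolynomial.aeval_X, MvPolynomial.aeval_C]
    simp
    ring

theorem fam_zero {ω : Bracket L} {x : Fin (N + 1) → L} (hA : Adm ω x) (T : PStr L 0)
    (h : State ω x T) : Fam ω x := fam_K0 hA T.S (K0.of_state T h)

end

end H26

end LCY
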