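import Pool.Agent.Helper48.KM.DOM
import Pool.Agent.Helper48.KM.FI
import Pool.Agent.Helper48.KM.ALL
import Pool.Agent.Helper2.KM.LV
import Pool.Agent.Helper48.KM.BZ
import Pool.Agent.Helper53.KM.DEN
import Pool.Agent.Helper30.KM.NRM
import Pool.Agent.Helper61.KM.NIN
import Pool.Agent.Helper35.KM.UNC
import Pool.Agent.Helper97.KM.EV1
import Pool.Agent.Helper91.KM.EV2
import Pool.Agent.Helper37.KM.EV3
import Pool.Agent.Helper83.KM.TH
import Pool.Agent.Helper48.KM.ONE
import Pool.Agent.Helper78.KM.EI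
import Pool.Agent.Helper7.KM.NI

/-!
The statement ST_ALL of the rank one project (MP_f7e214_ag), from its rows.
-/

namespace LCY

namespace H26

theorem km_all : Pool.Agent.Helper48.KM.ST_ALL := by
  have hunc := Pool.Agent.Helper48.KM.st_UNC
  exact Pool.Agent.Helper48.KM.st_ALL
    (Pool.Agent.Helper48.KM.st_DOM Pool.Agent.Helper2.KM.st_LV Pool.Agent.Helper48.KM.st_BZ)
    Pool.Agent.Helper48.KM.st_DEN Pool.Agent.Helper48.KM.st_NRM Pool.Agent.Helper48.KM.st_NIN
    (Pool.Agent.Helper48.KM.st_EV1 hunc) (Pool.Agent.Helper48.KM.st_EV2 hunc)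
    (Pool.Agent.Helper48.KM.st_EV3 hunc) (Pool.Agent.Helper48.KM.st_TH hunc)
    (Pool.Agent.Helper48.KM.st_FI hunc) Pool.Agent.Helper48.KM.st_ONE
    Pool.Agent.Helper48.KM.st_EI Pool.Agent.Helper48.KM.st_NI

end H26

end LCY
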