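import Mathlib

/-!
Derivations at points of an affine variety: the Jacobian argument near a prime ideal.
-/

open MvPolynomial

namespace LCY

noncomputable section

/-- A derivation at the point `χ`. -/
structure IsDer {A : Type} [CommRing A] [Algebra ℂ A] (χ : A →ₐ[ℂ] ℂ) (δ : A →ₗ[ℂ] ℂ) : Prop where
  mul : ∀ x y, δ (x * y) = χ x * δ y + χ y * δ x

variable {A : Type} [CommRing A] [Algebra ℂ A] {χ : A →ₐ[ℂ] ℂ} {δ : A →ₗ[ℂ] ℂ}

theorem IsDer.one (h : IsDer χ δ) : δ 1 = 0 := by
  have h1 := h.mul 1 1
  rw [mul_one, map_one χ] at h1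
  linear_combination -h1

theorem IsDer.const (h : IsDer χ δ) (c : ℂ) : δ (algebraMap ℂ A c) = 0 := by
  rw [Algebra.algebraMap_eq_smul_one, map_smul, h.one, smul_zero]

theorem IsDer.aeval (h : IsDer χ δ) {r : ℕ} (a : Fin r → A) (P : MvPolynomial (Fin r) ℂ) :
    δ (MvPolynomial.aeval a P) = ∑ l, χ (MvPolynomial.aeval a (pderiv l P)) * δ (a l) := by
  classical
  induction P using MvPolynomial.induction_on with
  | C c =>
    rw [aeval_C, h.const]
    simp
  | add p q hp hq =>
    simp only [map_add, hp, hq, add_mul, Finset.sum_add_distrib]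
  | mul_X p k hp =>
    rw [map_mul, aeval_X, h.mul, hp, Finset.mul_sum]
    have : ∀ l, χ (MvPolynomial.aeval a (pderiv l (p * X k))) * δ (a l) =
        (if l = k then χ (MvPolynomial.aeval a p) * δ (a l) else 0) +
          χ (a k) * (χ (MvPolynomial.aeval a (pderiv l p)) * δ (a l)) := by
      intro l
      rw [Derivation.leibniz, pderiv_X]
      simp only [smul_eq_mul, map_add, map_mul, aeval_X]
      by_cases hl : l = k
      · subst hl
        simp
        ring
      · rw [if_neg hl, Pi.single_apply, if_neg (fun e => hl e.symm)]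
        simp
        ring
    simp only [this, Finset.sum_add_distrib, Finset.sum_ite_eq', Finset.mem_univ, if_true]

theorem IsDer.eval (h : IsDer χ δ) (a : A) (R : Polynomial A) (hR : ∀ n, δ (R.coeff n) = 0) :
    δ (R.eval a) = χ (R.derivative.eval a) * δ a := by
  have hpow : ∀ n : ℕ, δ (a ^ n) = n * χ a ^ (n - 1) * δ a := by
    intro n
    induction n with
    | zero => simp [h.one]
    | succ n ih =>
      rw [pow_succ, h.mul, ih, map_pow]
      cases n with
      | zero => simp
      | succ n =>
        rw [Nat.add_sub_cancel, Nat.add_sub_cancel]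
        push_cast
        ring
  rw [Polynomial.eval_eq_sum, Polynomial.derivative_eval, Polynomial.sum, Polynomial.sum, map_sum,
    map_sum, Finset.sum_mul]
  refine Finset.sum_congr rfl fun n _ => ?_
  rw [h.mul, hR, hpow]
  simp only [map_mul, map_natCast, map_pow]
  ring

/-- The Jacobian argument. -/
theorem exists_jac {A : Type} [CommRing A] [Algebra ℂ A] {r : ℕ} (a : Fin r → A)
    (hgen : Algebra.adjoin ℂ (Set.range a) = ⊤) (q : Ideal A) [hq : q.IsPrime]
    (T : Set A) (π : A) (hπ : π ∈ q) (hπT : π ∈ Algebra.adjoin ℂ T)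
    (s w : Fin r → A) (R : Fin r → Polynomial A)
    (hR : ∀ k n, (R k).coeff n ∈ Algebra.adjoin ℂ T) (hs : ∀ k, s k ∉ q)
    (hRq : ∀ k, (R k).eval (a k) ∈ q) (hR' : ∀ k, (R k).derivative.eval (a k) ∉ q)
    (hrel : ∀ k, s k * (R k).eval (a k) = π * w k) :
    ∃ h, h ∉ q ∧ ∀ (χ : A →ₐ[ℂ] ℂ), χ h ≠ 0 → ∀ δ : A →ₗ[ℂ] ℂ, IsDer χ δ →
      (∀ x ∈ T, δ x = 0) → δ = 0 := by
  classical
  have hsur : ∀ x : A, ∃ P : MvPolynomial (Fin r) ℂ, MvPolynomial.aeval a P = x := by
    intro x
    have hx : x ∈ Algebra.adjoin ℂ (Set.range a) := by rw [hgen]; trivial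
    rw [Algebra.adjoin_range_eq_range_aeval] at hx
    exact hx
  choose S hS using fun k => hsur (s k)
  choose W hW using fun k => hsur (w k)
  let M : Matrix (Fin r) (Fin r) A := fun k l =>
    (if l = k then s k * (R k).derivative.eval (a k) else 0) +
      ((R k).eval (a k) * MvPolynomial.aeval a (pderiv l (S k)) -
        π * MvPolynomial.aeval a (pderiv l (W k)))
  refine ⟨M.det, ?_, ?_⟩
  · have h1 : Ideal.Quotient.mk q M.det = ∏ k, Ideal.Quotient.mk q
        (s k * (R k).derivative.eval (a k)) := by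
      rw [RingHom.map_det]
      have : (Ideal.Quotient.mk q).mapMatrix M = Matrix.diagonal fun k => Ideal.Quotient.mk q
          (s k * (R k).derivative.eval (a k)) := by
        ext k l
        rw [RingHom.mapMatrix_apply, Matrix.map_apply, Matrix.diagonal_apply]
        simp only [M, map_add, map_sub]
        have h2 : Ideal.Quotient.mk q ((R k).eval (a k) * MvPolynomial.aeval a (pderiv l (S k)))
            = 0 := Ideal.Quotient.eq_zero_iff_mem.2 (q.mul_mem_right _ (hRq k))
        have h3 : Ideal.Quotient.mk q (π * MvPolynomial.aeval a (pderiv l (W k))) = 0 :=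
          Ideal.Quotient.eq_zero_iff_mem.2 (q.mul_mem_right _ hπ)
        rw [h2, h3, sub_zero, add_zero]
        by_cases hkl : l = k
        · rw [if_pos hkl, if_pos hkl.symm]
        · rw [if_neg hkl, if_neg (fun e => hkl e.symm), map_zero]
      rw [this, Matrix.det_diagonal]
    intro hmem
    rw [Ideal.Quotient.eq_zero_iff_mem.2 hmem] at h1
    have h2 := h1.symm
    rw [Finset.prod_eq_zero_iff] at h2
    obtain ⟨k, -, hk⟩ := h2
    rw [Ideal.Quotient.eq_zero_iff_mem] at hk
    exact (hq.mem_or_mem hk).elim (hs k) (hR' k)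
  · intro χ hχ δ hδ hδT
    have hadj : ∀ x ∈ Algebra.adjoin ℂ T, δ x = 0 := by
      intro x hx
      induction hx using Algebra.adjoin_induction with
      | mem x hx => exact hδT x hx
      | algebraMap c => exact hδ.const c
      | add x y _ _ hx hy => rw [map_add, hx, hy, add_zero]
      | mul x y _ _ hx hy => rw [hδ.mul, hx, hy, mul_zero, mul_zero, add_zero]
    have hrow : ∀ k, ∑ l, χ (M k l) * δ (a l) = 0 := by
      intro k
      have h1 := congrArg δ (hrel k)
      rw [hδ.mul, hδ.mul, hadj π hπT, mul_zero, add_zero, hδ.eval (a k) (R k)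
        (fun n => hadj _ (hR k n)), ← hW k, ← hS k, hδ.aeval, hδ.aeval] at h1
      simp only [M, map_add, map_sub, map_mul, add_mul, sub_mul, Finset.sum_add_distrib,
        Finset.sum_sub_distrib]
      have h2 : ∑ l, χ (if l = k then s k * (R k).derivative.eval (a k) else 0) * δ (a l) =
          χ (s k) * (χ ((R k).derivative.eval (a k)) * δ (a k)) := by
        rw [Finset.sum_eq_single k]
        · rw [if_pos rfl, map_mul]; ring
        · intro l _ hl
          rw [if_neg hl, map_zero, zero_mul]
        · intro h; exact absurd (Finset.mem_univ k) h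
      rw [h2, ← hS k]
      simp only [mul_assoc, ← Finset.mul_sum]
      linear_combination h1
    have hvec : (χ.toRingHom.mapMatrix M).mulVec (fun l => δ (a l)) = 0 := by
      ext k
      rw [Matrix.mulVec, dotProduct]
      exact hrow k
    have hdet : (χ.toRingHom.mapMatrix M).det ≠ 0 := by
      rw [← RingHom.map_det]
      exact hχ
    have h0 := Matrix.eq_zero_of_mulVec_eq_zero hdet hvec
    ext x
    obtain ⟨P, rfl⟩ := hsur x
    rw [hδ.aeval]
    simp only [fun l => congrFun h0 l, Pi.zero_apply, mul_zero, Finset.sum_const_zero,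
      LinearMap.zero_apply]

end

end LCY
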