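import Mathlib

/-!
The local rings at the closed points of an affine surface have dimension at least two.
-/

open MvPolynomial

namespace LCY

noncomputable section

/-- Going down over a principal prime of a factorial ring. -/
theorem exists_prime_over_principal {B A : Type} [CommRing B] [IsDomain B]
    [IsIntegrallyClosed B] [CommRing A] [IsDomain A] [Algebra B A]
    [Algebra.IsIntegral B A] [FaithfulSMul B A] (m : Ideal A) [hm : m.IsPrime] (g : B)
    (hg : Prime g) (hgm : algebraMap B A g ∈ m) :
    ∃ q : Ideal A, q.IsPrime ∧ q ≤ m ∧ q.comap (algebraMap B A) = Ideal.span {g} := by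
  classical
  -- the multiplicative set
  let T : Submonoid A :=
    { carrier := {x | ∃ b s, ¬ g ∣ b ∧ s ∉ m ∧ x = algebraMap B A b * s}
      one_mem' := ⟨1, 1, fun h => hg.not_isUnit (isUnit_of_dvd_one h),
        (Ideal.ne_top_iff_one _).1 hm.ne_top, by simp⟩
      mul_mem' := by
        rintro _ _ ⟨b, s, hb, hs, rfl⟩ ⟨b', s', hb', hs', rfl⟩
        refine ⟨b * b', s * s', fun h => (hg.dvd_or_dvd h).elim hb hb',
          fun h => (hm.mem_or_mem h).elim hs hs', by rw [map_mul]; ring⟩ }
  have hdisj : Disjoint ((Ideal.span {algebraMap B A g} : Ideal A) : Set A) (T : Set A) := by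
    rw [Set.disjoint_left]
    rintro x hx ⟨b, s, hb, hs, rfl⟩
    rw [SetLike.mem_coe, Ideal.mem_span_singleton] at hx
    obtain ⟨w, hw⟩ := hx
    have hb0 : b ≠ 0 := by rintro rfl; exact hb (dvd_zero _)
    have hbs : b • s = g • w := by rw [Algebra.smul_def, Algebra.smul_def, hw]
    have hsi : IsIntegral B s := Algebra.IsIntegral.isIntegral s
    have hwi : IsIntegral B w := Algebra.IsIntegral.isIntegral w
    have h1 := IsIntegrallyClosed.minpoly_smul hb0 hsi
    have h2 := IsIntegrallyClosed.minpoly_smul hg.ne_zero hwi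
    rw [hbs, h2] at h1
    have hdeg : (minpoly B w).natDegree = (minpoly B s).natDegree := by
      have := congrArg Polynomial.natDegree h1
      simpa using this
    have hco : ∀ i < (minpoly B s).natDegree, g ∣ (minpoly B s).coeff i := by
      intro i hi
      have h3 := congrArg (fun p => Polynomial.coeff p i) h1
      simp only [Polynomial.coeff_scaleRoots] at h3
      have h4 : g ∣ (minpoly B s).coeff i * b ^ ((minpoly B s).natDegree - i) := by
        rw [← h3, hdeg]
        exact (dvd_pow_self g (by omega)).mul_left _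
      rcases hg.dvd_or_dvd h4 with h5 | h5
      · exact h5
      · exact absurd (hg.dvd_of_dvd_pow h5) hb
    have hmon := minpoly.monic hsi
    have h6 : s ^ (minpoly B s).natDegree ∈ m := by
      have h7 := minpoly.aeval B s
      rw [Polynomial.aeval_eq_sum_range, Finset.sum_range_succ, hmon.coeff_natDegree, one_smul]
        at h7
      have h8 : s ^ (minpoly B s).natDegree = - ∑ i ∈ Finset.range (minpoly B s).natDegree,
          (minpoly B s).coeff i • s ^ i := by
        linear_combination h7
      rw [h8]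
      refine m.neg_mem (m.sum_mem fun i hi => ?_)
      obtain ⟨c, hc⟩ := hco i (Finset.mem_range.1 hi)
      rw [hc, Algebra.smul_def, map_mul, mul_assoc]
      exact m.mul_mem_right _ hgm
    exact hs (hm.mem_of_pow_mem _ h6)
  obtain ⟨q, hq, hgq, hqT⟩ := Ideal.exists_le_prime_disjoint _ T hdisj
  refine ⟨q, hq, ?_, ?_⟩
  · intro x hx
    by_contra hxm
    exact (Set.disjoint_left.1 hqT) hx ⟨1, x, fun h => hg.not_isUnit (isUnit_of_dvd_one h), hxm,
      by simp⟩
  · ext b
    rw [Ideal.mem_comap, Ideal.mem_span_singleton]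
    constructor
    · intro hb
      by_contra hgb
      exact (Set.disjoint_left.1 hqT) hb ⟨b, 1, hgb, (Ideal.ne_top_iff_one _).1 hm.ne_top, by simp⟩
    · rintro ⟨c, rfl⟩
      rw [map_mul]
      exact q.mul_mem_right _ (hgq (Ideal.mem_span_singleton_self _))

theorem prime_of_totalDegree_eq_one {s : ℕ} (p : MvPolynomial (Fin s) ℂ)
    (hp : p.totalDegree = 1) : Prime p := by
  refine (MvPolynomial.irreducible_of_totalDegree_eq_one hp ?_).prime
  intro x hx
  have hp0 : p ≠ 0 := by rintro rfl; simp at hp
  obtain ⟨s, hs⟩ := MvPolynomial.ne_zero_iff.mp hp0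
  have h1 := hx s
  have : x ≠ 0 := by
    rintro rfl
    rw [zero_dvd_iff] at h1
    exact hs h1
  exact this.isUnit

theorem prime_X_sub_C' {s : ℕ} (i : Fin s) (c : ℂ) :
    Prime (X i - C c : MvPolynomial (Fin s) ℂ) := by
  classical
  apply prime_of_totalDegree_eq_one
  apply le_antisymm
  · refine (totalDegree_sub _ _).trans ?_
    rw [totalDegree_X, totalDegree_C]
    norm_num
  · have h1 : (Finsupp.single i 1 : Fin s →₀ ℕ) ∈
        (X i - C c : MvPolynomial (Fin s) ℂ).support := by
      rw [mem_support_iff, coeff_sub, coeff_X, coeff_C]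
      have : (0 : Fin s →₀ ℕ) ≠ Finsupp.single i 1 := by
        intro h
        have := DFunLike.congr_fun h i
        simp at this
      rw [if_neg this]
      simp
    have h2 := le_totalDegree h1
    simpa using h2

/-- The height of a closed point of an affine surface is at least two. -/
theorem two_le_height {A : Type} [CommRing A] [IsDomain A] [Algebra ℂ A]
    [Algebra.FiniteType ℂ A] (htr : Algebra.trdeg ℂ A = 2) (χ : A →ₐ[ℂ] ℂ) :
    2 ≤ (RingHom.ker χ).height := by
  classical
  obtain ⟨s, g, hinj, hint⟩ := exists_integral_inj_algHom_of_fg ℂ A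
  letI : Algebra (MvPolynomial (Fin s) ℂ) A := g.toRingHom.toAlgebra
  have hmap : ∀ b, algebraMap (MvPolynomial (Fin s) ℂ) A b = g b := fun b => rfl
  haveI : IsScalarTower ℂ (MvPolynomial (Fin s) ℂ) A :=
    IsScalarTower.of_algebraMap_eq fun c => by
      rw [hmap, g.commutes]
  haveI : FaithfulSMul (MvPolynomial (Fin s) ℂ) A :=
    (faithfulSMul_iff_algebraMap_injective _ _).2 hinj
  haveI : Algebra.IsIntegral (MvPolynomial (Fin s) ℂ) A := ⟨hint⟩
  have hs : s = 2 := by
    have h1 := trdeg_add_eq ℂ (MvPolynomial (Fin s) ℂ) (A := A)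
    rw [htr, MvPolynomial.trdeg_of_isDomain, trdeg_eq_zero] at h1
    simp only [Cardinal.mk_fin, Cardinal.lift_natCast, add_zero] at h1
    exact_mod_cast h1
  obtain ⟨i, j, hij⟩ : ∃ i j : Fin s, i ≠ j := by
    subst hs
    exact ⟨0, 1, by decide⟩
  have hker : (RingHom.ker χ).IsPrime := RingHom.ker_isPrime _
  have hmem : ∀ k, algebraMap (MvPolynomial (Fin s) ℂ) A (X k - C (χ (g (X k)))) ∈
      RingHom.ker χ := by
    intro k
    rw [RingHom.mem_ker, hmap, map_sub, map_sub, ← MvPolynomial.algebraMap_eq, g.commutes,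
      χ.commutes, Algebra.algebraMap_self, RingHom.id_apply, sub_self]
  obtain ⟨q, hq, hqm, hqc⟩ := exists_prime_over_principal (B := MvPolynomial (Fin s) ℂ)
    (RingHom.ker χ) (X i - C (χ (g (X i)))) (prime_X_sub_C' i _) (hmem i)
  have hbq : (⊥ : Ideal A) < q := by
    rw [bot_lt_iff_ne_bot]
    rintro rfl
    have : X i - C (χ (g (X i))) ∈ (⊥ : Ideal A).comap (algebraMap (MvPolynomial (Fin s) ℂ) A) := by
      rw [hqc]; exact Ideal.mem_span_singleton_self _
    rw [Ideal.mem_comap, Ideal.mem_bot, hmap] at this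
    exact (prime_X_sub_C' i _).ne_zero (hinj (this.trans (map_zero g).symm))
  have hqk : q < RingHom.ker χ := by
    refine lt_of_le_of_ne hqm ?_
    rintro rfl
    have h1 : X j - C (χ (g (X j))) ∈ Ideal.span {(X i - C (χ (g (X i))) :
        MvPolynomial (Fin s) ℂ)} := by
      rw [← hqc, Ideal.mem_comap]
      exact hmem j
    rw [Ideal.mem_span_singleton] at h1
    obtain ⟨c, hc⟩ := h1
    have h2 := congrArg (eval (fun k => if k = i then χ (g (X i)) else χ (g (X j)) + 1)) hc
    rw [map_mul, map_sub, map_sub, eval_X, eval_X, eval_C, eval_C, if_pos rfl, if_neg hij.symm,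
      sub_self, zero_mul] at h2
    norm_num at h2
  haveI : (⊥ : Ideal A).IsPrime := Ideal.isPrime_bot
  have h3 := Ideal.height_add_one_le_of_lt_of_isPrime hbq
  have h4 := Ideal.height_add_one_le_of_lt_of_isPrime hqk
  rw [Ideal.height_bot, zero_add] at h3
  calc (2 : ℕ∞) = 1 + 1 := by norm_num
    _ ≤ q.height + 1 := by gcongr
    _ ≤ _ := h4

end

end LCY
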