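import Mathlib
import Pool.Agent.Helper26.LC.RegA

/-!
A criterion for regularity of the local ring at a closed point of an affine surface.
-/

namespace LCY

noncomputable section

variable {A : Type} [CommRing A] [Algebra ℂ A]

theorem sub_mem_ker (χ : A →ₐ[ℂ] ℂ) (x : A) : x - algebraMap ℂ A (χ x) ∈ RingHom.ker χ := by
  rw [RingHom.mem_ker, map_sub, χ.commutes, Algebra.algebraMap_self, RingHom.id_apply, sub_self]

theorem ker_le_of_der (χ : A →ₐ[ℂ] ℂ) (u : Fin 2 → A)
    (h : ∀ δ : A →ₗ[ℂ] ℂ, IsDer χ δ → (∀ k, δ (u k) = 0) → δ = 0) :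
    RingHom.ker χ ≤ (RingHom.ker χ) * (RingHom.ker χ) ⊔
      Ideal.span (Set.range fun k => u k - algebraMap ℂ A (χ (u k))) := by
  classical
  set m := RingHom.ker χ with hm
  set I := m * m ⊔ Ideal.span (Set.range fun k => u k - algebraMap ℂ A (χ (u k))) with hI
  have hIm : I ≤ m := by
    refine sup_le (Ideal.mul_le_right) (Ideal.span_le.2 ?_)
    rintro _ ⟨k, rfl⟩
    exact sub_mem_ker χ _
  intro x hx
  by_contra hxI
  let V : Submodule ℂ A := I.restrictScalars ℂ ⊔ Submodule.span ℂ {1}
  have hxV : x ∉ V := by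
    intro hxV
    obtain ⟨i, hi, z, hz, hxe⟩ := Submodule.mem_sup.1 hxV
    obtain ⟨c, rfl⟩ := Submodule.mem_span_singleton.1 hz
    have h1 : c • (1 : A) ∈ m := by
      have : c • (1 : A) = x - i := by rw [← hxe]; ring
      rw [this]
      exact m.sub_mem hx (hIm hi)
    have h2 : c = 0 := by
      rw [hm, RingHom.mem_ker, map_smul, map_one] at h1
      simpa using h1
    rw [h2, zero_smul, add_zero] at hxe
    exact hxI (hxe ▸ hi)
  obtain ⟨f, hfx, hfV⟩ := Submodule.exists_le_ker_of_notMem hxV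
  have hf1 : f 1 = 0 := hfV (Submodule.mem_sup_right (Submodule.mem_span_singleton_self 1))
  have hfc : ∀ c : ℂ, f (algebraMap ℂ A c) = 0 := by
    intro c
    rw [Algebra.algebraMap_eq_smul_one, map_smul, hf1, smul_zero]
  have hfI : ∀ y ∈ I, f y = 0 := fun y hy => hfV (Submodule.mem_sup_left hy)
  have hder : IsDer χ f := by
    constructor
    intro y z
    have h1 : (y - algebraMap ℂ A (χ y)) * (z - algebraMap ℂ A (χ z)) ∈ I :=
      Ideal.mem_sup_left (Ideal.mul_mem_mul (sub_mem_ker χ y) (sub_mem_ker χ z))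
    have h2 := hfI _ h1
    have h3 : (y - algebraMap ℂ A (χ y)) * (z - algebraMap ℂ A (χ z)) =
        y * z - χ y • z - χ z • y + algebraMap ℂ A (χ y * χ z) := by
      rw [Algebra.smul_def, Algebra.smul_def, map_mul]
      ring
    rw [h3, map_add, map_sub, map_sub, hfc, map_smul, map_smul, smul_eq_mul, smul_eq_mul] at h2
    linear_combination h2
  have h0 := h f hder (by
    intro k
    have h1 : f (u k - algebraMap ℂ A (χ (u k))) = 0 :=
      hfI _ (Ideal.mem_sup_right (Ideal.subset_span ⟨k, rfl⟩))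
    rw [map_sub, hfc, sub_zero] at h1
    exact h1)
  exact hfx (by rw [h0]; rfl)

theorem regular_of_der [IsNoetherianRing A] (χ : A →ₐ[ℂ] ℂ) (u : Fin 2 → A)
    (hht : 2 ≤ (RingHom.ker χ).height)
    (h : ∀ δ : A →ₗ[ℂ] ℂ, IsDer χ δ → (∀ k, δ (u k) = 0) → δ = 0)
    (B : Type) [CommRing B] [Algebra A B] [hp : (RingHom.ker χ).IsPrime]
    [IsLocalization.AtPrime B (RingHom.ker χ)] : IsRegularLocalRing B := by
  classical
  have hloc : IsLocalRing B := IsLocalization.AtPrime.isLocalRing B (RingHom.ker χ)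
  have hnoe : IsNoetherianRing B := IsLocalization.isNoetherianRing (RingHom.ker χ).primeCompl B
    inferInstance
  have h1 := ker_le_of_der χ u h
  have hmap : Ideal.map (algebraMap A B) (RingHom.ker χ) = IsLocalRing.maximalIdeal B :=
    IsLocalization.AtPrime.map_eq_maximalIdeal (RingHom.ker χ) B
  have h2 : IsLocalRing.maximalIdeal B ≤
      Ideal.span (Set.range fun k => algebraMap A B (u k - algebraMap ℂ A (χ (u k)))) ⊔
        IsLocalRing.maximalIdeal B • IsLocalRing.maximalIdeal B := by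
    have h3 := Ideal.map_mono (f := algebraMap A B) h1
    rw [Ideal.map_sup, Ideal.map_mul, hmap, Ideal.map_span, ← Set.range_comp] at h3
    rw [sup_comm]
    exact h3
  have h4 := Submodule.le_of_le_smul_of_le_jacobson_bot
    (IsNoetherian.noetherian (IsLocalRing.maximalIdeal B))
    (IsLocalRing.maximalIdeal_le_jacobson ⊥) h2
  have h5 : IsLocalRing.maximalIdeal B =
      Ideal.span (Set.range fun k => algebraMap A B (u k - algebraMap ℂ A (χ (u k)))) := by
    refine le_antisymm h4 (Ideal.span_le.2 ?_)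
    rintro _ ⟨k, rfl⟩
    rw [← hmap]
    exact Ideal.mem_map_of_mem _ (sub_mem_ker χ _)
  apply IsRegularLocalRing.of_spanFinrank_maximalIdeal_le
  rw [IsLocalization.AtPrime.ringKrullDim_eq_height (RingHom.ker χ) B]
  have h6 : (IsLocalRing.maximalIdeal B).spanFinrank ≤ 2 := by
    rw [h5]
    refine (Submodule.spanFinrank_span_le_ncard_of_finite (Set.finite_range _)).trans ?_
    rw [← Set.image_univ]
    refine (Set.ncard_image_le (Set.finite_univ)).trans ?_
    simp
  have h7 : ((IsLocalRing.maximalIdeal B).spanFinrank : ℕ∞) ≤ (RingHom.ker χ).height :=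
    (Nat.cast_le.2 h6).trans hht
  exact_mod_cast h7

end

end LCY
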