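import Mathlib
import Pool.Agent.Helper27.LCY.Api1
import Pool.Agent.Helper26.LC.FinB
import Pool.Agent.Helper26.LC.RegC

/-!
Affine charts of a projective variety.
-/

open MvPolynomial

namespace LCY

noncomputable section

variable {N : ℕ} {Y : Var N}

/-- The coordinate ring of the chart `X j ≠ 0`. -/
def Var.chart (Y : Var N) (j : Fin (N + 1)) (hj : (X j : S N) ∉ Y.I) : Subalgebra ℂ Y.L :=
  (aeval (Y.coo j hj) : S N →ₐ[ℂ] Y.L).range

theorem exists_homog (j : Fin (N + 1)) (hj : (X j : S N) ∉ Y.I) (f : S N) :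
    ∃ (m : ℕ) (F : S N), F.IsHomogeneous m ∧
      ((aeval (Y.coo j hj) f : Y.L) : Y.K) = Y.cls F / Y.cls (X j ^ m) ∧
      ∀ p : Fin (N + 1) → ℂ, p j ≠ 0 → eval p F = p j ^ m * eval (fun k => p k / p j) f := by
  classical
  refine ⟨f.totalDegree, ∑ n ∈ Finset.range (f.totalDegree + 1),
    X j ^ (f.totalDegree - n) * homogeneousComponent n f, ?_, ?_, ?_⟩
  · refine IsHomogeneous.sum _ _ _ fun n hn => ?_
    have h1 : (X j ^ (f.totalDegree - n) : S N).IsHomogeneous (f.totalDegree - n) := by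
      simpa using (isHomogeneous_X ℂ j).pow (f.totalDegree - n)
    have h2 := h1.mul (homogeneousComponent_isHomogeneous n f)
    have h3 : f.totalDegree - n + n = f.totalDegree := by
      have := Finset.mem_range.1 hn
      omega
    rwa [h3] at h2
  · have h0 : Y.cls (X j) ≠ 0 := Y.cls_ne hj
    have hpow : ∀ k, Y.cls (X j ^ k) = Y.cls (X j) ^ k := by
      intro k
      simp [Var.cls]
    have hsum : ∀ s : Finset ℕ, ∀ F : ℕ → S N, Y.cls (∑ n ∈ s, F n) = ∑ n ∈ s, Y.cls (F n) := by
      intro s F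
      simp [Var.cls]
    rw [hsum, hpow, Finset.sum_div]
    conv_lhs => rw [← sum_homogeneousComponent f]
    rw [map_sum]
    have : ∀ s : Finset ℕ, ∀ F : ℕ → Y.L, ((∑ n ∈ s, F n : Y.L) : Y.K) =
        ∑ n ∈ s, ((F n : Y.L) : Y.K) := by
      intro s F
      exact map_sum (algebraMap Y.L Y.K) F s
    rw [this]
    refine Finset.sum_congr rfl fun n hn => ?_
    rw [Y.cls_mul, hpow, aeval_coo (Y := Y) j hj (homogeneousComponent_isHomogeneous n f)]
    have h3 : f.totalDegree - n + n = f.totalDegree := by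
      have := Finset.mem_range.1 hn
      omega
    rw [← mul_assoc, ← pow_add, h3]
    field_simp
  · intro p hp
    have h0 : eval (fun k => p k / p j) f = ∑ n ∈ Finset.range (f.totalDegree + 1),
        eval (fun k => p k / p j) (homogeneousComponent n f) := by
      conv_lhs => rw [← sum_homogeneousComponent f]
      rw [map_sum]
    rw [map_sum, h0, Finset.mul_sum]
    refine Finset.sum_congr rfl fun n hn => ?_
    have h3 : f.totalDegree - n + n = f.totalDegree := by
      have := Finset.mem_range.1 hn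
      omega
    have h4 : eval p (homogeneousComponent n f) = p j ^ n *
        eval (fun k => p k / p j) (homogeneousComponent n f) := by
      have h5 := aeval_smul_of_homog (R := ℂ) (fun k => p k / p j) (p j)
        (homogeneousComponent_isHomogeneous n f)
      have h6 : (fun i => p j * (p i / p j)) = p := by
        ext i
        field_simp
      rw [h6] at h5
      rw [← coe_aeval_eq_eval, ← coe_aeval_eq_eval]
      exact h5
    rw [map_mul, map_pow, eval_X, h4, ← mul_assoc, ← pow_add, h3]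

theorem Var.mem_chart_iff (Y : Var N) (j : Fin (N + 1)) (hj : (X j : S N) ∉ Y.I) (z : Y.L) :
    z ∈ Y.chart j hj ↔ ∃ (m : ℕ) (F : S N), F.IsHomogeneous m ∧
      (z : Y.K) = Y.cls F / Y.cls (X j ^ m) := by
  constructor
  · rintro ⟨f, rfl⟩
    obtain ⟨m, F, hF, h1, -⟩ := exists_homog j hj f
    exact ⟨m, F, hF, h1⟩
  · rintro ⟨m, F, hF, h⟩
    refine ⟨F, ?_⟩
    apply Subtype.ext
    have h1 := aeval_coo (Y := Y) j hj hF
    have h0 : Y.cls (X j) ≠ 0 := Y.cls_ne hj
    have hpow : Y.cls (X j ^ m) = Y.cls (X j) ^ m := by simp [Var.cls]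
    rw [h, hpow, h1, mul_div_cancel_left₀ _ (pow_ne_zero _ h0)]
    rfl

theorem Var.X_pow_homog (j : Fin (N + 1)) (m : ℕ) : (X j ^ m : S N).IsHomogeneous m := by
  simpa using (isHomogeneous_X ℂ j).pow m

theorem Var.chart_le (Y : Var N) (j : Fin (N + 1)) (hj : (X j : S N) ∉ Y.I) (J : Ideal (S N))
    [hJ : J.IsPrime] (hjJ : (X j : S N) ∉ J) : Y.chart j hj ≤ Y.locRing J := by
  intro z hz
  obtain ⟨m, F, hF, h⟩ := (Y.mem_chart_iff j hj z).1 hz
  exact ⟨m, F, X j ^ m, hF, Var.X_pow_homog j m, fun h => hjJ (hJ.mem_of_pow_mem _ h),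
    fun h => hj (Y.prime.mem_of_pow_mem _ h), h⟩

/-- The evaluation of chart functions at a point. -/
theorem Var.exists_ev (Y : Var N) (j : Fin (N + 1)) (hj : (X j : S N) ∉ Y.I)
    (p : Fin (N + 1) → ℂ) (hp : Y.IsPt p) (hpj : p j ≠ 0) :
    ∃ χ : Y.chart j hj →ₐ[ℂ] ℂ, ∀ (z : Y.chart j hj) (m : ℕ) (F : S N), F.IsHomogeneous m →
      ((z : Y.L) : Y.K) = Y.cls F / Y.cls (X j ^ m) → χ z = eval p F / p j ^ m := by
  let e : S N →ₐ[ℂ] Y.chart j hj := (aeval (Y.coo j hj) : S N →ₐ[ℂ] Y.L).rangeRestrict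
  have hsur : Function.Surjective e := AlgHom.rangeRestrict_surjective _
  have hker : RingHom.ker e.toRingHom ≤
      RingHom.ker (aeval (fun k => p k / p j) : S N →ₐ[ℂ] ℂ).toRingHom := by
    intro f hf
    have hf0 : aeval (Y.coo j hj) f = 0 := congrArg Subtype.val hf
    obtain ⟨m, F, hF, h1, h2⟩ := exists_homog j hj f
    have hFI : F ∈ Y.I := by
      by_contra hc
      have h3 : (0 : Y.K) = Y.cls F / Y.cls (X j ^ m) := by rw [← h1, hf0]; rfl
      rcases div_eq_zero_iff.1 h3.symm with h4 | h4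
      · exact Y.cls_ne hc h4
      · exact Y.cls_ne (fun h => hj (Y.prime.mem_of_pow_mem _ h)) h4
    have h3 := h2 p hpj
    rw [hp.2 F hFI] at h3
    have h4 : eval (fun k => p k / p j) f = 0 := by
      rcases mul_eq_zero.1 h3.symm with h5 | h5
      · exact absurd h5 (pow_ne_zero _ hpj)
      · exact h5
    rw [RingHom.mem_ker]
    change aeval (fun k => p k / p j) f = 0
    rw [← h4, ← coe_aeval_eq_eval]
    rfl
  refine ⟨AlgHom.liftOfSurjective e hsur _ hker, ?_⟩
  intro z m F hF hz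
  have hz' : z = e F := by
    apply Subtype.ext
    apply Subtype.ext
    rw [hz]
    have h1 := aeval_coo (Y := Y) j hj hF
    have h0 : Y.cls (X j) ≠ 0 := Y.cls_ne hj
    have hpow : Y.cls (X j ^ m) = Y.cls (X j) ^ m := by simp [Var.cls]
    rw [hpow, h1, mul_div_cancel_left₀ _ (pow_ne_zero _ h0)]
    rfl
  rw [hz', AlgHom.liftOfSurjective_apply]
  have h5 := aeval_smul_of_homog (R := ℂ) (fun k => p k / p j) (p j) hF
  have h6 : (fun i => p j * (p i / p j)) = p := by
    ext i
    field_simp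
  rw [h6] at h5
  have h7 : eval p F = aeval p F := by rw [← coe_aeval_eq_eval]; rfl
  rw [h7, h5]
  field_simp

end

end LCY
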