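import Mathlib
import Pool.Agent.Helper26.LC.RegB
import Pool.Agent.Helper26.LC.RegD

/-!
Local rings of charts and a criterion for regular points.
-/

open MvPolynomial

namespace LCY

noncomputable section

variable {N : ℕ} {Y : Var N}

/-- Elements of the local ring are quotients of chart functions. -/
theorem Var.exists_quot (Y : Var N) (j : Fin (N + 1)) (hj : (X j : S N) ∉ Y.I) (J : Ideal (S N))
    [hJ : J.IsPrime] (hjJ : (X j : S N) ∉ J) (z : Y.L) (hz : z ∈ Y.locRing J) :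
    ∃ (a b : Y.chart j hj) (m : ℕ) (G : S N), G.IsHomogeneous m ∧ G ∉ J ∧ G ∉ Y.I ∧
      ((b : Y.L) : Y.K) = Y.cls G / Y.cls (X j ^ m) ∧ (b : Y.L) ≠ 0 ∧ z * (b : Y.L) = (a : Y.L) := by
  obtain ⟨m, F, G, hF, hG, hGJ, hGI, h⟩ := hz
  have hXI : (X j ^ m : S N) ∉ Y.I := fun h => hj (Y.prime.mem_of_pow_mem _ h)
  have h0 := Y.cls_ne hXI
  have h1 := Y.cls_ne hGI
  let a : Y.L := ⟨Y.cls F / Y.cls (X j ^ m), m, F, X j ^ m, hF, Var.X_pow_homog j m, hXI, hXI, rfl⟩
  let b : Y.L := ⟨Y.cls G / Y.cls (X j ^ m), m, G, X j ^ m, hG, Var.X_pow_homog j m, hXI, hXI, rfl⟩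
  have ha : a ∈ Y.chart j hj := (Y.mem_chart_iff j hj a).2 ⟨m, F, hF, rfl⟩
  have hb : b ∈ Y.chart j hj := (Y.mem_chart_iff j hj b).2 ⟨m, G, hG, rfl⟩
  refine ⟨⟨a, ha⟩, ⟨b, hb⟩, m, G, hG, hGJ, hGI, rfl, ?_, ?_⟩
  · intro hb0
    have : (b : Y.K) = 0 := by
      have h2 : b = 0 := hb0
      rw [h2]; rfl
    have h3 : Y.cls G / Y.cls (X j ^ m) = 0 := this
    rcases div_eq_zero_iff.1 h3 with h4 | h4
    · exact h1 h4
    · exact h0 h4
  · apply Subtype.ext
    show (z : Y.K) * (Y.cls G / Y.cls (X j ^ m)) = Y.cls F / Y.cls (X j ^ m)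
    rw [h]
    field_simp

theorem Var.finiteType_chart (Y : Var N) (j : Fin (N + 1)) (hj : (X j : S N) ∉ Y.I) :
    Algebra.FiniteType ℂ (Y.chart j hj) :=
  Algebra.FiniteType.of_surjective (aeval (Y.coo j hj) : S N →ₐ[ℂ] Y.L).rangeRestrict
    (AlgHom.rangeRestrict_surjective _)

theorem Var.isFraction_chart (Y : Var N) (j : Fin (N + 1)) (hj : (X j : S N) ∉ Y.I) :
    Algebra.IsAlgebraic (Y.chart j hj) Y.L := by
  constructor
  intro z
  obtain ⟨a, b, m, G, -, -, -, -, hb0, hzb⟩ := Y.exists_quot j hj Y.I hj z z.2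
  refine ⟨Polynomial.C b * Polynomial.X - Polynomial.C a, ?_, ?_⟩
  · intro h
    have h1 := congrArg (fun p => Polynomial.coeff p 1) h
    simp only [Polynomial.coeff_sub, Polynomial.coeff_C_mul, Polynomial.coeff_X_one, mul_one,
      Polynomial.coeff_C_succ, sub_zero, Polynomial.coeff_zero] at h1
    exact hb0 (by rw [h1]; rfl)
  · rw [map_sub, map_mul, Polynomial.aeval_C, Polynomial.aeval_X, Polynomial.aeval_C]
    have : (algebraMap (Y.chart j hj) Y.L) b * z = (algebraMap (Y.chart j hj) Y.L) a := by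
      rw [mul_comm]; exact hzb
    rw [this, sub_self]

theorem Var.trdeg_chart (Y : Var N) (hL : Algebra.trdeg ℂ Y.L = 2) (j : Fin (N + 1))
    (hj : (X j : S N) ∉ Y.I) : Algebra.trdeg ℂ (Y.chart j hj) = 2 := by
  haveI := Y.isFraction_chart j hj
  have h1 := trdeg_add_eq ℂ (Y.chart j hj) (A := Y.L)
  have h2 : Algebra.trdeg (Y.chart j hj) Y.L = 0 := trdeg_eq_zero
  rw [hL, h2, add_zero] at h1
  exact h1

/-- A criterion for a regular point. -/
theorem Var.regular_of_chart (Y : Var N) (hL : Algebra.trdeg ℂ Y.L = 2) (j : Fin (N + 1))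
    (hj : (X j : S N) ∉ Y.I) (p : Fin (N + 1) → ℂ) (hp : Y.IsPt p) (hpj : p j ≠ 0)
    (χ : Y.chart j hj →ₐ[ℂ] ℂ)
    (hχ : ∀ (z : Y.chart j hj) (m : ℕ) (F : S N), F.IsHomogeneous m →
      ((z : Y.L) : Y.K) = Y.cls F / Y.cls (X j ^ m) → χ z = eval p F / p j ^ m)
    (u : Fin 2 → Y.chart j hj)
    (h : ∀ δ : Y.chart j hj →ₗ[ℂ] ℂ, IsDer χ δ → (∀ k, δ (u k) = 0) → δ = 0) :
    Y.Regular p := by
  haveI := Y.finiteType_chart j hj
  haveI : IsNoetherianRing (Y.chart j hj) := Algebra.FiniteType.isNoetherianRing ℂ _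
  have hht := two_le_height (Y.trdeg_chart hL j hj) χ
  have hjp : (X j : S N) ∉ ptIdeal p := by
    rw [mem_ptIdeal_iff p _ 1 (isHomogeneous_X ℂ j), eval_X]
    exact hpj
  have hle := Y.chart_le j hj (ptIdeal p) hjp
  letI : Algebra (Y.chart j hj) (Y.locRing (ptIdeal p)) :=
    (Subalgebra.inclusion hle).toRingHom.toAlgebra
  have hmap : ∀ z : Y.chart j hj, ((algebraMap (Y.chart j hj) (Y.locRing (ptIdeal p)) z :
      Y.locRing (ptIdeal p)) : Y.L) = z := fun z => rfl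
  haveI hprime : (RingHom.ker χ).IsPrime := RingHom.ker_isPrime _
  haveI : IsLocalization.AtPrime (Y.locRing (ptIdeal p)) (RingHom.ker χ) := by
    refine (isLocalization_iff (RingHom.ker χ).primeCompl (Y.locRing (ptIdeal p))).2 ⟨?_, ?_, ?_⟩
    · rintro ⟨z, hz⟩
      obtain ⟨m, F, hF, hzF⟩ := (Y.mem_chart_iff j hj z).1 z.2
      have h1 := hχ z m F hF hzF
      have h2 : eval p F ≠ 0 := by
        intro h0
        rw [h0, zero_div] at h1
        exact hz h1
      have h3 : F ∉ ptIdeal p := by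
        rw [mem_ptIdeal_iff p _ m hF]; exact h2
      refine Y.isUnit_locRing (ptIdeal p) _ m F (X j ^ m) hF (Var.X_pow_homog j m)
        (fun h => hj (Y.prime.mem_of_pow_mem _ h)) h3 (fun h => h2 (hp.2 F h)) ?_
      exact hzF
    · intro z
      obtain ⟨a, b, m, G, hG, hGJ, hGI, hb, hb0, hzb⟩ :=
        Y.exists_quot j hj (ptIdeal p) hjp z z.2
      have hbk : b ∉ RingHom.ker χ := by
        rw [RingHom.mem_ker]
        have h1 := hχ b m G hG hb
        change χ b ≠ 0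
        rw [h1]
        rw [mem_ptIdeal_iff p _ m hG] at hGJ
        exact div_ne_zero hGJ (pow_ne_zero _ hpj)
      exact ⟨(a, ⟨b, hbk⟩), Subtype.ext hzb⟩
    · intro x y hxy
      refine ⟨1, ?_⟩
      have : x = y := by
        apply Subtype.ext
        exact congrArg (fun w : Y.locRing (ptIdeal p) => (w : Y.L)) hxy
      rw [this]
  exact regular_of_der χ u hht h (Y.locRing (ptIdeal p))

end

end LCY
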