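import Mathlib
import Pool.Agent.Helper27.LCY.BrStmts
import Pool.Agent.Helper26.LC.FinC
import Pool.Agent.Helper26.LC.RegE

/-!
Openness of the regular locus near the generic point and near the generic points of curves.
-/

open MvPolynomial

namespace LCY

noncomputable section

variable {N : ℕ} {Y : Var N}

/-- From a chart function with the derivation property to a form. -/
theorem exists_form_of_der (hL : Algebra.trdeg ℂ Y.L = 2) (j : Fin (N + 1))
    (hj : (X j : S N) ∉ Y.I) (J : Ideal (S N)) (hJ : J.IsPrime) (hjJ : (X j : S N) ∉ J)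
    (u : Fin 2 → Y.chart j hj) (h : Y.chart j hj)
    (hh : ∀ (m : ℕ) (F : S N), F.IsHomogeneous m →
      ((h : Y.L) : Y.K) = Y.cls F / Y.cls (X j ^ m) → F ∉ J)
    (hder : ∀ χ : Y.chart j hj →ₐ[ℂ] ℂ, χ h ≠ 0 → ∀ δ : Y.chart j hj →ₗ[ℂ] ℂ, IsDer χ δ →
      (∀ k, δ (u k) = 0) → δ = 0) :
    ∃ H : S N, (∃ n, H.IsHomogeneous n) ∧ H ∉ J ∧ ∀ p, Y.IsPt p → eval p H ≠ 0 → Y.Regular p := by
  obtain ⟨m, F, hF, hhF⟩ := (Y.mem_chart_iff j hj h).1 h.2
  have hFJ := hh m F hF hhF
  refine ⟨F * X j, ⟨_, hF.mul (isHomogeneous_X ℂ j)⟩,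
    fun hmem => (hJ.mem_or_mem hmem).elim hFJ hjJ, ?_⟩
  intro p hp hne
  rw [map_mul, eval_X] at hne
  have hpj := right_ne_zero_of_mul hne
  have hpF := left_ne_zero_of_mul hne
  obtain ⟨χ, hχ⟩ := Y.exists_ev j hj p hp hpj
  refine Y.regular_of_chart hL j hj p hp hpj χ hχ u (hder χ ?_)
  rw [hχ h m F hF hhF]
  exact div_ne_zero hpF (pow_ne_zero _ hpj)

/-- A polynomial of least degree: the derivative does not lie in the prime. -/
theorem exists_sep {A : Type} [CommRing A] [IsDomain A] [Algebra ℂ A] (T : Subalgebra ℂ A) (q : Ideal A)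
    (hT : ∀ x ∈ T, x ∈ q → x = 0) (a : A)
    (h : ∃ R : Polynomial T, R ≠ 0 ∧ R.aeval a ∈ q) :
    ∃ R : Polynomial A, (∀ n, R.coeff n ∈ T) ∧ R.eval a ∈ q ∧ R.derivative.eval a ∉ q := by
  classical
  have hex : ∃ n, ∃ R : Polynomial T, R ≠ 0 ∧ R.natDegree = n ∧ R.aeval a ∈ q := by
    obtain ⟨R, hR, hRq⟩ := h
    exact ⟨_, R, hR, rfl, hRq⟩
  obtain ⟨R, hR, hdeg, hRq⟩ := Nat.find_spec hex
  have hmin := fun m hm => Nat.find_min hex (m := m) hm
  have hev : ∀ P : Polynomial T, (P.map (algebraMap T A)).eval a = P.aeval a := by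
    intro P
    rw [Polynomial.eval_map_algebraMap]
  have hpos : 0 < R.natDegree := by
    rw [Nat.pos_iff_ne_zero]
    intro h0
    obtain ⟨c, rfl⟩ := Polynomial.natDegree_eq_zero.1 h0
    rw [Polynomial.aeval_C] at hRq
    have := hT _ c.2 hRq
    exact hR (by rw [Polynomial.C_eq_zero]; exact Subtype.ext this)
  refine ⟨R.map (algebraMap T A), ?_, ?_, ?_⟩
  · intro n
    rw [Polynomial.coeff_map]
    exact (R.coeff n).2
  · rw [hev]; exact hRq
  · rw [Polynomial.derivative_map, hev]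
    intro hmem
    have hd0 : R.derivative ≠ 0 := by
      intro h0
      haveI : CharZero T := charZero_of_injective_algebraMap (algebraMap ℂ T).injective
      have := Polynomial.derivative_eq_zero.1 h0
      omega
    refine hmin R.derivative.natDegree ?_ ⟨R.derivative, hd0, rfl, hmem⟩
    rw [← hdeg]
    exact Polynomial.natDegree_derivative_lt hpos.ne'

/-- The map to the chart. -/
def Var.toChart (Y : Var N) (j : Fin (N + 1)) (hj : (X j : S N) ∉ Y.I) : S N →ₐ[ℂ] Y.chart j hj :=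
  (aeval (Y.coo j hj) : S N →ₐ[ℂ] Y.L).rangeRestrict

theorem Var.toChart_surjective (Y : Var N) (j : Fin (N + 1)) (hj : (X j : S N) ∉ Y.I) :
    Function.Surjective (Y.toChart j hj) := AlgHom.rangeRestrict_surjective _

theorem Var.adjoin_chart (Y : Var N) (j : Fin (N + 1)) (hj : (X j : S N) ∉ Y.I) :
    Algebra.adjoin ℂ (Set.range fun k => Y.toChart j hj (X k)) = ⊤ := by
  rw [Algebra.adjoin_range_eq_range_aeval]
  have h1 : aeval (fun k => Y.toChart j hj (X k)) = Y.toChart j hj := by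
    apply MvPolynomial.algHom_ext
    intro k
    rw [aeval_X]
  rw [h1, AlgHom.range_eq_top]
  exact Y.toChart_surjective j hj

/-- The regular locus contains a nonempty open set. -/
theorem regOpen_generic (hL : Algebra.trdeg ℂ Y.L = 2) :
    ∃ h : S N, (∃ n, h.IsHomogeneous n) ∧ h ∉ Y.I ∧ ∀ p, Y.IsPt p → eval p h ≠ 0 → Y.Regular p := by
  classical
  obtain ⟨j, hj⟩ := Y.relevant
  haveI := Y.finiteType_chart j hj
  have htr := Y.trdeg_chart hL j hj
  obtain ⟨ι, x, hx⟩ := exists_isTranscendenceBasis' ℂ (Y.chart j hj)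
  have hcard := hx.lift_cardinalMk_eq_trdeg
  rw [htr] at hcard
  have hcard' : Cardinal.mk ι = 2 := by simpa using hcard
  have hfin : Finite ι := by
    rw [← Cardinal.lt_aleph0_iff_finite, hcard']
    exact Cardinal.natCast_lt_aleph0
  haveI := Fintype.ofFinite ι
  have hc2 : Fintype.card ι = 2 := by
    rw [Cardinal.mk_fintype] at hcard'
    exact_mod_cast hcard'
  let e : Fin 2 ≃ ι := (Fintype.equivFinOfCardEq hc2).symm
  let u : Fin 2 → Y.chart j hj := fun k => x (e k)
  have hrange : Set.range u = Set.range x := by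
    show Set.range (x ∘ e) = _
    rw [e.surjective.range_comp]
  have halg := hx.isAlgebraic
  -- the generators
  let a : Fin (N + 1) → Y.chart j hj := fun k => Y.toChart j hj (X k)
  have hgen : Algebra.adjoin ℂ (Set.range a) = ⊤ := Y.adjoin_chart j hj
  have hsep : ∀ k, ∃ R : Polynomial (Y.chart j hj),
      (∀ n, R.coeff n ∈ Algebra.adjoin ℂ (Set.range u)) ∧ R.eval (a k) ∈ (⊥ : Ideal _) ∧
      R.derivative.eval (a k) ∉ (⊥ : Ideal _) := by
    intro k
    refine exists_sep (Algebra.adjoin ℂ (Set.range u)) ⊥ (fun x _ hx => hx) (a k) ?_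
    rw [hrange]
    obtain ⟨R, hR, hRa⟩ := halg.isAlgebraic (a k)
    exact ⟨R, hR, hRa⟩
  choose R hR hR0 hR' using hsep
  haveI : (⊥ : Ideal (Y.chart j hj)).IsPrime := Ideal.isPrime_bot
  obtain ⟨h, hh, hder⟩ := exists_jac a hgen (⊥ : Ideal (Y.chart j hj)) (Set.range u) 0
    (Ideal.zero_mem _) (Subalgebra.zero_mem _) (fun _ => 1) (fun _ => 0) R hR
    (fun k => by rw [Ideal.mem_bot]; exact one_ne_zero) hR0 hR'
    (fun k => by rw [one_mul, mul_zero]; exact hR0 k)
  refine exists_form_of_der hL j hj Y.I Y.prime hj u h ?_ ?_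
  · intro m F hF hhF hFI
    apply hh
    rw [Ideal.mem_bot]
    apply Subtype.ext
    apply Subtype.ext
    rw [hhF, Y.cls_eq_zero hFI, zero_div]
    rfl
  · intro χ hχ δ hδ hu
    refine hder χ hχ δ hδ ?_
    rintro _ ⟨k, rfl⟩
    exact hu k

end

end LCY
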