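import Mathlib
import Pool.Agent.Helper26.LC.RegF
import Pool.Agent.Helper26.LC.RegG

/-!
Openness of the regular locus near the generic point of a curve.
-/

open MvPolynomial

namespace LCY

noncomputable section

variable {N : ℕ} {Y : Var N}

/-- The ideal of the functions on a chart that vanish along a divisorial valuation. -/
def DVal.ideal {L : Type} [Field L] [Algebra ℂ L] (v : DVal L) (A : Subalgebra ℂ L)
    (hA : ∀ a ∈ A, v.Int a) : Ideal A where
  carrier := {a | v.Pos (a : L)}
  add_mem' := fun ha hb => v.pos_add ha hb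
  zero_mem' := v.pos_zero26
  smul_mem' := fun c a ha => by
    have : ((c • a : A) : L) = (a : L) * (c : L) := by
      rw [mul_comm]; rfl
    show v.Pos ((c • a : A) : L)
    rw [this]
    exact v.pos_mul_int ha (hA c c.2)

theorem DVal.mem_ideal {L : Type} [Field L] [Algebra ℂ L] (v : DVal L) (A : Subalgebra ℂ L)
    (hA : ∀ a ∈ A, v.Int a) (a : A) : a ∈ v.ideal A hA ↔ v.Pos (a : L) := Iff.rfl

theorem DVal.ideal_prime {L : Type} [Field L] [Algebra ℂ L] (v : DVal L) (A : Subalgebra ℂ L)
    (hA : ∀ a ∈ A, v.Int a) : (v.ideal A hA).IsPrime := by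
  refine ⟨?_, ?_⟩
  · rw [Ideal.ne_top_iff_one]
    exact v.not_pos_one
  · intro a b h
    exact v.pos_or_pos26 (hA a a.2) (hA b b.2) h

/-- A residually transcendental element of a quotient has such a numerator or denominator. -/
theorem resTr_or_of_div {L : Type} [Field L] [Algebra ℂ L] (v : DVal L) {a b : L} (ha : v.Int a)
    (hb : v.Int b) (hb0 : b ≠ 0) (hvb : v.v b = 0) (ht : ResTr v.v (a / b)) :
    ResTr v.v a ∨ ResTr v.v b := by
  -- an integral element without transcendental residue has constant residue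
  have key : ∀ {c : L}, v.Int c → ¬ ResTr v.v c → ∃ z : ℂ, v.Pos (c - algebraMap ℂ L z) := by
    intro c hc hn
    by_contra hcon
    push Not at hcon
    apply hn
    intro P hP
    have hnp : ¬ v.Pos (Polynomial.aeval c P) := by
      have hspl := IsAlgClosed.splits P
      have hfac : Polynomial.aeval c P =
          (P.roots.map (fun z => c - algebraMap ℂ L z)).prod * algebraMap ℂ L P.leadingCoeff := by
        conv_lhs => rw [hspl.eq_prod_roots]
        rw [map_mul, Polynomial.aeval_C, map_multiset_prod, Multiset.map_map, mul_comm]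
        congr 2
        apply Multiset.map_congr rfl
        intro z _
        simp
      rw [hfac]
      intro hpos
      have hlc : ¬ v.Pos (algebraMap ℂ L P.leadingCoeff) := by
        rintro (h | h)
        · rw [FaithfulSMul.algebraMap_eq_zero_iff] at h
          exact hP (Polynomial.leadingCoeff_eq_zero.1 h)
        · rw [v.map_const _ (fun h0 => hP (Polynomial.leadingCoeff_eq_zero.1 h0))] at h
          exact lt_irrefl _ h
      have hint : ∀ s : Multiset ℂ, v.Int (s.map (fun z => c - algebraMap ℂ L z)).prod ∧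
          ¬ v.Pos (s.map (fun z => c - algebraMap ℂ L z)).prod := by
        intro s
        induction s using Multiset.induction_on with
        | empty =>
          rw [Multiset.map_zero, Multiset.prod_zero]
          exact ⟨Or.inr v.map_one.ge, v.not_pos_one⟩
        | cons z s ih =>
          rw [Multiset.map_cons, Multiset.prod_cons]
          have h1 : v.Int (c - algebraMap ℂ L z) := by
            rw [sub_eq_add_neg, ← map_neg]
            exact v.int_add hc (v.int_const _)
          refine ⟨v.int_mul h1 ih.1, fun h => ?_⟩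
          exact (v.pos_or_pos26 h1 ih.1 h).elim (hcon z) ih.2
      exact (v.pos_or_pos26 (hint _).1 (v.int_const _) hpos).elim (hint _).2 hlc
    have hi := v.int_aeval hc P
    rcases hi with h0 | h0
    · exact absurd (Or.inl h0) hnp
    · refine ⟨fun h => hnp (Or.inl h), le_antisymm ?_ h0⟩
      by_contra h
      push Not at h
      exact hnp (Or.inr h)
  by_contra hcon
  push Not at hcon
  obtain ⟨z, hz⟩ := key ha hcon.1
  obtain ⟨w, hw⟩ := key hb hcon.2
  have hw0 : w ≠ 0 := by
    rintro rfl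
    rw [map_zero, sub_zero] at hw
    rcases hw with h | h
    · exact hb0 h
    · rw [hvb] at h; exact lt_irrefl _ h
  -- a - (z / w) b is positive
  have h1 : v.Pos (a - algebraMap ℂ L (z / w) * b) := by
    have : a - algebraMap ℂ L (z / w) * b = (a - algebraMap ℂ L z) -
        (b - algebraMap ℂ L w) * algebraMap ℂ L (z / w) := by
      have h2 : algebraMap ℂ L w * algebraMap ℂ L (z / w) = algebraMap ℂ L z := by
        rw [← map_mul, mul_div_cancel₀ _ hw0]
      linear_combination -h2
    rw [this]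
    exact v.pos_sub26 hz (v.pos_mul_int hw (v.int_const _))
  have h3 := ht (Polynomial.X - Polynomial.C (z / w)) (Polynomial.X_sub_C_ne_zero _)
  rw [map_sub, Polynomial.aeval_X, Polynomial.aeval_C] at h3
  have h4 : a - algebraMap ℂ L (z / w) * b = b * (a / b - algebraMap ℂ L (z / w)) := by
    field_simp
  rw [h4] at h1
  rcases h1 with h | h
  · exact (mul_ne_zero hb0 h3.1) h
  · rw [v.map_mul _ _ hb0 h3.1, hvb, h3.2] at h
    exact lt_irrefl _ h

/-- The regular locus meets every curve. -/
theorem regOpen_curve (hL : Algebra.trdeg ℂ Y.L = 2) (C : Var N) (hYC : Y.I ≤ C.I)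
    (v : DVal Y.L) (hv : ∀ a, v.Int a ↔ a ∈ Y.locRing C.I) :
    ∃ h : S N, (∃ n, h.IsHomogeneous n) ∧ h ∉ C.I ∧ ∀ p, Y.IsPt p → eval p h ≠ 0 → Y.Regular p := by
  classical
  obtain ⟨j, hjC⟩ := C.relevant
  have hj : (X j : S N) ∉ Y.I := fun h => hjC (hYC h)
  have hle := Y.chart_le j hj C.I hjC
  have hA : ∀ a ∈ Y.chart j hj, v.Int a := fun a ha => (hv a).2 (hle ha)
  -- positivity and the ideal of C
  have hposC : ∀ (z : Y.chart j hj) (m : ℕ) (F : S N), F.IsHomogeneous m →
      ((z : Y.L) : Y.K) = Y.cls F / Y.cls (X j ^ m) → (v.Pos (z : Y.L) ↔ F ∈ C.I) := by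
    intro z m F hF hz
    have hXC : (X j ^ m : S N) ∉ C.I := fun h => hjC (C.prime.mem_of_pow_mem _ h)
    have hXI : (X j ^ m : S N) ∉ Y.I := fun h => hXC (hYC h)
    constructor
    · intro hp
      by_contra hFC
      have hFI : F ∉ Y.I := fun h => hFC (hYC h)
      have hne : (z : Y.L) ≠ 0 := by
        intro h0
        have : ((z : Y.L) : Y.K) = 0 := by rw [h0]; rfl
        rw [this] at hz
        rcases div_eq_zero_iff.1 hz.symm with h | h
        · exact Y.cls_ne hFI h
        · exact Y.cls_ne hXI h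
      have hinv : v.Int (z : Y.L)⁻¹ := by
        rw [hv]
        refine ⟨m, X j ^ m, F, Var.X_pow_homog j m, hF, hFC, hFI, ?_⟩
        have : (((z : Y.L)⁻¹ : Y.L) : Y.K) = ((z : Y.L) : Y.K)⁻¹ := rfl
        rw [this, hz, inv_div]
      have h1 := v.pos_mul_int hp hinv
      rw [mul_inv_cancel₀ hne] at h1
      exact v.not_pos_one h1
    · intro hFC
      by_contra hnp
      have hne : (z : Y.L) ≠ 0 := fun h => hnp (Or.inl h)
      have hval : v.v (z : Y.L) = 0 := by
        rcases hA z z.2 with h | h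
        · exact absurd h hne
        · refine le_antisymm ?_ h
          by_contra h'
          push Not at h'
          exact hnp (Or.inr h')
      have hinv : v.Int (z : Y.L)⁻¹ := by
        right
        have h1 := v.map_mul (z : Y.L) (z : Y.L)⁻¹ hne (inv_ne_zero hne)
        rw [mul_inv_cancel₀ hne, v.map_one, hval] at h1
        omega
      have hmem := (hv _).1 hinv
      refine Y.not_isUnit_locRing C.I hYC ⟨(z : Y.L), hle z.2⟩ F (X j ^ m) hXC hFC hz ?_
      exact IsUnit.of_mul_eq_one ⟨(z : Y.L)⁻¹, hmem⟩ (Subtype.ext (mul_inv_cancel₀ hne))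
  -- quotients
  have hquot : ∀ z : Y.L, v.Int z → ∃ a b : Y.chart j hj, ¬ v.Pos (b : Y.L) ∧ (b : Y.L) ≠ 0 ∧
      z * (b : Y.L) = (a : Y.L) := by
    intro z hz
    obtain ⟨a, b, m, G, hG, hGJ, hGI, hb, hb0, hzb⟩ := Y.exists_quot j hj C.I hjC z ((hv z).1 hz)
    exact ⟨a, b, fun h => hGJ ((hposC b m G hG hb).1 h), hb0, hzb⟩
  have hval0 : ∀ b : Y.chart j hj, ¬ v.Pos (b : Y.L) → (b : Y.L) ≠ 0 → v.v (b : Y.L) = 0 := by
    intro b hb hb0
    rcases hA b b.2 with h | h
    · exact absurd h hb0
    · refine le_antisymm ?_ h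
      by_contra h'
      push Not at h'
      exact hb (Or.inr h')
  -- the transcendental element
  obtain ⟨t, ht⟩ : ∃ t : Y.chart j hj, ResTr v.v (t : Y.L) := by
    obtain ⟨t, ht⟩ := v.exists_res
    obtain ⟨a, b, hb, hb0, hab⟩ := hquot t (v.resTr_int26 ht)
    have h1 : t = (a : Y.L) / (b : Y.L) := by
      rw [← hab]; field_simp
    rw [h1] at ht
    rcases resTr_or_of_div v (hA a a.2) (hA b b.2) hb0 (hval0 b hb hb0) ht with h | h
    · exact ⟨a, h⟩
    · exact ⟨b, h⟩
  -- the uniformizer
  obtain ⟨π, hπ0, hπ⟩ : ∃ π : Y.chart j hj, (π : Y.L) ≠ 0 ∧ v.v (π : Y.L) = 1 := by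
    obtain ⟨π, hπ0, hπ⟩ := v.exists_unif
    obtain ⟨a, b, hb, hb0, hab⟩ := hquot π (Or.inr (by rw [hπ]; exact zero_le_one))
    refine ⟨a, ?_, ?_⟩
    · rw [← hab]; exact mul_ne_zero hπ0 hb0
    · rw [← hab, v.map_mul _ _ hπ0 hb0, hπ, hval0 b hb hb0]; rfl
  have hq : (v.ideal (Y.chart j hj) hA).IsPrime := v.ideal_prime _ _
  have hqmem : ∀ a, a ∈ v.ideal (Y.chart j hj) hA ↔ v.Pos (a : Y.L) := fun a => Iff.rfl
  -- separable relations
  have hev : ∀ (a : Y.chart j hj) (P : Polynomial (Polynomial ℂ)),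
      (((P.map (Polynomial.aeval t : Polynomial ℂ →ₐ[ℂ] Y.chart j hj).toRingHom).eval a :
        Y.chart j hj) : Y.L) = Polynomial.aevalAeval (t : Y.L) (a : Y.L) P := by
    intro a P
    rw [← DVal.aevalAeval_eq26]
    have h1 : ((Y.chart j hj).val.comp (Polynomial.aevalAeval t a)) =
        Polynomial.aevalAeval (t : Y.L) (a : Y.L) := by
      apply Polynomial.algHom_ext'
      · ext; simp
      · simp
    exact congrArg (fun φ : Polynomial (Polynomial ℂ) →ₐ[ℂ] Y.L => φ P) h1
  have hsep : ∀ a : Y.chart j hj, ∃ R : Polynomial (Y.chart j hj),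
      (∀ n, R.coeff n ∈ Algebra.adjoin ℂ (Set.range ![t, π])) ∧ v.Pos ((R.eval a : Y.chart j hj) : Y.L) ∧
      ¬ v.Pos ((R.derivative.eval a : Y.chart j hj) : Y.L) := by
    intro a
    have hex : ∃ n, ∃ P : Polynomial (Polynomial ℂ), P ≠ 0 ∧ P.natDegree = n ∧
        v.Pos (Polynomial.aevalAeval (t : Y.L) (a : Y.L) P) := by
      obtain ⟨P, hP, hPp⟩ := v.exists_rel26 hL (hA t t.2) (hA a a.2)
      exact ⟨_, P, hP, rfl, hPp⟩
    obtain ⟨P, hP, hdeg, hPp⟩ := Nat.find_spec hex
    have hmin := fun m hm => Nat.find_min hex (m := m) hm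
    have hpos : 0 < P.natDegree := by
      rw [Nat.pos_iff_ne_zero]
      intro h0
      obtain ⟨c, rfl⟩ := Polynomial.natDegree_eq_zero.1 h0
      rw [Polynomial.aevalAeval_C] at hPp
      have hc : c ≠ 0 := by
        rintro rfl
        exact hP (by simp)
      have h1 := ht c hc
      rcases hPp with h | h
      · exact h1.1 h
      · rw [h1.2] at h; exact lt_irrefl _ h
    refine ⟨P.map (Polynomial.aeval t : Polynomial ℂ →ₐ[ℂ] Y.chart j hj).toRingHom, ?_, ?_, ?_⟩
    · intro n
      rw [Polynomial.coeff_map]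
      have h1 : (Polynomial.aeval t : Polynomial ℂ →ₐ[ℂ] Y.chart j hj) (P.coeff n) ∈
          Algebra.adjoin ℂ {t} := by
        rw [Algebra.adjoin_singleton_eq_range_aeval]
        exact ⟨_, rfl⟩
      refine Algebra.adjoin_mono ?_ h1
      rw [Set.singleton_subset_iff]
      exact ⟨0, rfl⟩
    · rw [hev]; exact hPp
    · rw [Polynomial.derivative_map, hev]
      intro hmem
      have hd0 : Polynomial.derivative P ≠ 0 := by
        intro h0
        have := Polynomial.derivative_eq_zero.1 h0
        omega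
      refine hmin (Polynomial.derivative P).natDegree ?_ ⟨_, hd0, rfl, hmem⟩
      rw [← hdeg]
      exact Polynomial.natDegree_derivative_lt hpos.ne'
  let a : Fin (N + 1) → Y.chart j hj := fun k => Y.toChart j hj (X k)
  have hgen : Algebra.adjoin ℂ (Set.range a) = ⊤ := Y.adjoin_chart j hj
  choose R hR hRq hR' using fun k => hsep (a k)
  -- division by the uniformizer
  have hdiv : ∀ k, ∃ s w : Y.chart j hj, ¬ v.Pos (s : Y.L) ∧ s * (R k).eval (a k) = π * w := by
    intro k
    have h1 : v.Int ((((R k).eval (a k) : Y.chart j hj) : Y.L) / (π : Y.L)) := by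
      rcases hRq k with h | h
      · left; rw [h, zero_div]
      · by_cases h0 : (((R k).eval (a k) : Y.chart j hj) : Y.L) = 0
        · left; rw [h0, zero_div]
        · right
          have h2 : (((R k).eval (a k) : Y.chart j hj) : Y.L) =
              ((((R k).eval (a k) : Y.chart j hj) : Y.L) / (π : Y.L)) * (π : Y.L) := by
            field_simp
          have h3 := v.map_mul ((((R k).eval (a k) : Y.chart j hj) : Y.L) / (π : Y.L)) (π : Y.L)
            (div_ne_zero h0 hπ0) hπ0
          rw [← h2, hπ] at h3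
          omega
    obtain ⟨w, s, hs, hs0, hsw⟩ := hquot _ h1
    refine ⟨s, w, hs, ?_⟩
    apply Subtype.ext
    show (s : Y.L) * (((R k).eval (a k) : Y.chart j hj) : Y.L) = (π : Y.L) * (w : Y.L)
    rw [← hsw]
    field_simp
  choose s w hs hsw using hdiv
  have hπq : π ∈ v.ideal (Y.chart j hj) hA := Or.inr (by rw [hπ]; exact one_pos)
  obtain ⟨h, hh, hder⟩ := exists_jac a hgen (v.ideal (Y.chart j hj) hA) (Set.range ![t, π]) π
    hπq (Algebra.subset_adjoin ⟨1, rfl⟩) s w R hR hs hRq hR' hsw
  refine exists_form_of_der hL j hj C.I C.prime hjC ![t, π] h ?_ ?_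
  · intro m F hF hhF hFC
    exact hh ((hposC h m F hF hhF).2 hFC)
  · intro χ hχ δ hδ hu
    refine hder χ hχ δ hδ ?_
    rintro _ ⟨k, rfl⟩
    exact hu k

/-- Openness of the regular locus, from the bridge statements. -/
theorem regOpen_of_bridge (hL : Algebra.trdeg ℂ Y.L = 2)
    (hv : ∀ C, Y.IsCurveOn C → ∃ v : DVal Y.L, ∀ a, v.Int a ↔ a ∈ Y.locRing C.I) : RegOpen Y :=
  ⟨regOpen_generic hL, fun C hC => by
    obtain ⟨v, hv⟩ := hv C hC
    exact regOpen_curve hL C hC.1 v hv⟩

end

end LCY
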