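import Mathlib
import Pool.Agent.Helper26.LC.K0d
import Pool.Agent.Helper26.LC.ET1
import Pool.Agent.Helper26.LC.FamStmts3
import Pool.Agent.Helper48.LCY.TFe
import Pool.Agent.Helper48.LCY.Asm

/-!
Assembly of ST_T0 (MP_f7e214_ag): trivial torsion.
-/

open Polynomial

namespace LCY

noncomputable section

/-- T0PT. Trivial torsion and `k ≥ 3`: the Weierstrass data. -/
def ST_T0PT : Prop := ∀ (L : Type) [Field L] [Algebra ℂ L] (N : ℕ) (ω : Bracket L)
  (x : Fin (N + 1) → L), Adm ω x → ∀ (k : ℕ) (T : PStr L k), 3 ≤ k → State ω x T →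
  ZSpan ω x T → ∃ (S : Coord L) (c A B : ℂ), WeiOut ω x k S c A B

namespace H26

/-- Trivial torsion. -/
theorem t0 (hKM : Pool.Agent.Helper48.KM.ST_ALL) (hD : ST_DOMF) (hPT : ST_T0PT) : ST_T0 := by
  intro L _ _ N ω x hA k T hk hS hZ
  rcases hk with rfl | hk
  · exact fam_zero hA T hS
  · obtain ⟨S, c, A, B, hW⟩ := hPT L N ω x hA k T hk hS hZ
    exact H48.t0fam hKM hD st_ET1 L N ω x hA k S c A B hk hS.le hW

end H26

end

end LCY
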